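import Pool.Agent.U922.NS.Fub
import Pool.Agent.W188.QS.Asm3

/-!
# The averaged comparison (helper922)
-/

set_option autoImplicit false

open Complex MeasureTheory Set Filter Topology

namespace Pool.Agent.U922.NS

open Pool.Agent.W188.QS Pool.Agent.U922.OL

lemma PCup {k : ℕ} {g : ℝ → ℝ} (hg : Measurable g) {M : ℝ} (hM : ∀ t, |g t| ≤ M) (h0 : ∀ t, 0 ≤ g t)
    {u v Δ r : ℝ} (hu : 200 ≤ u) (huv : u ≤ v) (hv : v ≤ 3 * u) (hΔ : 0 < Δ) (hr : 0 ≤ r) (hr' : r ≤ u / 4) :
    ∫ t in (u / 2)..(3 * v / 2), Zk k t * g t * PC u v Δ t ≤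
      (∫ t in (u - r)..(v + r), Zk k t * g t) +
        Real.exp (-(r / Δ) ^ 2) * ∫ t in (u / 2)..(3 * v / 2), Zk k t * g t := by
  have hu0 : 0 < u := by linarith
  set e := Real.exp (-(r / Δ) ^ 2) with he
  have he0 : 0 ≤ e := (Real.exp_pos _).le
  have hn : ∀ t, 0 ≤ Zk k t * g t := fun t => mul_nonneg (Zk_nonneg k t) (h0 t)
  have iP : ∀ a b : ℝ, 0 ≤ a → 0 ≤ b → IntervalIntegrable (fun t => Zk k t * g t * PC u v Δ t) volume a b :=
    fun a b ha hb => hintP hg hM hu0 huv hv hΔ ha hb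
  have iH : ∀ a b : ℝ, IntervalIntegrable (fun t => Zk k t * g t) volume a b := fun a b => hint hg hM a b
  have hpc : ∀ t, 0 ≤ PC u v Δ t ∧ PC u v Δ t ≤ 1 ∧ (t ≤ u / 2 → PC u v Δ t = 0) ∧
      (3 * v / 2 ≤ t → PC u v Δ t = 0) ∧
      (u + r ≤ t → t ≤ v - r → 1 - e ≤ PC u v Δ t) ∧
      ((t ≤ u - r ∨ v + r ≤ t) → PC u v Δ t ≤ e) := fun t =>
    Pool.Agent.W864.QS.qs_pc u v Δ r t hu0 huv hv hΔ hr hr'
  rw [← intervalIntegral.integral_add_adjacent_intervals (iP (u / 2) (u - r) (by linarith) (by linarith))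
      (iP (u - r) (3 * v / 2) (by linarith) (by linarith)),
    ← intervalIntegral.integral_add_adjacent_intervals (iP (u - r) (v + r) (by linarith) (by linarith))
      (iP (v + r) (3 * v / 2) (by linarith) (by linarith)),
    ← intervalIntegral.integral_add_adjacent_intervals (iH (u / 2) (u - r)) (iH (u - r) (3 * v / 2)),
    ← intervalIntegral.integral_add_adjacent_intervals (iH (u - r) (v + r)) (iH (v + r) (3 * v / 2))]
  have h1 : ∫ t in (u / 2)..(u - r), Zk k t * g t * PC u v Δ t ≤ e * ∫ t in (u / 2)..(u - r), Zk k t * g t := by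
    rw [← intervalIntegral.integral_const_mul]
    apply intervalIntegral.integral_mono_on (by linarith) (iP _ _ (by linarith) (by linarith))
      ((iH _ _).const_mul e)
    intro t ht
    rw [mul_comm e]
    exact mul_le_mul_of_nonneg_left ((hpc t).2.2.2.2.2 (Or.inl ht.2)) (hn t)
  have h2 : ∫ t in (u - r)..(v + r), Zk k t * g t * PC u v Δ t ≤ ∫ t in (u - r)..(v + r), Zk k t * g t := by
    apply intervalIntegral.integral_mono_on (by linarith) (iP _ _ (by linarith) (by linarith)) (iH _ _)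
    intro t ht
    exact mul_le_of_le_one_right (hn t) (hpc t).2.1
  have h3 : ∫ t in (v + r)..(3 * v / 2), Zk k t * g t * PC u v Δ t ≤
      e * ∫ t in (v + r)..(3 * v / 2), Zk k t * g t := by
    rw [← intervalIntegral.integral_const_mul]
    apply intervalIntegral.integral_mono_on (by linarith) (iP _ _ (by linarith) (by linarith))
      ((iH _ _).const_mul e)
    intro t ht
    rw [mul_comm e]
    exact mul_le_mul_of_nonneg_left ((hpc t).2.2.2.2.2 (Or.inr ht.1)) (hn t)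
  have h4 : 0 ≤ e * ∫ t in (u - r)..(v + r), Zk k t * g t :=
    mul_nonneg he0 (intervalIntegral.integral_nonneg (by linarith) fun t _ => hn t)
  linarith

lemma PClow {k : ℕ} {g : ℝ → ℝ} (hg : Measurable g) {M : ℝ} (hM : ∀ t, |g t| ≤ M) (h0 : ∀ t, 0 ≤ g t)
    {u v Δ r : ℝ} (hu : 200 ≤ u) (huv : u ≤ v) (hv : v ≤ 3 * u) (hΔ : 0 < Δ) (hr : 0 ≤ r) (hr' : r ≤ u / 4)
    (huv' : u + r ≤ v - r) :
    ∫ t in (u + r)..(v - r), Zk k t * g t ≤ (∫ t in (u / 2)..(3 * v / 2), Zk k t * g t * PC u v Δ t) +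
        Real.exp (-(r / Δ) ^ 2) * ∫ t in (u / 2)..(3 * v / 2), Zk k t * g t := by
  have hu0 : 0 < u := by linarith
  set e := Real.exp (-(r / Δ) ^ 2) with he
  have he0 : 0 ≤ e := (Real.exp_pos _).le
  have hn : ∀ t, 0 ≤ Zk k t * g t := fun t => mul_nonneg (Zk_nonneg k t) (h0 t)
  have iP : ∀ a b : ℝ, 0 ≤ a → 0 ≤ b → IntervalIntegrable (fun t => Zk k t * g t * PC u v Δ t) volume a b :=
    fun a b ha hb => hintP hg hM hu0 huv hv hΔ ha hb
  have iH : ∀ a b : ℝ, IntervalIntegrable (fun t => Zk k t * g t) volume a b := fun a b => hint hg hM a b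
  have hpc : ∀ t, 0 ≤ PC u v Δ t ∧ PC u v Δ t ≤ 1 ∧ (t ≤ u / 2 → PC u v Δ t = 0) ∧
      (3 * v / 2 ≤ t → PC u v Δ t = 0) ∧
      (u + r ≤ t → t ≤ v - r → 1 - e ≤ PC u v Δ t) ∧
      ((t ≤ u - r ∨ v + r ≤ t) → PC u v Δ t ≤ e) := fun t =>
    Pool.Agent.W864.QS.qs_pc u v Δ r t hu0 huv hv hΔ hr hr'
  have iA : ∀ a b : ℝ, 0 ≤ a → 0 ≤ b →
      IntervalIntegrable (fun t => Zk k t * g t * PC u v Δ t + e * (Zk k t * g t)) volume a b :=
    fun a b ha hb => (iP a b ha hb).add ((iH a b).const_mul e)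
  have h1 : ∫ t in (u + r)..(v - r), Zk k t * g t ≤
      ∫ t in (u + r)..(v - r), (Zk k t * g t * PC u v Δ t + e * (Zk k t * g t)) := by
    apply intervalIntegral.integral_mono_on huv' (iH _ _) (iA _ _ (by linarith) (by linarith))
    intro t ht
    have h2 := (hpc t).2.2.2.2.1 ht.1 ht.2
    have h3 := hn t
    nlinarith
  have h2 : ∫ t in (u + r)..(v - r), (Zk k t * g t * PC u v Δ t + e * (Zk k t * g t)) ≤
      ∫ t in (u / 2)..(3 * v / 2), (Zk k t * g t * PC u v Δ t + e * (Zk k t * g t)) := by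
    apply intervalIntegral.integral_mono_interval (by linarith) huv' (by linarith)
    · refine Eventually.of_forall fun t => ?_
      have := hn t
      have := (hpc t).1
      show 0 ≤ Zk k t * g t * PC u v Δ t + e * (Zk k t * g t)
      positivity
    · exact iA _ _ (by linarith) (by linarith)
  have h3 : ∫ t in (u / 2)..(3 * v / 2), (Zk k t * g t * PC u v Δ t + e * (Zk k t * g t)) =
      (∫ t in (u / 2)..(3 * v / 2), Zk k t * g t * PC u v Δ t) +
        e * ∫ t in (u / 2)..(3 * v / 2), Zk k t * g t := by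
    rw [intervalIntegral.integral_add (iP _ _ (by linarith) (by linarith)) ((iH _ _).const_mul e),
      intervalIntegral.integral_const_mul]
  rw [h3] at h2
  exact h1.trans h2

/-- the expected size -/
noncomputable def LL (k : ℕ) (T : ℝ) : ℝ := T * Real.log T ^ (k ^ 2)

lemma er_mono (k : ℕ) {a b : ℝ} (ha : 1 ≤ a) (hab : a ≤ b) : er k a ≤ er k b := by
  unfold er
  split_ifs
  · exact le_rfl
  · have h1 := Real.log_nonneg ha
    have h2 : Real.log a ≤ Real.log b := Real.log_le_log (by linarith) hab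
    have h3 : 0 ≤ b := by linarith
    have h4 : Real.log a ^ (2 * k - 1) ≤ Real.log b ^ (2 * k - 1) := pow_le_pow_left₀ h1 h2 _
    exact mul_le_mul hab h4 (by positivity) h3

lemma er_LL {k : ℕ} (hk : 1 ≤ k) {T : ℝ} (hT : 3 ≤ T) (hl : 1 ≤ Real.log T) :
    √(Real.log T) * er k (3 * T) ≤ 3 * 2 ^ (2 * k - 1) * (LL k T / √(Real.log T)) := by
  have hs : 0 < √(Real.log T) := Real.sqrt_pos.2 (by linarith)
  have hss : √(Real.log T) * √(Real.log T) = Real.log T := Real.mul_self_sqrt (by linarith)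
  unfold er LL
  split_ifs with h1
  · have : 0 ≤ T * Real.log T ^ k ^ 2 / √(Real.log T) := by positivity
    rw [mul_zero]
    positivity
  · have hk2 : 2 ≤ k := by omega
    have h2 : Real.log (3 * T) ≤ 2 * Real.log T := by
      have : Real.log (3 * T) ≤ Real.log (T ^ 2) := by
        apply Real.log_le_log (by linarith)
        nlinarith
      rw [Real.log_pow] at this
      exact_mod_cast this
    have h2' : 0 ≤ Real.log (3 * T) := Real.log_nonneg (by linarith)
    have h3 : Real.log (3 * T) ^ (2 * k - 1) ≤ 2 ^ (2 * k - 1) * Real.log T ^ (2 * k - 1) := by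
      rw [← mul_pow]
      exact pow_le_pow_left₀ h2' h2 _
    have h4 : Real.log T ^ (2 * k - 1) ≤ Real.log T ^ (k ^ 2 - 1) := by
      apply pow_le_pow_right₀ hl
      have : 2 * k ≤ k ^ 2 := by nlinarith
      omega
    have h5 : Real.log T ^ (k ^ 2) = Real.log T ^ (k ^ 2 - 1) * Real.log T := by
      rw [← pow_succ]
      congr 1
      have : 1 ≤ k ^ 2 := Nat.one_le_pow _ _ (by omega)
      omega
    rw [h5, ← hss]
    rw [hss]
    have h6 : T * (Real.log T ^ (k ^ 2 - 1) * Real.log T) / √(Real.log T) =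
        T * Real.log T ^ (k ^ 2 - 1) * √(Real.log T) := by
      rw [div_eq_iff hs.ne']
      rw [mul_assoc (T * Real.log T ^ (k ^ 2 - 1)), hss, mul_assoc]
    rw [h6]
    calc √(Real.log T) * (3 * T * Real.log (3 * T) ^ (2 * k - 1))
        ≤ √(Real.log T) * (3 * T * (2 ^ (2 * k - 1) * Real.log T ^ (k ^ 2 - 1))) := by
          gcongr
          exact h3.trans (by gcongr)
      _ = _ := by ring

lemma ev_log15 (B : ℝ) : ∀ᶠ T : ℝ in atTop, B * (Real.log T * √(Real.log T)) ≤ T := by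
  have h1 : Tendsto (fun T : ℝ => Real.log T ^ (2 : ℕ) / T) atTop (𝓝 0) := by
    have := Real.isLittleO_pow_log_id_atTop (n := 2)
    exact this.tendsto_div_nhds_zero
  have h2 : ∀ᶠ T : ℝ in atTop, Real.log T ^ (2 : ℕ) / T < 1 / (|B| + 1) :=
    (tendsto_order.1 h1).2 _ (by positivity)
  filter_upwards [h2, eventually_ge_atTop (Real.exp 1)] with T hT hT1
  have hT0 : 0 < T := (Real.exp_pos 1).trans_le hT1
  have hl : 1 ≤ Real.log T := by
    rw [Real.le_log_iff_exp_le hT0]; exact hT1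
  rw [div_lt_div_iff₀ hT0 (by positivity), one_mul] at hT
  have h3 : √(Real.log T) ≤ Real.log T := by
    rw [Real.sqrt_le_left (by linarith)]
    nlinarith
  have h4 : Real.log T * √(Real.log T) ≤ Real.log T ^ 2 := by
    rw [sq]
    exact mul_le_mul_of_nonneg_left h3 (by linarith)
  have h5 : 0 ≤ Real.log T * √(Real.log T) := by positivity
  calc B * (Real.log T * √(Real.log T)) ≤ (|B| + 1) * (Real.log T * √(Real.log T)) := by
        apply mul_le_mul_of_nonneg_right _ h5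
        linarith [le_abs_self B]
    _ ≤ (|B| + 1) * Real.log T ^ 2 := mul_le_mul_of_nonneg_left h4 (by positivity)
    _ ≤ T := by linarith

/-- the averaged comparison -/
theorem avg {k n : ℕ} (hk : 1 ≤ k) (hn1 : 1 ≤ n) (hn : k ≤ n + 1) {κ₀ : ℝ} {K : ℂ → ℝ} (hK : IsTP n κ₀ K)
    {ε θ : ℝ} (h0 : 0 < ε) (h1 : ε ≤ 1 / 4) (ht1 : 1 ≤ θ) (ht2 : θ ≤ 2) : ∃ B : ℝ, 1 ≤ B ∧ ((4 * k + 2 : ℕ) : ℝ) ≤ (ε * B / 2) ^ 2 ∧
    ∀ η : ℝ, 0 < η → ∀ᶠ T : ℝ in atTop, ∀ c : ℂ, ‖c‖ = 1 →
      |(∫ t in ((T - ε * T / 2) / 2)..(3 * (θ * T + ε * T / 2) / 2), Zk k t * K (c * V t) *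
          PC (T - ε * T / 2) (θ * T + ε * T / 2) (T / (B * √(Real.log T))) t) -
        κ₀ * ∫ t in ((T - ε * T / 2) / 2)..(3 * (θ * T + ε * T / 2) / 2), Zk k t * 1 *
          PC (T - ε * T / 2) (θ * T + ε * T / 2) (T / (B * √(Real.log T))) t| ≤ η * LL k T := by
  obtain ⟨B1, C, T1, hB1, hC, hT1, hcore⟩ := core hk hn1 hn hK
  obtain ⟨Cb, hCb, hbd⟩ := hK.bdd
  set B : ℝ := max (4 * B1) (2 / ε * ((4 * k + 2 : ℕ) : ℝ)) with hB
  have hBa : 4 * B1 ≤ B := le_max_left _ _
  have hBb : 2 / ε * ((4 * k + 2 : ℕ) : ℝ) ≤ B := le_max_right _ _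
  have hB1' : 1 ≤ B := by linarith
  have hB0 : 0 < B := by linarith
  refine ⟨B, hB1', ?_, ?_⟩
  · have h2 : ((4 * k + 2 : ℕ) : ℝ) ≤ ε * B / 2 := by
      have := mul_le_mul_of_nonneg_left hBb (by positivity : 0 ≤ ε / 2)
      have e : ε / 2 * (2 / ε * ((4 * k + 2 : ℕ) : ℝ)) = ((4 * k + 2 : ℕ) : ℝ) := by field_simp
      rw [e] at this
      linarith
    have h3 : (1 : ℝ) ≤ ((4 * k + 2 : ℕ) : ℝ) := by exact_mod_cast (by omega : 1 ≤ 4 * k + 2)
    nlinarith
  intro η hη
  set C3 : ℝ := 2 * C * (1 + B * (3 * 2 ^ (2 * k - 1))) with hC3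
  filter_upwards [eventually_ge_atTop (2 * T1), ev_log15 (2 * B),
    ev_log_shift 1 1 one_pos, (Real.tendsto_sqrt_atTop.comp Real.tendsto_log_atTop).eventually_ge_atTop (C3 / η)]
    with T hTT1 hT2 hl hT4
  intro c hc
  simp only [Function.comp] at hT4
  rw [one_mul] at hl
  have hT600 : 600 ≤ T := by linarith
  have hT0 : 0 < T := by linarith
  have hs : 1 ≤ √(Real.log T) := by rw [Real.one_le_sqrt]; exact hl
  have hs0 : 0 < √(Real.log T) := by linarith
  have hss : √(Real.log T) * √(Real.log T) = Real.log T := Real.mul_self_sqrt (by linarith)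
  set Δ : ℝ := T / (B * √(Real.log T)) with hΔ
  have hΔ0 : 0 < Δ := by positivity
  set u : ℝ := T - ε * T / 2 with hu
  set v : ℝ := θ * T + ε * T / 2 with hv
  have hεT : ε * T ≤ T / 4 := by nlinarith
  have hεT0 : 0 < ε * T := by positivity
  have hθ1 : T ≤ θ * T := le_mul_of_one_le_left hT0.le ht1
  have hθ2 : θ * T ≤ 2 * T := mul_le_mul_of_nonneg_right ht2 hT0.le
  have hu1 : 7 / 8 * T ≤ u := by rw [hu]; linarith
  have hv1 : v ≤ 3 * T := by rw [hv]; linarith
  have huv : u ≤ v := by rw [hu, hv]; linarith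
  have hv3 : v ≤ 3 * u := by rw [hu, hv]; linarith
  have hvu : v - u ≤ 2 * T := by rw [hu, hv]; linarith
  have hL2 : 2 * Real.log T ≤ Δ := by
    rw [hΔ, le_div_iff₀ (by positivity)]
    linarith
  -- the range
  have hlog3 : Real.log (3 * T) ≤ 2 * Real.log T := by
    have : Real.log (3 * T) ≤ Real.log (T ^ 2) := by
      apply Real.log_le_log (by linarith)
      nlinarith
    rw [Real.log_pow] at this
    exact_mod_cast this
  have hrg : ∀ τ ∈ Icc u v, Rg B1 T1 τ Δ := by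
    intro τ hτ
    have hτ0 : 0 < τ := by linarith [hτ.1]
    have h2 : Real.log τ ≤ 2 * Real.log T := by
      refine le_trans ?_ hlog3
      exact Real.log_le_log hτ0 (by linarith [hτ.2])
    refine ⟨by linarith [hτ.1], h2.trans hL2, ?_⟩
    have h3 : √(Real.log τ) ≤ 2 * √(Real.log T) := by
      rw [Real.sqrt_le_left (by positivity), mul_pow, Real.sq_sqrt (by linarith)]
      linarith
    calc B1 * Δ * √(Real.log τ) ≤ B1 * Δ * (2 * √(Real.log T)) := by
          apply mul_le_mul_of_nonneg_left h3 (by positivity)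
      _ = 2 * B1 / B * T := by
          rw [hΔ]; field_simp
      _ ≤ 1 / 2 * T := by
          apply mul_le_mul_of_nonneg_right _ hT0.le
          rw [div_le_iff₀ hB0]
          linarith
      _ ≤ τ := by linarith [hτ.1]
  set E : ℝ := C * (Δ + er k (3 * T)) with hE
  have her0 : 0 ≤ er k (3 * T) := er_nonneg k (by linarith)
  have hKm : Measurable fun t => K (c * V t) := hK.cont.measurable.comp (V_meas.const_mul c)
  have hKb : ∀ t, |K (c * V t)| ≤ Cb := fun t => hbd _ (by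
    rw [norm_mul, hc, one_mul]; exact V_le t)
  obtain ⟨f1, f2⟩ := fub (k := k) hKm hKb (by linarith : 200 ≤ u) huv hv3 hΔ0
  obtain ⟨g1, g2⟩ := fub (k := k) (g := fun _ => 1) (M := 1) measurable_const (fun _ => by norm_num)
    (by linarith : 200 ≤ u) huv hv3 hΔ0
  have hb : ∀ τ ∈ uIoc u v, ‖(∫ t in (τ / 2)..(3 * τ / 2), Zk k t * K (c * V t) * gg τ Δ t) -
      κ₀ * ∫ t in (τ / 2)..(3 * τ / 2), Zk k t * 1 * gg τ Δ t‖ ≤ E := by
    intro τ hτ
    rw [uIoc_of_le huv] at hτ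
    have h2 := hcore τ Δ (hrg τ ⟨hτ.1.le, hτ.2⟩) c hc
    simp only [mul_one]
    rw [Real.norm_eq_abs]
    refine h2.trans ?_
    rw [hE]
    apply mul_le_mul_of_nonneg_left _ hC.le
    have := er_mono k (a := τ) (b := 3 * T) (by linarith [hτ.1]) (by linarith [hτ.2])
    linarith
  have h2 := intervalIntegral.norm_integral_le_of_norm_le_const hb
  rw [intervalIntegral.integral_sub f1 (g1.const_mul κ₀), intervalIntegral.integral_const_mul, f2, g2,
    abs_of_nonneg (by linarith : 0 ≤ v - u)] at h2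
  set P1 := ∫ t in (u / 2)..(3 * v / 2), Zk k t * K (c * V t) * PC u v Δ t
  set P2 := ∫ t in (u / 2)..(3 * v / 2), Zk k t * 1 * PC u v Δ t
  have hpi : 1 ≤ √Real.pi := by rw [Real.one_le_sqrt]; linarith [Real.pi_gt_three]
  have h3 : Δ * |P1 - κ₀ * P2| ≤ E * (2 * T) := by
    have e1 : √Real.pi * Δ * P1 - κ₀ * (√Real.pi * Δ * P2) = √Real.pi * (Δ * (P1 - κ₀ * P2)) := by ring
    rw [e1, Real.norm_eq_abs, abs_mul, abs_mul, abs_of_nonneg (by positivity : 0 ≤ √Real.pi),
      abs_of_nonneg hΔ0.le] at h2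
    have h4 : Δ * |P1 - κ₀ * P2| ≤ √Real.pi * (Δ * |P1 - κ₀ * P2|) :=
      le_mul_of_one_le_left (by positivity) hpi
    have h5 : E * (v - u) ≤ E * (2 * T) := by
      apply mul_le_mul_of_nonneg_left hvu
      rw [hE]; positivity
    linarith
  have h4 : |P1 - κ₀ * P2| ≤ E * (2 * T) / Δ := by
    rw [le_div_iff₀ hΔ0, mul_comm]
    exact h3
  refine h4.trans ?_
  have h5 : E * (2 * T) / Δ = 2 * C * T + 2 * C * B * (√(Real.log T) * er k (3 * T)) := by
    rw [hE, hΔ]
    field_simp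
  rw [h5]
  have h6 := er_LL hk (T := T) (by linarith) hl
  have hLL0 : 0 ≤ LL k T := by unfold LL; positivity
  have h7 : T ≤ LL k T / √(Real.log T) := by
    rw [le_div_iff₀ hs0]
    unfold LL
    apply mul_le_mul_of_nonneg_left _ hT0.le
    calc √(Real.log T) ≤ Real.log T := by
          rw [Real.sqrt_le_left (by linarith)]
          nlinarith
      _ = Real.log T ^ 1 := (pow_one _).symm
      _ ≤ Real.log T ^ k ^ 2 := pow_le_pow_right₀ hl (Nat.one_le_pow _ _ (by omega))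
  have h8 : 2 * C * T + 2 * C * B * (√(Real.log T) * er k (3 * T)) ≤ C3 * (LL k T / √(Real.log T)) := by
    rw [hC3]
    have a1 : 2 * C * T ≤ 2 * C * (LL k T / √(Real.log T)) := mul_le_mul_of_nonneg_left h7 (by positivity)
    have a2 : 2 * C * B * (√(Real.log T) * er k (3 * T)) ≤
        2 * C * B * (3 * 2 ^ (2 * k - 1) * (LL k T / √(Real.log T))) :=
      mul_le_mul_of_nonneg_left h6 (by positivity)
    nlinarith
  refine h8.trans ?_
  have h9 : C3 ≤ η * √(Real.log T) := by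
    rw [div_le_iff₀ hη] at hT4
    linarith
  calc C3 * (LL k T / √(Real.log T)) ≤ (η * √(Real.log T)) * (LL k T / √(Real.log T)) := by
        apply mul_le_mul_of_nonneg_right h9 (by positivity)
    _ = η * LL k T := by field_simp

end Pool.Agent.U922.NS
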