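import Pool.Agent.U922.NS.Tw
import Pool.Agent.U922.OL.Defs

/-!
# Trigonometric multipliers (helper922)
-/

set_option autoImplicit false

open Complex MeasureTheory Set Filter Topology

namespace Pool.Agent.U922.NS

open Pool.Agent.W188.QS Pool.Agent.U922.OL

/-- `(ζ/|ζ|)²` on the critical line -/
noncomputable def V (t : ℝ) : ℂ := z t ^ 2 / ((‖z t‖ ^ 2 : ℝ) : ℂ)

lemma z_cont : Continuous z := Pool.Agent.H983R4.LH.zeta_line_cont

lemma V_meas : Measurable V := by
  unfold V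
  exact (z_cont.pow 2).measurable.div (Complex.measurable_ofReal.comp (z_cont.norm.pow 2).measurable)

lemma V_norm {t : ℝ} (h : z t ≠ 0) : ‖V t‖ = 1 := by
  have h1 : ‖z t‖ ≠ 0 := norm_ne_zero_iff.2 h
  unfold V
  rw [norm_div, norm_pow, Complex.norm_real, Real.norm_of_nonneg (by positivity)]
  field_simp

lemma V_le (t : ℝ) : ‖V t‖ ≤ 1 := by
  by_cases h : z t = 0
  · unfold V
    rw [h]
    simp
  · exact (V_norm h).le

lemma ww_V {k N : ℕ} (hk : 1 ≤ k) {t : ℝ} (ht : 1 ≤ t) :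
    ((Zk k t : ℝ) : ℂ) * ww 1 N (cp t) = ((Zk k t : ℝ) : ℂ) * V t ^ N := by
  by_cases h : z t = 0
  · have : Zk k t = 0 := by
      show ‖z t‖ ^ (2 * k) = 0
      rw [h, norm_zero, zero_pow (by omega)]
    rw [this]
    simp
  · have hX : ‖XX (cp t)‖ = 1 := a_line.2.1 t
    have hX0 : XX (cp t) ≠ 0 := by
      intro h
      rw [h] at hX
      simp at hX
    have hfe : (starRingEnd ℂ) (z t) = XX (cp t) * z t := a_line.2.2.1 t ht
    have hV : V t = (XX (cp t))⁻¹ := by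
      unfold V
      have h2 : ((‖z t‖ ^ 2 : ℝ) : ℂ) = XX (cp t) * z t ^ 2 := by
        have h3 := Complex.mul_conj (z t)
        rw [hfe, Complex.normSq_eq_norm_sq] at h3
        rw [← h3]; ring
      rw [h2]
      field_simp
    rw [hV]
    unfold ww
    rw [one_mul]

/-- `K` is a trigonometric polynomial with mean value `κ₀` without frequencies `1, …, n - 1` -/
def IsTP (n : ℕ) (κ₀ : ℝ) (K : ℂ → ℝ) : Prop :=
  ∃ (M : ℕ) (κ : ℕ → ℂ), (∀ m, m < n → κ m = 0) ∧
    ∀ v, K v = κ₀ + (∑ m ∈ Finset.range M, κ m * v ^ m).re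

lemma IsTP.cont {n : ℕ} {κ₀ : ℝ} {K : ℂ → ℝ} (h : IsTP n κ₀ K) : Continuous K := by
  obtain ⟨M, κ, -, h⟩ := h
  have : K = fun v => κ₀ + (∑ m ∈ Finset.range M, κ m * v ^ m).re := funext h
  rw [this]
  refine continuous_const.add (Complex.continuous_re.comp ?_)
  fun_prop

lemma IsTP.bdd {n : ℕ} {κ₀ : ℝ} {K : ℂ → ℝ} (h : IsTP n κ₀ K) :
    ∃ C : ℝ, 0 < C ∧ ∀ v, ‖v‖ ≤ 1 → |K v| ≤ C := by
  obtain ⟨M, κ, -, h⟩ := h
  refine ⟨|κ₀| + ∑ m ∈ Finset.range M, ‖κ m‖ + 1, by positivity, fun v hv => ?_⟩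
  rw [h]
  have h1 : |(∑ m ∈ Finset.range M, κ m * v ^ m).re| ≤ ∑ m ∈ Finset.range M, ‖κ m‖ := by
    refine (Complex.abs_re_le_norm _).trans ((norm_sum_le _ _).trans ?_)
    apply Finset.sum_le_sum
    intro m _
    rw [norm_mul, norm_pow]
    calc ‖κ m‖ * ‖v‖ ^ m ≤ ‖κ m‖ * 1 := by
          apply mul_le_mul_of_nonneg_left _ (norm_nonneg _)
          exact pow_le_one₀ (norm_nonneg _) hv
      _ = ‖κ m‖ := mul_one _
  have := abs_add_le κ₀ (∑ m ∈ Finset.range M, κ m * v ^ m).re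
  linarith

lemma int_mul (f : ℝ → ℝ) (hf : Continuous f) (g : ℝ → ℂ) (hg : Measurable g) {C : ℝ}
    (hC : ∀ t, ‖g t‖ ≤ C) (a b : ℝ) : IntervalIntegrable (fun t => g t * (f t : ℂ)) volume a b := by
  have h1 : Continuous fun t => (f t : ℂ) := Complex.continuous_ofReal.comp hf
  constructor
  · exact (h1.intervalIntegrable a b).1.bdd_mul hg.aestronglyMeasurable (Eventually.of_forall hC)
  · exact (h1.intervalIntegrable a b).2.bdd_mul hg.aestronglyMeasurable (Eventually.of_forall hC)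

lemma gg_cont' (T Δ : ℝ) : Continuous (gg T Δ) := gg_cont T Δ

/-- the range of the parameters -/
def Rg (B T₀ T Δ : ℝ) : Prop := T₀ ≤ T ∧ Real.log T ≤ Δ ∧ B * Δ * √(Real.log T) ≤ T

lemma Rg.mono {B B' T₀ T₀' T Δ : ℝ} (h : Rg B T₀ T Δ) (h1 : B' ≤ B) (h2 : T₀' ≤ T₀) (hT : 1 ≤ T₀) :
    Rg B' T₀' T Δ := by
  have h3 : 0 ≤ Real.log T := Real.log_nonneg (hT.trans h.1)
  have h4 : 0 ≤ Δ := h3.trans h.2.1
  refine ⟨h2.trans h.1, h.2.1, le_trans ?_ h.2.2⟩
  have := Real.sqrt_nonneg (Real.log T)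
  gcongr

/-- the error term -/
noncomputable def er (k : ℕ) (T : ℝ) : ℝ := if k = 1 then 0 else T * Real.log T ^ (2 * k - 1)

lemma er_nonneg (k : ℕ) {T : ℝ} (hT : 1 ≤ T) : 0 ≤ er k T := by
  have := Real.log_nonneg hT
  unfold er
  split_ifs
  · exact le_rfl
  · positivity

/-- multipliers, complex form -/
theorem core_c {k n : ℕ} (hk : 1 ≤ k) (hn1 : 1 ≤ n) (hn : k ≤ n + 1) (κ : ℕ → ℂ) (hκ : ∀ m, m < n → κ m = 0) (M : ℕ) :
    ∃ B C T₀ : ℝ, 1 ≤ B ∧ 0 < C ∧ 300 ≤ T₀ ∧ ∀ T Δ : ℝ, Rg B T₀ T Δ → ∀ c : ℂ, ‖c‖ = 1 →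
      ‖∫ t in (T / 2)..(3 * T / 2), (∑ m ∈ Finset.range M, κ m * (c * V t) ^ m) *
        ((Zk k t * gg T Δ t : ℝ) : ℂ)‖ ≤ C * (Δ + er k T) := by
  induction M with
  | zero =>
    refine ⟨1, 1, 300, le_rfl, one_pos, le_rfl, fun T Δ h c hc => ?_⟩
    have h1 : 0 ≤ Real.log T := Real.log_nonneg (by linarith [h.1])
    have h2 : 0 ≤ Δ := h1.trans h.2.1
    have h3 : 0 ≤ er k T := er_nonneg k (by linarith [h.1])
    simp only [Finset.range_zero, Finset.sum_empty, zero_mul, intervalIntegral.integral_zero, norm_zero]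
    positivity
  | succ M ih =>
    obtain ⟨B1, C1, T1, hB1, hC1, hT1, h1⟩ := ih
    by_cases hM : M < n
    · refine ⟨B1, C1, T1, hB1, hC1, hT1, fun T Δ h c hc => ?_⟩
      have h2 := h1 T Δ h c hc
      simp only [Finset.sum_range_succ, hκ M hM, zero_mul, add_zero]
      exact h2
    · have hkM : k ≤ M + 1 := by omega
      obtain ⟨B2, C2, T2, hB2, hC2, h2⟩ := twist k M hk hkM
      refine ⟨max B1 B2, C1 + ‖κ M‖ * C2, max T1 T2, hB1.trans (le_max_left _ _), by positivity,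
        hT1.trans (le_max_left _ _), fun T Δ h c hc => ?_⟩
      have hT3 : 1 ≤ max T1 T2 := le_trans (by linarith) (le_max_left T1 T2)
      have hT0 : 300 ≤ T := hT1.trans ((le_max_left _ _).trans h.1)
      have h3 := h1 T Δ (h.mono (le_max_left _ _) (le_max_left _ _) hT3) c hc
      have h4' := h.mono (le_max_right _ _) (le_max_right _ _) hT3
      have h4 := h2 T Δ h4'.1 h4'.2.1 h4'.2.2
      have h4e : (if M + 1 = k then T * Real.log T ^ (2 * k - 1) else 0 : ℝ) ≤ er k T := by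
        have := Real.log_nonneg (by linarith : 1 ≤ T)
        unfold er
        by_cases hk1 : k = 1
        · rw [if_neg (by omega), if_pos hk1]
        · rw [if_neg hk1]
          split_ifs
          · exact le_rfl
          · positivity
      have hcV : ∀ t, ‖c * V t‖ ≤ 1 := fun t => by
        rw [norm_mul, hc, one_mul]
        exact V_le t
      have hcont : Continuous fun t => Zk k t * gg T Δ t := (Zk_cont k).mul (gg_cont T Δ)
      have i1 := int_mul _ hcont (fun t => ∑ m ∈ Finset.range M, κ m * (c * V t) ^ m)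
        (Finset.measurable_fun_sum _ fun m _ => ((V_meas.const_mul c).pow_const m).const_mul (κ m))
        (C := ∑ m ∈ Finset.range M, ‖κ m‖) (fun t => by
          refine (norm_sum_le _ _).trans (Finset.sum_le_sum fun m _ => ?_)
          rw [norm_mul, norm_pow]
          calc ‖κ m‖ * ‖c * V t‖ ^ m ≤ ‖κ m‖ * 1 := by
                apply mul_le_mul_of_nonneg_left _ (norm_nonneg _)
                exact pow_le_one₀ (norm_nonneg _) (hcV t)
            _ = ‖κ m‖ := mul_one _) (T / 2) (3 * T / 2)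
      have i2 := int_mul _ hcont (fun t => κ M * (c * V t) ^ M)
        (((V_meas.const_mul c).pow_const M).const_mul (κ M))
        (C := ‖κ M‖) (fun t => by
          rw [norm_mul, norm_pow]
          calc ‖κ M‖ * ‖c * V t‖ ^ M ≤ ‖κ M‖ * 1 := by
                apply mul_le_mul_of_nonneg_left _ (norm_nonneg _)
                exact pow_le_one₀ (norm_nonneg _) (hcV t)
            _ = ‖κ M‖ := mul_one _) (T / 2) (3 * T / 2)
      have e : ∀ t : ℝ, (∑ m ∈ Finset.range (M + 1), κ m * (c * V t) ^ m) * ((Zk k t * gg T Δ t : ℝ) : ℂ) =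
          (∑ m ∈ Finset.range M, κ m * (c * V t) ^ m) * ((Zk k t * gg T Δ t : ℝ) : ℂ) +
          (κ M * (c * V t) ^ M) * ((Zk k t * gg T Δ t : ℝ) : ℂ) := fun t => by
        rw [Finset.sum_range_succ, add_mul]
      simp only [e]
      rw [intervalIntegral.integral_add i1 i2]
      have e2 : ∫ t in (T / 2)..(3 * T / 2), (κ M * (c * V t) ^ M) * ((Zk k t * gg T Δ t : ℝ) : ℂ) =
          κ M * c ^ M * ∫ t in (T / 2)..(3 * T / 2), ((Zk k t * gg T Δ t : ℝ) : ℂ) * ww 1 M (cp t) := by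
        rw [← intervalIntegral.integral_const_mul]
        apply intervalIntegral.integral_congr
        intro t ht
        rw [uIcc_of_le (by linarith)] at ht
        simp only []
        have h5 := ww_V (N := M) hk (t := t) (by linarith [ht.1])
        push_cast
        linear_combination (-(κ M * c ^ M * (gg T Δ t : ℂ))) * h5
      rw [e2]
      refine (norm_add_le _ _).trans ?_
      rw [norm_mul, norm_mul, norm_pow, hc, one_pow, mul_one]
      have h6 : ‖κ M‖ * ‖∫ t in (T / 2)..(3 * T / 2), ((Zk k t * gg T Δ t : ℝ) : ℂ) * ww 1 M (cp t)‖ ≤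
          ‖κ M‖ * (C2 * (Δ + er k T)) := by
        refine mul_le_mul_of_nonneg_left (h4.trans ?_) (norm_nonneg _)
        apply mul_le_mul_of_nonneg_left _ hC2.le
        linarith
      linarith

/-- multipliers, real form -/
theorem core {k n : ℕ} (hk : 1 ≤ k) (hn1 : 1 ≤ n) (hn : k ≤ n + 1) {κ₀ : ℝ} {K : ℂ → ℝ} (hK : IsTP n κ₀ K) :
    ∃ B C T₀ : ℝ, 1 ≤ B ∧ 0 < C ∧ 300 ≤ T₀ ∧ ∀ T Δ : ℝ, Rg B T₀ T Δ → ∀ c : ℂ, ‖c‖ = 1 →
      |(∫ t in (T / 2)..(3 * T / 2), Zk k t * K (c * V t) * gg T Δ t) -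
        κ₀ * ∫ t in (T / 2)..(3 * T / 2), Zk k t * gg T Δ t| ≤ C * (Δ + er k T) := by
  obtain ⟨M, κ, hκ, hK⟩ := hK
  obtain ⟨B, C, T₀, hB, hC, hT, h⟩ := core_c hk hn1 hn κ hκ M
  refine ⟨B, C, T₀, hB, hC, hT, fun T Δ hr c hc => ?_⟩
  have h1 := h T Δ hr c hc
  have hcV : ∀ t, ‖c * V t‖ ≤ 1 := fun t => by
    rw [norm_mul, hc, one_mul]
    exact V_le t
  have hcont : Continuous fun t => Zk k t * gg T Δ t := (Zk_cont k).mul (gg_cont T Δ)
  have i1 := int_mul _ hcont (fun t => ∑ m ∈ Finset.range M, κ m * (c * V t) ^ m)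
    (Finset.measurable_fun_sum _ fun m _ => ((V_meas.const_mul c).pow_const m).const_mul (κ m))
    (C := ∑ m ∈ Finset.range M, ‖κ m‖) (fun t => by
      refine (norm_sum_le _ _).trans (Finset.sum_le_sum fun m _ => ?_)
      rw [norm_mul, norm_pow]
      calc ‖κ m‖ * ‖c * V t‖ ^ m ≤ ‖κ m‖ * 1 := by
            apply mul_le_mul_of_nonneg_left _ (norm_nonneg _)
            exact pow_le_one₀ (norm_nonneg _) (hcV t)
        _ = ‖κ m‖ := mul_one _) (T / 2) (3 * T / 2)
  have e : (∫ t in (T / 2)..(3 * T / 2), Zk k t * K (c * V t) * gg T Δ t) -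
        κ₀ * ∫ t in (T / 2)..(3 * T / 2), Zk k t * gg T Δ t =
      (∫ t in (T / 2)..(3 * T / 2), (∑ m ∈ Finset.range M, κ m * (c * V t) ^ m) *
        ((Zk k t * gg T Δ t : ℝ) : ℂ)).re := by
    have h2 := Complex.reCLM.intervalIntegral_comp_comm i1
    have h3 : ∀ t, (Complex.reCLM ((∑ m ∈ Finset.range M, κ m * (c * V t) ^ m) *
        ((Zk k t * gg T Δ t : ℝ) : ℂ)) : ℝ) = Zk k t * K (c * V t) * gg T Δ t - κ₀ * (Zk k t * gg T Δ t) := by
      intro t
      rw [Complex.reCLM_apply, Complex.re_mul_ofReal, hK]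
      ring
    have h4 : IntervalIntegrable (fun t => Zk k t * K (c * V t) * gg T Δ t - κ₀ * (Zk k t * gg T Δ t))
        volume (T / 2) (3 * T / 2) := by
      have h5 : IntervalIntegrable (fun t => (Complex.reCLM ((∑ m ∈ Finset.range M, κ m * (c * V t) ^ m) *
        ((Zk k t * gg T Δ t : ℝ) : ℂ)) : ℝ)) volume (T / 2) (3 * T / 2) := by
        constructor
        · exact Complex.reCLM.integrable_comp i1.1
        · exact Complex.reCLM.integrable_comp i1.2
      simpa only [h3] using h5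
    have h5 : IntervalIntegrable (fun t => κ₀ * (Zk k t * gg T Δ t)) volume (T / 2) (3 * T / 2) :=
      (hcont.intervalIntegrable _ _).const_mul κ₀
    have h6 : IntervalIntegrable (fun t => Zk k t * K (c * V t) * gg T Δ t) volume (T / 2) (3 * T / 2) := by
      have := h4.add h5
      simpa using this
    rw [Complex.reCLM_apply] at h2
    rw [← h2]
    simp only [h3]
    rw [intervalIntegral.integral_sub h6 h5, intervalIntegral.integral_const_mul]
  rw [e]
  exact (Complex.abs_re_le_norm _).trans h1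

end Pool.Agent.U922.NS
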