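import Pool.Agent.W188.QS.All

/-!
# A Tauberian lemma for two monotone functions which are comparable on blocks (helper922)
-/

set_option autoImplicit false

open Filter Topology Set

namespace Pool.Agent.U922.NS

/-- `T (log T)^m` -/
noncomputable def Nm (m : ℕ) (T : ℝ) : ℝ := T * Real.log T ^ m

/-- comparison on blocks -/
def Cmp (m : ℕ) (lam : ℝ) (F G : ℝ → ℝ) : Prop :=
  ∀ θ ε η : ℝ, 1 < θ → θ ≤ 2 → 0 < ε → ε ≤ 1 / 4 → 0 < η → ∀ᶠ T : ℝ in atTop,
    F (θ * T) - F T ≤ (lam + η) * (G ((θ + ε) * T) - G ((1 - ε) * T)) + η * Nm m T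

lemma Nm_ratio (m : ℕ) {s : ℝ} (hs : 0 < s) : Tendsto (fun T => Nm m (s * T) / Nm m T) atTop (𝓝 s) := by
  have h1 : Tendsto (fun T : ℝ => Real.log (s * T) / Real.log T) atTop (𝓝 1) := by
    have h2 : Tendsto (fun T : ℝ => Real.log s / Real.log T + 1) atTop (𝓝 (0 + 1)) :=
      (Real.tendsto_log_atTop.const_div_atTop _).add tendsto_const_nhds
    rw [zero_add] at h2
    refine h2.congr' ?_
    filter_upwards [eventually_gt_atTop 1] with T hT
    have hl := Real.log_pos hT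
    rw [Real.log_mul hs.ne' (by linarith), add_div, div_self hl.ne']
  have h3 := (h1.pow m).const_mul s
  rw [one_pow, mul_one] at h3
  refine h3.congr' ?_
  filter_upwards [eventually_gt_atTop 1] with T hT
  have hl := Real.log_pos hT
  unfold Nm
  rw [div_pow]
  field_simp

lemma Nm_pos (m : ℕ) {T : ℝ} (hT : 1 < T) : 0 < Nm m T := by
  have hl := Real.log_pos hT
  unfold Nm
  positivity

lemma scale {m : ℕ} {G : ℝ → ℝ} {b : ℝ} (h : Tendsto (fun T => G T / Nm m T) atTop (𝓝 b)) {s : ℝ} (hs : 0 < s) :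
    Tendsto (fun T => G (s * T) / Nm m T) atTop (𝓝 (s * b)) := by
  have h1 : Tendsto (fun T => G (s * T) / Nm m (s * T)) atTop (𝓝 b) :=
    h.comp (tendsto_id.const_mul_atTop hs)
  have h2 := (Nm_ratio m hs).mul h1
  refine h2.congr' ?_
  filter_upwards [eventually_gt_atTop 1, eventually_gt_atTop (1 / s)] with T hT hT2
  have h3 : 1 < s * T := by
    rw [div_lt_iff₀ hs] at hT2
    linarith
  have := Nm_pos m hT
  have := Nm_pos m h3
  field_simp

/-- upper bounds for blocks -/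
lemma taub_up {m : ℕ} {lam : ℝ} (hlam : 0 < lam) {F G : ℝ → ℝ} (h1 : Cmp m lam F G) {b : ℝ}
    (hb : Tendsto (fun T => G T / Nm m T) atTop (𝓝 b)) {θ δ : ℝ} (ht1 : 1 < θ) (ht2 : θ ≤ 2) (hδ : 0 < δ) :
    ∀ᶠ T : ℝ in atTop, F (θ * T) - F T ≤ (lam * ((θ - 1) * b) + δ) * Nm m T := by
  have hc : Continuous fun x : ℝ => (lam + x) * ((θ + x) * b - (1 - x) * b + x) + x := by fun_prop
  have h2 := hc.tendsto 0
  have e0 : (lam + 0) * ((θ + 0) * b - (1 - 0) * b + 0) + 0 = lam * ((θ - 1) * b) := by ring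
  rw [e0] at h2
  have h3 : ∀ᶠ x in 𝓝[>] (0 : ℝ), (lam + x) * ((θ + x) * b - (1 - x) * b + x) + x < lam * ((θ - 1) * b) + δ :=
    (tendsto_order.1 (h2.mono_left nhdsWithin_le_nhds)).2 _ (by linarith)
  have h4 : ∀ᶠ x in 𝓝[>] (0 : ℝ), x ∈ Ioo (0 : ℝ) (1 / 4) := Ioo_mem_nhdsGT (by norm_num)
  obtain ⟨x, hx1, hx2, hx3⟩ := (h3.and h4).exists
  have g1 := (scale hb (s := θ + x) (by linarith)).sub (scale hb (s := 1 - x) (by linarith))
  have g2 := (tendsto_order.1 g1).2 ((θ + x) * b - (1 - x) * b + x) (by linarith)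
  filter_upwards [g2, h1 θ x x ht1 ht2 hx2 hx3.le hx2, eventually_gt_atTop 1] with T k1 k2 k3
  have hN := Nm_pos m k3
  rw [← sub_div, div_lt_iff₀ hN] at k1
  calc F (θ * T) - F T ≤ (lam + x) * (G ((θ + x) * T) - G ((1 - x) * T)) + x * Nm m T := k2
    _ ≤ (lam + x) * (((θ + x) * b - (1 - x) * b + x) * Nm m T) + x * Nm m T := by
        have : 0 < lam + x := by linarith
        have := mul_le_mul_of_nonneg_left k1.le this.le
        linarith
    _ = ((lam + x) * ((θ + x) * b - (1 - x) * b + x) + x) * Nm m T := by ring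
    _ ≤ (lam * ((θ - 1) * b) + δ) * Nm m T := mul_le_mul_of_nonneg_right hx1.le hN.le

/-- lower bounds for blocks -/
lemma taub_low {m : ℕ} {lam : ℝ} (hlam : 0 < lam) {F G : ℝ → ℝ} (h1 : Cmp m lam F G) (h2 : Cmp m (1 / lam) G F)
    {b : ℝ} (hb0 : 0 ≤ b) (hb : Tendsto (fun T => G T / Nm m T) atTop (𝓝 b)) {δ : ℝ} (hδ : 0 < δ) :
    ∀ᶠ T : ℝ in atTop, (lam * b - δ) * Nm m T ≤ F (2 * T) - F T := by
  have hc : ContinuousAt (fun x : ℝ => (b - 2 * x) / (1 / lam + x) -
      3 * (lam * ((1 + x / 2 - 1) * b) + x) - 2 * (lam * ((1 / (1 - x) - 1) * b) + x)) 0 := by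
    have : (1 / lam + 0 : ℝ) ≠ 0 := by rw [add_zero]; positivity
    fun_prop (disch := norm_num <;> linarith [hlam])
  have e0 : (b - 2 * 0) / (1 / lam + 0) -
      3 * (lam * ((1 + 0 / 2 - 1) * b) + 0) - 2 * (lam * ((1 / (1 - 0) - 1) * b) + 0) = lam * b := by
    field_simp
    ring
  have h3 := hc.tendsto
  rw [e0] at h3
  have h4 : ∀ᶠ x in 𝓝[>] (0 : ℝ), lam * b - δ < (b - 2 * x) / (1 / lam + x) -
      3 * (lam * ((1 + x / 2 - 1) * b) + x) - 2 * (lam * ((1 / (1 - x) - 1) * b) + x) :=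
    (tendsto_order.1 (h3.mono_left nhdsWithin_le_nhds)).1 _ (by linarith)
  have h5 : ∀ᶠ x in 𝓝[>] (0 : ℝ), x ∈ Ioo (0 : ℝ) (1 / 4) := Ioo_mem_nhdsGT (by norm_num)
  obtain ⟨x, hx1, hx2, hx3⟩ := (h4.and h5).exists
  have g0 := (scale hb (s := 2) (by norm_num)).sub hb
  have g1 := (tendsto_order.1 g0).1 (b - x) (by linarith)
  -- the edges
  have p1 := taub_up hlam h1 hb (θ := 1 + x / 2) (δ := x) (by linarith) (by linarith) hx2
  have p2 := taub_up hlam h1 hb (θ := 1 / (1 - x)) (δ := x) (by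
    rw [lt_div_iff₀ (by linarith)]; linarith) (by
    rw [div_le_iff₀ (by linarith)]; linarith) hx2
  have q1 := (tendsto_id.const_mul_atTop (by norm_num : (0 : ℝ) < 2)).eventually p1
  have q2 := (tendsto_id.const_mul_atTop (by linarith : (0 : ℝ) < 1 - x)).eventually p2
  have r1 := (tendsto_order.1 (Nm_ratio m (by norm_num : (0 : ℝ) < 2))).2 3 (by norm_num)
  have r2 := (tendsto_order.1 (Nm_ratio m (by linarith : (0 : ℝ) < 1 - x))).2 2 (by linarith)
  filter_upwards [g1, h2 2 x x (by norm_num) le_rfl hx2 hx3.le hx2, q1, q2, r1, r2, eventually_gt_atTop 1]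
    with T k1 k2 k3 k4 k5 k6 k7
  have hN := Nm_pos m k7
  rw [← sub_div, lt_div_iff₀ hN] at k1
  rw [div_lt_iff₀ hN] at k5 k6
  simp only [id] at k3 k4
  have e1 : (1 + x / 2) * (2 * T) = (2 + x) * T := by ring
  have e2 : 1 / (1 - x) * ((1 - x) * T) = T := by
    have : 1 - x ≠ 0 := by linarith
    field_simp
  rw [e1] at k3
  rw [e2] at k4
  have hc1 : 0 ≤ lam * ((1 + x / 2 - 1) * b) + x := by
    have : (1 + x / 2 - 1) * b = x / 2 * b := by ring
    rw [this]
    positivity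
  have hc2 : 0 ≤ lam * ((1 / (1 - x) - 1) * b) + x := by
    have h6 : 1 / (1 - x) - 1 = x / (1 - x) := by
      have : 1 - x ≠ 0 := by linarith
      field_simp
      ring
    have h7 : 0 < 1 - x := by linarith
    rw [h6]
    positivity
  set c1 := lam * ((1 + x / 2 - 1) * b) + x with hc1d
  set c2 := lam * ((1 / (1 - x) - 1) * b) + x with hc2d
  set N := Nm m T with hNd
  have k3' : F ((2 + x) * T) - F (2 * T) ≤ c1 * (3 * N) := k3.trans (mul_le_mul_of_nonneg_left k5.le hc1)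
  have k4' : F T - F ((1 - x) * T) ≤ c2 * (2 * N) := k4.trans (mul_le_mul_of_nonneg_left k6.le hc2)
  have hl : 0 < 1 / lam + x := by positivity
  have k8 : (b - 2 * x) * N ≤ (1 / lam + x) * (c1 * (3 * N) + (F (2 * T) - F T) + c2 * (2 * N)) := by
    have h6 : (1 / lam + x) * (F ((2 + x) * T) - F ((1 - x) * T)) ≤
        (1 / lam + x) * (c1 * (3 * N) + (F (2 * T) - F T) + c2 * (2 * N)) := by
      apply mul_le_mul_of_nonneg_left _ hl.le
      linarith
    linarith
  have k9 : (b - 2 * x) / (1 / lam + x) * N ≤ c1 * (3 * N) + (F (2 * T) - F T) + c2 * (2 * N) := by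
    rw [div_mul_eq_mul_div, div_le_iff₀ hl]
    linarith
  have k10 := mul_le_mul_of_nonneg_right hx1.le hN.le
  nlinarith

/-- the Tauberian lemma -/
theorem taub {m : ℕ} {lam : ℝ} (hlam : 0 < lam) {F G : ℝ → ℝ} (hF : Monotone F) (hF0 : ∀ x, 0 ≤ F x)
    (hG : Monotone G) (h1 : Cmp m lam F G) (h2 : Cmp m (1 / lam) G F)
    {b : ℝ} (hb : Tendsto (fun T => G T / Nm m T) atTop (𝓝 b)) :
    Tendsto (fun T => F T / Nm m T) atTop (𝓝 (lam * b)) := by
  have hb0 : 0 ≤ b := by
    have g0 := (scale hb (s := 2) (by norm_num)).sub hb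
    have e : 2 * b - b = b := by ring
    rw [e] at g0
    refine ge_of_tendsto g0 ?_
    filter_upwards [eventually_gt_atTop 1] with T hT
    rw [← sub_div]
    apply div_nonneg _ (Nm_pos m hT).le
    have := hG (show T ≤ 2 * T by linarith)
    linarith
  -- blocks
  have h3 : Tendsto (fun T => (F (2 * T) - F T) / Nm m T) atTop (𝓝 (lam * b)) := by
    rw [tendsto_order]
    constructor
    · intro a ha
      filter_upwards [taub_low hlam h1 h2 hb0 hb (δ := (lam * b - a) / 2) (by linarith), eventually_gt_atTop 1]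
        with T k1 k2
      have hN := Nm_pos m k2
      rw [lt_div_iff₀ hN]
      refine lt_of_lt_of_le ?_ k1
      apply mul_lt_mul_of_pos_right _ hN
      linarith
    · intro a ha
      filter_upwards [taub_up hlam h1 hb (θ := 2) (δ := (a - lam * b) / 2) (by norm_num) le_rfl (by linarith),
        eventually_gt_atTop 1] with T k1 k2
      have hN := Nm_pos m k2
      rw [div_lt_iff₀ hN]
      refine lt_of_le_of_lt k1 ?_
      apply mul_lt_mul_of_pos_right _ hN
      have e : lam * ((2 - 1) * b) = lam * b := by ring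
      rw [e]
      linarith
  have h4 : Tendsto (fun T => (F T - F (T / 2)) / Nm m T) atTop (𝓝 (lam * b / 2)) := by
    have h5 := h3.comp (tendsto_id.atTop_div_const (by norm_num : (0 : ℝ) < 2))
    have h6 := Nm_ratio m (by norm_num : (0 : ℝ) < 1 / 2)
    have h7 := h5.mul h6
    have e : lam * b * (1 / 2) = lam * b / 2 := by ring
    rw [e] at h7
    refine h7.congr' ?_
    filter_upwards [eventually_gt_atTop 2] with T hT
    have k1 := Nm_pos m (show 1 < T by linarith)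
    have k2 := Nm_pos m (show 1 < T / 2 by linarith)
    simp only [Function.comp, id]
    have e1 : 2 * (T / 2) = T := by ring
    have e2 : 1 / 2 * T = T / 2 := by ring
    rw [e1, e2]
    field_simp
  have e : ∀ T : ℝ, Nm m T = T * Real.log T ^ (m : ℝ) := fun T => by
    rw [Real.rpow_natCast]; rfl
  simp only [e] at h4 ⊢
  exact Pool.Agent.W188.QS.a_dyad (lam * b) m (Nat.cast_nonneg m) F hF hF0 h4

end Pool.Agent.U922.NS
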