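import Pool.Agent.U922.NS.Sector
import Pool.Agent.U922.NS.Taub
import Pool.Agent.U922.OL.Few

/-!
# Moments of zeta over double sectors (helper922)
-/

set_option autoImplicit false

open Complex MeasureTheory Set Filter Topology

namespace Pool.Agent.U922.NS

open Pool.Agent.W188.QS Pool.Agent.U922.OL

/-! ### kernels for sectors -/

lemma kup {N : ℕ} (hN : 1 ≤ N) {α : ℝ} (h0 : 0 < α) (h1 : α < Real.pi / (2 * N)) {η : ℝ} (hη : 0 < η) :
    ∃ (κ₀ : ℝ) (K : ℂ → ℝ), 0 ≤ κ₀ ∧ κ₀ ≤ 2 * N * α / Real.pi + η ∧ IsTP N κ₀ K ∧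
      ∀ v, ‖v‖ = 1 → fA N α v ≤ K v := by
  have hN0 : (1 : ℝ) ≤ N := by exact_mod_cast hN
  have hpi := Real.pi_pos
  have h2 : Real.pi / (2 * N) ≤ Real.pi / 2 := by
    apply div_le_div_of_nonneg_left hpi.le (by norm_num)
    linarith
  have hs : Real.sin α < 1 := by
    rw [← Real.sin_pi_div_two]
    exact Real.sin_lt_sin_of_lt_of_le_pi_div_two (by linarith) le_rfl (by linarith)
  have hs0 : 0 ≤ Real.sin α := Real.sin_nonneg_of_nonneg_of_le_pi h0.le (by linarith)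
  have ha : Real.arcsin (Real.sin α) = α := Real.arcsin_sin (by linarith) (by linarith)
  obtain ⟨κ, K, k1, k2, k3, k4⟩ := ker_up hN hs0 hs hη
  refine ⟨κ, K, k1, ?_, k3.isTP, fun v hv => ?_⟩
  · rw [ha] at k2
    refine k2.trans (le_of_eq ?_)
    field_simp
  · obtain ⟨m1, m2⟩ := k4 v hv
    unfold fA indicator
    split_ifs with h
    · exact m2 h
    · exact m1

lemma klow {N : ℕ} (hN : 1 ≤ N) {α : ℝ} (h0 : 0 < α) (h1 : α < Real.pi / (2 * N)) {η : ℝ} (hη : 0 < η) :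
    ∃ (κ₀ : ℝ) (K : ℂ → ℝ), 2 * N * α / Real.pi - η ≤ κ₀ ∧ IsTP N κ₀ K ∧
      ∀ v, ‖v‖ = 1 → K v ≤ fA N α v := by
  have hN0 : (1 : ℝ) ≤ N := by exact_mod_cast hN
  have hpi := Real.pi_pos
  have h2 : Real.pi / (2 * N) ≤ Real.pi / 2 := by
    apply div_le_div_of_nonneg_left hpi.le (by norm_num)
    linarith
  have hs : Real.sin (Real.pi / (2 * N) - α) < 1 := by
    rw [← Real.sin_pi_div_two]
    exact Real.sin_lt_sin_of_lt_of_le_pi_div_two (by linarith) le_rfl (by linarith)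
  have hs0 : 0 ≤ Real.sin (Real.pi / (2 * N) - α) := Real.sin_nonneg_of_nonneg_of_le_pi (by linarith) (by linarith)
  have ha : Real.arcsin (Real.sin (Real.pi / (2 * N) - α)) = Real.pi / (2 * N) - α :=
    Real.arcsin_sin (by linarith) (by linarith)
  obtain ⟨κ, K, k1, k2, k3, k4⟩ := ker_up hN hs0 hs hη
  set ρ : ℂ := Complex.exp (-(Real.pi / N : ℝ) * I) with hρ
  have hρn : ‖ρ‖ = 1 := by
    have : ρ = Complex.exp (((-(Real.pi / N) : ℝ) : ℂ) * I) := by
      rw [hρ]; push_cast; rfl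
    rw [this, Complex.norm_exp_ofReal_mul_I]
  have t1 : TP N (1 + (-1) * κ) (fun v => 1 + (-1) * K (v * ρ)) := (TP.const 1).add ((k3.rot ρ).mul (-1))
  refine ⟨1 + (-1) * κ, fun v => 1 + (-1) * K (v * ρ), ?_, t1.isTP, fun v hv => ?_⟩
  · rw [ha] at k2
    have e : N * (2 / Real.pi * (Real.pi / (2 * N) - α)) = 1 - 2 * N * α / Real.pi := by
      field_simp
    linarith
  · obtain ⟨m1, m2⟩ := k4 (v * ρ) (by rw [norm_mul, hv, hρn, one_mul])
    unfold fA indicator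
    simp only []
    split_ifs with h
    · rw [Pi.one_apply]
      linarith
    · have := m2 (gaps hN h0 h1 hv h)
      linarith

/-! ### the integrals -/

/-- `∫_0^T |ζ|^(2k) g` -/
noncomputable def HH (k : ℕ) (g : ℝ → ℝ) (T : ℝ) : ℝ := ∫ t in Ioc (0 : ℝ) T, Zk k t * g t

variable {k N : ℕ}

lemma HH_int (g : ℝ → ℝ) {T : ℝ} (hT : 0 ≤ T) : HH k g T = ∫ t in (0 : ℝ)..T, Zk k t * g t :=
  (intervalIntegral.integral_of_le hT).symm

lemma HH_block {g : ℝ → ℝ} (hg : Measurable g) {M : ℝ} (hM : ∀ t, |g t| ≤ M) {a b : ℝ} (ha : 0 ≤ a) (hb : 0 ≤ b) :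
    HH k g b - HH k g a = ∫ t in a..b, Zk k t * g t := by
  rw [HH_int g ha, HH_int g hb, ← intervalIntegral.integral_add_adjacent_intervals (hint hg hM 0 a) (hint hg hM a b)]
  ring

lemma HH_nonneg {g : ℝ → ℝ} (h0 : ∀ t, 0 ≤ g t) (T : ℝ) : 0 ≤ HH k g T :=
  setIntegral_nonneg measurableSet_Ioc fun t _ => mul_nonneg (Zk_nonneg k t) (h0 t)

lemma HH_mono {g : ℝ → ℝ} (hg : Measurable g) {M : ℝ} (hM : ∀ t, |g t| ≤ M) (h0 : ∀ t, 0 ≤ g t) :
    Monotone (HH k g) := by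
  intro a b hab
  unfold HH
  apply setIntegral_mono_set
  · by_cases hb : 0 ≤ b
    · exact (hint hg hM 0 b).1
    · rw [Ioc_eq_empty (by linarith)]
      exact integrableOn_empty
  · exact Eventually.of_forall fun t => mul_nonneg (Zk_nonneg k t) (h0 t)
  · exact (Ioc_subset_Ioc_right hab).eventuallyLE

/-- the function for the sectors -/
noncomputable def gA (u : ℂ) (N : ℕ) (α t : ℝ) : ℝ := fA N α (cc u 1 * V t)

lemma gA_meas (u : ℂ) (N : ℕ) (α : ℝ) : Measurable (gA u N α) := fV_meas (fA_meas N α) _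

lemma gA_nonneg (u : ℂ) (N : ℕ) (α t : ℝ) : 0 ≤ gA u N α t := fA_nonneg _ _ _

lemma gA_bd (u : ℂ) (N : ℕ) (α t : ℝ) : |gA u N α t| ≤ 1 := by
  rw [abs_of_nonneg (gA_nonneg _ _ _ _)]; exact fA_le _ _ _

lemma one_bd (t : ℝ) : |(fun _ : ℝ => (1 : ℝ)) t| ≤ 1 := by norm_num

lemma cmp1 (hk : 1 ≤ k) (hN : 1 ≤ N) (hkN : k ≤ N + 1) {α : ℝ} (h0 : 0 < α) (h1 : α < Real.pi / (2 * N))
    {u : ℂ} (hu : u ≠ 0) : Cmp (k ^ 2) (2 * N * α / Real.pi) (HH k (gA u N α)) (HH k fun _ => 1) := by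
  intro θ ε η ht1 ht2 he0 he1 hη
  obtain ⟨κ, K, k1, k2, k3, k4⟩ := kup hN h0 h1 hη
  filter_upwards [sand_up hk hN hkN k3 k1 (fA_meas N α) (fA_nonneg N α) (fA_le N α) k4 he0 he1 ht1.le ht2 hη,
    eventually_gt_atTop 0] with T h2 hT0
  have h3 := h2 (cc u 1) (cc_norm hu 1)
  have e1 : 0 ≤ (1 - ε) * T := mul_nonneg (by linarith) hT0.le
  have e2 : 0 ≤ (θ + ε) * T := mul_nonneg (by linarith) hT0.le
  have e3 : 0 ≤ θ * T := mul_nonneg (by linarith) hT0.le
  rw [HH_block (gA_meas u N α) (gA_bd u N α) hT0.le e3, HH_block measurable_const one_bd e1 e2]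
  simp only [mul_one]
  have hQ : 0 ≤ ∫ t in ((1 - ε) * T)..((θ + ε) * T), Zk k t :=
    intervalIntegral.integral_nonneg (mul_le_mul_of_nonneg_right (by linarith) hT0.le) fun t _ => Zk_nonneg k t
  calc _ ≤ κ * (∫ t in ((1 - ε) * T)..((θ + ε) * T), Zk k t) + η * LL k T := h3
    _ ≤ _ := by
      have := mul_le_mul_of_nonneg_right k2 hQ
      have e : LL k T = Nm (k ^ 2) T := rfl
      rw [e]
      linarith

lemma cmp2 (hk : 1 ≤ k) (hN : 1 ≤ N) (hkN : k ≤ N + 1) {α : ℝ} (h0 : 0 < α) (h1 : α < Real.pi / (2 * N))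
    {u : ℂ} (hu : u ≠ 0) : Cmp (k ^ 2) (1 / (2 * N * α / Real.pi)) (HH k fun _ => 1) (HH k (gA u N α)) := by
  intro θ ε η ht1 ht2 he0 he1 hη
  have hN0 : (1 : ℝ) ≤ N := by exact_mod_cast hN
  have hpi := Real.pi_pos
  set lam : ℝ := 2 * N * α / Real.pi with hlam
  have hl0 : 0 < lam := by positivity
  obtain ⟨κ, K, k2, k3, k4⟩ := klow hN h0 h1 (η := min (lam / 2) (lam ^ 2 * η / 2)) (by positivity)
  rw [← hlam] at k2
  have k5 : lam / 2 ≤ κ := by
    have := min_le_left (lam / 2) (lam ^ 2 * η / 2)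
    linarith
  have k6 : lam - lam ^ 2 * η / 2 ≤ κ := by
    have := min_le_right (lam / 2) (lam ^ 2 * η / 2)
    linarith
  have hκ : 0 < κ := by linarith
  filter_upwards [sand_low hk hN hkN k3 hκ.le (fA_meas N α) (fA_nonneg N α) (fA_le N α) k4 he0 he1 ht1.le ht2
    (η := η * lam / 2) (by positivity), eventually_gt_atTop 1] with T h2 hT1
  have hT0 : 0 < T := by linarith
  have h3 := h2 (cc u 1) (cc_norm hu 1)
  have e1 : 0 ≤ (1 - ε) * T := mul_nonneg (by linarith) hT0.le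
  have e2 : 0 ≤ (θ + ε) * T := mul_nonneg (by linarith) hT0.le
  have e3 : 0 ≤ θ * T := mul_nonneg (by linarith) hT0.le
  rw [HH_block (gA_meas u N α) (gA_bd u N α) e1 e2, HH_block measurable_const one_bd hT0.le e3]
  simp only [mul_one]
  set J := ∫ t in T..(θ * T), Zk k t with hJ
  set X := ∫ t in ((1 - ε) * T)..((θ + ε) * T), Zk k t * fA N α (cc u 1 * V t) with hX
  have e4 : ∫ t in ((1 - ε) * T)..((θ + ε) * T), Zk k t * gA u N α t = X := rfl
  rw [e4]
  have hX0 : 0 ≤ X := intervalIntegral.integral_nonneg (mul_le_mul_of_nonneg_right (by linarith) hT0.le)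
    fun t _ => mul_nonneg (Zk_nonneg k t) (fA_nonneg _ _ _)
  have hNm : 0 < Nm (k ^ 2) T := Nm_pos _ hT1
  have e5 : LL k T = Nm (k ^ 2) T := rfl
  rw [e5] at h3
  have h4 : J ≤ 1 / κ * X + η * lam / 2 / κ * Nm (k ^ 2) T := by
    have : κ * J / κ = J := by field_simp
    rw [← this]
    calc κ * J / κ ≤ (X + η * lam / 2 * Nm (k ^ 2) T) / κ := by gcongr
      _ = _ := by field_simp
  have h5 : 1 / κ ≤ 1 / lam + η := by
    rw [div_le_iff₀ hκ]
    have h6 : (1 / lam + η) * κ = κ / lam + η * κ := by ring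
    rw [h6]
    have h7 : 1 - lam * η / 2 ≤ κ / lam := by
      rw [le_div_iff₀ hl0]
      calc (1 - lam * η / 2) * lam = lam - lam ^ 2 * η / 2 := by ring
        _ ≤ κ := k6
    have h8 : η * (lam / 2) ≤ η * κ := mul_le_mul_of_nonneg_left k5 hη.le
    linarith
  have h6 : η * lam / 2 / κ ≤ η := by
    rw [div_le_iff₀ hκ]
    have := mul_le_mul_of_nonneg_left k5 hη.le
    linarith
  calc J ≤ 1 / κ * X + η * lam / 2 / κ * Nm (k ^ 2) T := h4
    _ ≤ (1 / lam + η) * X + η * Nm (k ^ 2) T := by gcongr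

/-- the asymptotic formulas -/
theorem equivS (hk : 1 ≤ k) (hN : 1 ≤ N) (hkN : k ≤ N + 1) {α : ℝ} (h0 : 0 < α) (h1 : α < Real.pi / (2 * N))
    {u : ℂ} (hu : u ≠ 0) (a : ℝ) :
    Tendsto (fun T => HH k (fun _ => 1) T / Nm (k ^ 2) T) atTop (𝓝 a) ↔
      Tendsto (fun T => HH k (gA u N α) T / Nm (k ^ 2) T) atTop (𝓝 (2 * N * α / Real.pi * a)) := by
  have hN0 : (1 : ℝ) ≤ N := by exact_mod_cast hN
  have hpi := Real.pi_pos
  have c1 := cmp1 hk hN hkN h0 h1 hu
  have c2 := cmp2 hk hN hkN h0 h1 hu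
  set lam : ℝ := 2 * N * α / Real.pi with hlam
  have hl0 : 0 < lam := by positivity
  have m1 : Monotone (HH k fun _ => 1) := HH_mono measurable_const one_bd fun _ => zero_le_one
  have m2 : Monotone (HH k (gA u N α)) := HH_mono (gA_meas u N α) (gA_bd u N α) (gA_nonneg u N α)
  constructor
  · intro h
    exact taub hl0 m2 (HH_nonneg (gA_nonneg u N α)) m1 c1 c2 h
  · intro h
    have h2 := taub (by positivity : 0 < 1 / lam) m1 (HH_nonneg fun _ => zero_le_one) m2 c2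
      (by rw [one_div_one_div]; exact c1) h
    have e : 1 / lam * (lam * a) = a := by field_simp
    rw [e] at h2
    exact h2

/-- the shares of the sectors -/
theorem shares (hk : 1 ≤ k) (hN : 1 ≤ N) (hkN : k ≤ N + 1) {α ε : ℝ} (h0 : 0 < α) (h1 : α < Real.pi / (2 * N))
    (he0 : 0 < ε) (he1 : ε ≤ 1 / 4) : ∀ᶠ T : ℝ in atTop, ∀ u : ℂ, u ≠ 0 →
      (∫ t in T..(2 * T), Zk k t * gA u N α t ≤
        (2 * N * α / Real.pi + ε) * ∫ t in ((1 - ε) * T)..((2 + ε) * T), Zk k t) ∧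
      (2 * N * α / Real.pi - ε) * (∫ t in T..(2 * T), Zk k t) ≤
        ∫ t in ((1 - ε) * T)..((2 + ε) * T), Zk k t * gA u N α t := by
  have hN0 : (1 : ℝ) ≤ N := by exact_mod_cast hN
  have hpi := Real.pi_pos
  set lam : ℝ := 2 * N * α / Real.pi with hlam
  have hl0 : 0 < lam := by positivity
  obtain ⟨κ, K, k1, k2, k3, k4⟩ := kup hN h0 h1 (η := ε / 2) (by positivity)
  obtain ⟨κ', K', l2, l3, l4⟩ := klow hN h0 h1 (η := min (ε / 2) lam) (by positivity)
  rw [← hlam] at k2 l2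
  have l1 : 0 ≤ κ' := by
    have := min_le_right (ε / 2) lam
    linarith
  have l2' : lam - ε / 2 ≤ κ' := by
    have := min_le_left (ε / 2) lam
    linarith
  obtain ⟨c₀, hc₀, hlow⟩ := low' hk
  filter_upwards [sand_up hk hN hkN k3 k1 (fA_meas N α) (fA_nonneg N α) (fA_le N α) k4 he0 he1
    one_le_two le_rfl (η := ε / 2 * c₀) (by positivity),
    sand_low hk hN hkN l3 l1 (fA_meas N α) (fA_nonneg N α) (fA_le N α) l4 he0 he1
    one_le_two le_rfl (η := ε / 2 * c₀) (by positivity), hlow, eventually_gt_atTop 1] with T h2 h3 h4 hT1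
  intro u hu
  have hT0 : 0 < T := by linarith
  have h5 := h2 (cc u 1) (cc_norm hu 1)
  have h6 := h3 (cc u 1) (cc_norm hu 1)
  have hJQ : ∫ t in T..(2 * T), Zk k t ≤ ∫ t in ((1 - ε) * T)..((2 + ε) * T), Zk k t := by
    apply intervalIntegral.integral_mono_interval (by nlinarith) (by linarith) (by nlinarith)
    · exact Eventually.of_forall fun t => Zk_nonneg k t
    · exact (Zk_cont k).intervalIntegrable _ _
  have hJ0 : 0 ≤ ∫ t in T..(2 * T), Zk k t :=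
    intervalIntegral.integral_nonneg (by linarith) fun t _ => Zk_nonneg k t
  change ∫ t in T..(2 * T), Zk k t * gA u N α t ≤ κ * _ + _ at h5
  change κ' * _ ≤ (∫ t in ((1 - ε) * T)..((2 + ε) * T), Zk k t * gA u N α t) + _ at h6
  set J := ∫ t in T..(2 * T), Zk k t
  set Q := ∫ t in ((1 - ε) * T)..((2 + ε) * T), Zk k t
  have h7 : ε / 2 * (c₀ * LL k T) ≤ ε / 2 * J := mul_le_mul_of_nonneg_left h4 (by positivity)
  constructor
  · have h8 : κ * Q ≤ (lam + ε / 2) * Q := mul_le_mul_of_nonneg_right k2 (hJ0.trans hJQ)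
    nlinarith
  · have h8 : (lam - ε / 2) * J ≤ κ' * J := mul_le_mul_of_nonneg_right l2' hJ0
    nlinarith

/-- a positive share for every double sector, all `k` -/
theorem positive (hk : 1 ≤ k) {α : ℝ} (h0 : 0 < α) (h1 : α < Real.pi / 2) : ∃ c : ℝ, 0 < c ∧
    ∀ ε : ℝ, 0 < ε → ε ≤ 1 / 4 → ∀ᶠ T : ℝ in atTop, ∀ u : ℂ, u ≠ 0 →
      c * (∫ t in T..(2 * T), Zk k t) ≤ ∫ t in ((1 - ε) * T)..((2 + ε) * T), Zk k t * gA u 1 α t := by
  have hpi := Real.pi_pos
  have hs : 0 < Real.sin α := Real.sin_pos_of_pos_of_lt_pi h0 (by linarith)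
  have hs1 : Real.sin α ≤ 1 := Real.sin_le_one α
  obtain ⟨κ, K, k1, k2, k3⟩ := ker_low k (d := 2 * Real.sin α) (by linarith) (by linarith)
  obtain ⟨c₀, hc₀, hlow⟩ := low' hk
  refine ⟨κ / 2, by positivity, fun ε he0 he1 => ?_⟩
  have hKf : ∀ v, ‖v‖ = 1 → K v ≤ fA 1 α v := by
    intro v hv
    unfold fA indicator
    split_ifs with h
    · exact (k3 v hv).1
    · apply (k3 v hv).2
      by_contra hcon
      apply h
      refine ⟨0, by simp, ?_⟩
      rw [pow_zero, mul_one]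
      exact (not_le.1 hcon).le
  filter_upwards [sand_low hk (by omega : 1 ≤ k + 1) (by omega) k2.isTP k1.le (fA_meas 1 α) (fA_nonneg 1 α)
    (fA_le 1 α) hKf he0 he1 one_le_two le_rfl (η := κ / 2 * c₀) (by positivity), hlow] with T h3 h4
  intro u hu
  have h6 := h3 (cc u 1) (cc_norm hu 1)
  change κ * _ ≤ (∫ t in ((1 - ε) * T)..((2 + ε) * T), Zk k t * gA u 1 α t) + _ at h6
  set J := ∫ t in T..(2 * T), Zk k t
  have h7 : κ / 2 * (c₀ * LL k T) ≤ κ / 2 * J := mul_le_mul_of_nonneg_left h4 (by positivity)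
  nlinarith

/-- dyadic summation -/
lemma dyad_up {m : ℕ} {F : ℝ → ℝ} (hF : Monotone F) {C T₀ : ℝ} (hT₀ : 1 ≤ T₀) (hC : 0 ≤ C)
    (h : ∀ T, T₀ ≤ T → F (2 * T) - F T ≤ C * Nm m T) (n : ℕ) :
    ∀ T, T₀ ≤ T → T ≤ 2 ^ n * (2 * T₀) → F T ≤ F (2 * T₀) + C * Nm m T := by
  have hNm : ∀ T, 1 ≤ T → 0 ≤ Nm m T := fun T hT => by
    have := Real.log_nonneg hT
    unfold Nm
    positivity
  induction n with
  | zero =>
    intro T h1 h2
    have h3 := hF (by simpa using h2 : T ≤ 2 * T₀)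
    have h4 := hNm T (hT₀.trans h1)
    have : 0 ≤ C * Nm m T := by positivity
    linarith
  | succ n ih =>
    intro T h1 h2
    rcases le_total T (2 * T₀) with h3 | h3
    · have h4 := hF h3
      have h5 := hNm T (hT₀.trans h1)
      have : 0 ≤ C * Nm m T := by positivity
      linarith
    · have h4 := ih (T / 2) (by linarith) (by rw [pow_succ] at h2; linarith)
      have h5 := h (T / 2) (by linarith)
      have e : 2 * (T / 2) = T := by ring
      rw [e] at h5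
      have h6 : Nm m (T / 2) ≤ Nm m T / 2 := by
        unfold Nm
        have h7 : Real.log (T / 2) ≤ Real.log T := Real.log_le_log (by linarith) (by linarith)
        have h8 : 0 ≤ Real.log (T / 2) := Real.log_nonneg (by linarith)
        have h9 : Real.log (T / 2) ^ m ≤ Real.log T ^ m := pow_le_pow_left₀ h8 h7 m
        have h10 : 0 ≤ T / 2 := by linarith
        calc T / 2 * Real.log (T / 2) ^ m ≤ T / 2 * Real.log T ^ m := mul_le_mul_of_nonneg_left h9 h10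
          _ = _ := by ring
      have h7 := mul_le_mul_of_nonneg_left h6 hC
      linarith

/-- upper bounds of the expected order -/
theorem upperS (hk : 1 ≤ k) {α : ℝ} (h0 : 0 < α) (h1 : α < Real.pi / 2) {u : ℂ} (hu : u ≠ 0)
    (h : ∃ C : ℝ, ∀ᶠ T : ℝ in atTop, HH k (gA u 1 α) T ≤ C * Nm (k ^ 2) T) :
    ∃ C : ℝ, ∀ᶠ T : ℝ in atTop, HH k (fun _ => 1) T ≤ C * Nm (k ^ 2) T := by
  obtain ⟨C, hC⟩ := h
  obtain ⟨c, hc, hpos⟩ := positive hk h0 h1
  have h3 := (tendsto_id.const_mul_atTop (by norm_num : (0 : ℝ) < 3)).eventually hC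
  have r1 := (tendsto_order.1 (Nm_ratio (k ^ 2) (by norm_num : (0 : ℝ) < 3))).2 4 (by norm_num)
  have hev : ∀ᶠ T : ℝ in atTop, HH k (fun _ => 1) (2 * T) - HH k (fun _ => 1) T ≤ |C| * 4 / c * Nm (k ^ 2) T := by
    filter_upwards [h3, r1, hpos (1 / 4) (by norm_num) le_rfl, eventually_gt_atTop 1] with T h4 h5 h6 h7
    have hN := Nm_pos (k ^ 2) h7
    have h8 := h6 u hu
    rw [div_lt_iff₀ hN] at h5
    rw [HH_block measurable_const one_bd (by linarith) (by linarith)]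
    simp only [mul_one, id] at h4 ⊢
    have h9 : ∫ t in ((1 - 1 / 4) * T)..((2 + 1 / 4) * T), Zk k t * gA u 1 α t ≤ HH k (gA u 1 α) (3 * T) := by
      rw [← HH_block (gA_meas u 1 α) (gA_bd u 1 α) (by linarith) (by linarith)]
      have a1 := HH_nonneg (k := k) (gA_nonneg u 1 α) ((1 - 1 / 4) * T)
      have a2 := HH_mono (k := k) (gA_meas u 1 α) (gA_bd u 1 α) (gA_nonneg u 1 α)
        (show (2 + 1 / 4) * T ≤ 3 * T by linarith)
      linarith
    have h10 : C * Nm (k ^ 2) (3 * T) ≤ |C| * (4 * Nm (k ^ 2) T) := by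
      have a1 : 0 < Nm (k ^ 2) (3 * T) := Nm_pos _ (by linarith)
      calc C * Nm (k ^ 2) (3 * T) ≤ |C| * Nm (k ^ 2) (3 * T) :=
            mul_le_mul_of_nonneg_right (le_abs_self C) a1.le
        _ ≤ |C| * (4 * Nm (k ^ 2) T) := mul_le_mul_of_nonneg_left h5.le (abs_nonneg C)
    have h11 : c * ∫ t in T..(2 * T), Zk k t ≤ |C| * (4 * Nm (k ^ 2) T) :=
      h8.trans (h9.trans (h4.trans h10))
    have e : |C| * 4 / c * Nm (k ^ 2) T = |C| * (4 * Nm (k ^ 2) T) / c := by ring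
    rw [e, le_div_iff₀ hc]
    linarith
  obtain ⟨T₀, hT₀⟩ := eventually_atTop.1 (hev.and (eventually_ge_atTop 1))
  have hd := dyad_up (m := k ^ 2) (F := HH k fun _ => 1) (C := |C| * 4 / c) (T₀ := T₀)
    (HH_mono measurable_const one_bd fun _ => zero_le_one) (hT₀ T₀ le_rfl).2 (by positivity)
    (fun T hT => (hT₀ T hT).1)
  refine ⟨|C| * 4 / c + 1, ?_⟩
  have hN2 : ∀ᶠ T : ℝ in atTop, HH k (fun _ => 1) (2 * T₀) ≤ Nm (k ^ 2) T := by
    filter_upwards [ev_LL hk (HH k (fun _ => 1) (2 * T₀))] with T hT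
    exact hT
  have hT₀1 := (hT₀ T₀ le_rfl).2
  filter_upwards [eventually_ge_atTop T₀, hN2] with T h4 h5
  obtain ⟨n, hn⟩ := pow_unbounded_of_one_lt T one_lt_two
  have h6 := hd n T h4 (by
    have : (0 : ℝ) < 2 ^ n := by positivity
    nlinarith)
  linarith

end Pool.Agent.U922.NS
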