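import Pool.Agent.U922.NS.Core
import Pool.Agent.W928.QS.Fub
import Pool.Agent.W864.QS.PCm
import Pool.Agent.W571.QS.Meas

/-!
# Gaussian averages of densities (helper922)
-/

set_option autoImplicit false

open Complex MeasureTheory Set Filter Topology

namespace Pool.Agent.U922.NS

open Pool.Agent.W188.QS Pool.Agent.U922.OL

/-- density measure -/
noncomputable def md (h : ℝ → ℝ) : Measure ℝ :=
  (volume.restrict (Ioi 100)).withDensity (fun t => ENNReal.ofReal (h t))

lemma md_int {h : ℝ → ℝ} (hm : Measurable h) (h0 : ∀ t, 0 ≤ h t) (g : ℝ → ℝ) {S : Set ℝ}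
    (hS : MeasurableSet S) (hS' : S ⊆ Ioi 100) :
    ∫ t in S, g t ∂(md h) = ∫ t in S, h t * g t := by
  unfold md
  rw [restrict_withDensity hS, Measure.restrict_restrict hS, Set.inter_eq_left.2 hS',
    integral_withDensity_eq_integral_toReal_smul]
  · refine integral_congr_ae (Filter.Eventually.of_forall (fun t => ?_))
    change (ENNReal.ofReal (h t)).toReal • g t = h t * g t
    rw [ENNReal.toReal_ofReal (h0 t), smul_eq_mul]
  · exact hm.ennreal_ofReal
  · exact Filter.Eventually.of_forall (fun t => ENNReal.ofReal_lt_top)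

lemma md_int' {h : ℝ → ℝ} (hm : Measurable h) (h0 : ∀ t, 0 ≤ h t) (g : ℝ → ℝ) :
    ∫ t, g t ∂(md h) = ∫ t in Ioi 100, h t * g t := by
  unfold md
  rw [integral_withDensity_eq_integral_toReal_smul]
  · refine integral_congr_ae (Filter.Eventually.of_forall (fun t => ?_))
    change (ENNReal.ofReal (h t)).toReal • g t = h t * g t
    rw [ENNReal.toReal_ofReal (h0 t), smul_eq_mul]
  · exact hm.ennreal_ofReal
  · exact Filter.Eventually.of_forall (fun t => ENNReal.ofReal_lt_top)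

lemma md_Iic {h : ℝ → ℝ} (hi : ∀ x : ℝ, IntegrableOn h (Ioc 100 x)) (x : ℝ) :
    md h (Iic x) < ⊤ := by
  unfold md
  rw [withDensity_apply _ measurableSet_Iic, Measure.restrict_restrict measurableSet_Iic]
  have h1 : Iic x ∩ Ioi (100 : ℝ) = Ioc 100 x := by
    ext t
    simp only [Set.mem_inter_iff, Set.mem_Iic, Set.mem_Ioi, Set.mem_Ioc]
    exact and_comm
  rw [h1]
  exact Integrable.lintegral_lt_top (hi x)

lemma hint {k : ℕ} {g : ℝ → ℝ} (hg : Measurable g) {M : ℝ} (hM : ∀ t, |g t| ≤ M) (a b : ℝ) :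
    IntervalIntegrable (fun t => Zk k t * g t) volume a b := by
  have h1 : (fun t => Zk k t * g t) = fun t => g t * Zk k t := by funext t; ring
  rw [h1]
  constructor
  · exact ((Zk_cont k).intervalIntegrable a b).1.bdd_mul hg.aestronglyMeasurable
      (Eventually.of_forall hM)
  · exact ((Zk_cont k).intervalIntegrable a b).2.bdd_mul hg.aestronglyMeasurable
      (Eventually.of_forall hM)

lemma hintg {k : ℕ} {g : ℝ → ℝ} (hg : Measurable g) {M : ℝ} (hM : ∀ t, |g t| ≤ M) (τ Δ a b : ℝ) :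
    IntervalIntegrable (fun t => Zk k t * g t * gg τ Δ t) volume a b := by
  have h1 : (fun t => Zk k t * g t * gg τ Δ t) = fun t => g t * (Zk k t * gg τ Δ t) := by funext t; ring
  have h2 : Continuous fun t => Zk k t * gg τ Δ t := (Zk_cont k).mul (gg_cont τ Δ)
  rw [h1]
  constructor
  · exact (h2.intervalIntegrable a b).1.bdd_mul hg.aestronglyMeasurable
      (Eventually.of_forall hM)
  · exact (h2.intervalIntegrable a b).2.bdd_mul hg.aestronglyMeasurable
      (Eventually.of_forall hM)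

lemma PC_ae {u v Δ : ℝ} (hu : 0 < u) (huv : u ≤ v) (hΔ : 0 < Δ) {a b : ℝ} (ha : 0 ≤ a) :
    AEStronglyMeasurable (fun t => PC u v Δ t) (volume.restrict (Ioc a b)) := by
  have h1 := (Pool.Agent.W928.QS.qs_fub (volume.restrict (Ioi 0)) (fun x => by
    rw [Measure.restrict_apply measurableSet_Iic]
    have : Iic x ∩ Ioi (0 : ℝ) = Ioc 0 x := by
      ext t
      simp only [Set.mem_inter_iff, Set.mem_Iic, Set.mem_Ioi, Set.mem_Ioc]
      exact and_comm
    rw [this]
    exact measure_Ioc_lt_top) u v Δ hu huv hΔ).1.aestronglyMeasurable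
  exact h1.mono_measure (Measure.restrict_mono (fun x hx => lt_of_le_of_lt ha hx.1) le_rfl)

lemma PC_bd {u v Δ : ℝ} (hu : 0 < u) (huv : u ≤ v) (hv : v ≤ 3 * u) (hΔ : 0 < Δ) (t : ℝ) :
    0 ≤ PC u v Δ t ∧ PC u v Δ t ≤ 1 := by
  have h := Pool.Agent.W864.QS.qs_pc u v Δ 0 t hu huv hv hΔ le_rfl (by linarith)
  exact ⟨h.1, h.2.1⟩

lemma hintP {k : ℕ} {g : ℝ → ℝ} (hg : Measurable g) {M : ℝ} (hM : ∀ t, |g t| ≤ M)
    {u v Δ : ℝ} (hu : 0 < u) (huv : u ≤ v) (hv : v ≤ 3 * u) (hΔ : 0 < Δ) {a b : ℝ} (ha : 0 ≤ a) (hb : 0 ≤ b) :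
    IntervalIntegrable (fun t => Zk k t * g t * PC u v Δ t) volume a b := by
  have h1 : (fun t => Zk k t * g t * PC u v Δ t) = fun t => PC u v Δ t * (Zk k t * g t) := by funext t; ring
  have hb' : ∀ t, ‖PC u v Δ t‖ ≤ 1 := fun t => by
    rw [Real.norm_eq_abs, abs_of_nonneg (PC_bd hu huv hv hΔ t).1]
    exact (PC_bd hu huv hv hΔ t).2
  rw [h1]
  constructor
  · exact (hint hg hM a b).1.bdd_mul (PC_ae hu huv hΔ ha) (Eventually.of_forall hb')
  · exact (hint hg hM a b).2.bdd_mul (PC_ae hu huv hΔ hb) (Eventually.of_forall hb')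

lemma fub0 {k : ℕ} {g : ℝ → ℝ} (hg : Measurable g) {M : ℝ} (hM : ∀ t, |g t| ≤ M) (h0 : ∀ t, 0 ≤ g t)
    {u v Δ : ℝ} (hu : 200 ≤ u) (huv : u ≤ v) (hv : v ≤ 3 * u) (hΔ : 0 < Δ) :
    IntervalIntegrable (fun τ => ∫ t in (τ / 2)..(3 * τ / 2), Zk k t * g t * gg τ Δ t) volume u v ∧
    ∫ τ in u..v, ∫ t in (τ / 2)..(3 * τ / 2), Zk k t * g t * gg τ Δ t =
      √Real.pi * Δ * ∫ t in (u / 2)..(3 * v / 2), Zk k t * g t * PC u v Δ t := by
  have hu0 : 0 < u := by linarith
  have hm : Measurable fun t => Zk k t * g t := (Zk_cont k).measurable.mul hg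
  have hn : ∀ t, 0 ≤ Zk k t * g t := fun t => mul_nonneg (Zk_nonneg k t) (h0 t)
  obtain ⟨-, f2, f3⟩ := Pool.Agent.W928.QS.qs_fub (md fun t => Zk k t * g t) (md_Iic fun x => by
    by_cases hx : 100 ≤ x
    · have := (hint (k := k) hg hM 100 x).1
      exact this
    · rw [Ioc_eq_empty (by linarith)]
      exact integrableOn_empty) u v Δ hu0 huv hΔ
  have e1 : ∀ τ ∈ Icc u v, ∫ t in Ioo (τ / 2) (3 * τ / 2), gg τ Δ t ∂(md fun t => Zk k t * g t) =
      ∫ t in (τ / 2)..(3 * τ / 2), Zk k t * g t * gg τ Δ t := by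
    intro τ hτ
    rw [md_int hm hn _ measurableSet_Ioo (fun t ht => by
      have := hτ.1
      have := ht.1
      show (100 : ℝ) < t
      linarith), intervalIntegral.integral_of_le (by linarith [hτ.1]), integral_Ioc_eq_integral_Ioo]
  have e2 : ∫ t, PC u v Δ t ∂(md fun t => Zk k t * g t) =
      ∫ t in (u / 2)..(3 * v / 2), Zk k t * g t * PC u v Δ t := by
    rw [md_int' hm hn, intervalIntegral.integral_of_le (by linarith)]
    apply setIntegral_eq_of_subset_of_forall_sdiff_eq_zero measurableSet_Ioi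
    · intro t ht
      have := ht.1
      show (100 : ℝ) < t
      linarith
    · intro t ht
      have h := Pool.Agent.W864.QS.qs_pc u v Δ 0 t hu0 huv hv hΔ le_rfl (by linarith)
      have h1 : PC u v Δ t = 0 := by
        by_cases h2 : t ≤ u / 2
        · exact h.2.2.1 h2
        · apply h.2.2.2.1
          by_contra h3
          exact ht.2 ⟨not_le.1 h2, (not_le.1 h3).le⟩
      rw [h1, mul_zero]
  constructor
  · refine f2.congr ?_
    intro τ hτ
    rw [uIoc_of_le huv] at hτ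
    exact e1 τ ⟨hτ.1.le, hτ.2⟩
  · rw [← e2, ← f3]
    apply intervalIntegral.integral_congr
    intro τ hτ
    rw [uIcc_of_le huv] at hτ
    exact (e1 τ hτ).symm

/-- Fubini for a bounded multiplier -/
lemma fub {k : ℕ} {g : ℝ → ℝ} (hg : Measurable g) {M : ℝ} (hM : ∀ t, |g t| ≤ M)
    {u v Δ : ℝ} (hu : 200 ≤ u) (huv : u ≤ v) (hv : v ≤ 3 * u) (hΔ : 0 < Δ) :
    IntervalIntegrable (fun τ => ∫ t in (τ / 2)..(3 * τ / 2), Zk k t * g t * gg τ Δ t) volume u v ∧
    ∫ τ in u..v, ∫ t in (τ / 2)..(3 * τ / 2), Zk k t * g t * gg τ Δ t =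
      √Real.pi * Δ * ∫ t in (u / 2)..(3 * v / 2), Zk k t * g t * PC u v Δ t := by
  have hM0 : 0 ≤ M := (abs_nonneg _).trans (hM 0)
  have b1 : ∀ t, |g t + M| ≤ 2 * M := fun t => by
    have := abs_add_le (g t) M
    have h2 := hM t
    rw [abs_of_nonneg hM0] at this
    linarith
  have b2 : ∀ _ : ℝ, |M| ≤ M := fun _ => (abs_of_nonneg hM0).le
  obtain ⟨p1, p2⟩ := fub0 (k := k) (hg.add_const M) b1 (fun t => by have := (abs_le.1 (hM t)).1; linarith)
    hu huv hv hΔ
  obtain ⟨q1, q2⟩ := fub0 (k := k) (g := fun _ => M) measurable_const b2 (fun _ => hM0) hu huv hv hΔ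
  have e1 : ∀ τ, ∫ t in (τ / 2)..(3 * τ / 2), Zk k t * g t * gg τ Δ t =
      (∫ t in (τ / 2)..(3 * τ / 2), Zk k t * (g t + M) * gg τ Δ t) -
        ∫ t in (τ / 2)..(3 * τ / 2), Zk k t * M * gg τ Δ t := by
    intro τ
    rw [← intervalIntegral.integral_sub (hintg (hg.add_const M) b1 _ _ _ _)
      (hintg (g := fun _ => M) measurable_const b2 _ _ _ _)]
    congr 1
    funext t
    ring
  have e2 : ∫ t in (u / 2)..(3 * v / 2), Zk k t * g t * PC u v Δ t =
      (∫ t in (u / 2)..(3 * v / 2), Zk k t * (g t + M) * PC u v Δ t) -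
        ∫ t in (u / 2)..(3 * v / 2), Zk k t * M * PC u v Δ t := by
    have hu0 : 0 < u := by linarith
    rw [← intervalIntegral.integral_sub (hintP (hg.add_const M) b1 hu0 huv hv hΔ (by linarith) (by linarith))
      (hintP (g := fun _ => M) measurable_const b2 hu0 huv hv hΔ (by linarith) (by linarith))]
    congr 1
    funext t
    ring
  constructor
  · have := p1.sub q1
    refine this.congr ?_
    intro τ _
    exact (e1 τ).symm
  · rw [e2, mul_sub, ← p2, ← q2, ← intervalIntegral.integral_sub p1 q1]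
    congr 1
    funext τ
    exact e1 τ

end Pool.Agent.U922.NS
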