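import Pool.Agent.U922.NS.Fin

/-!
# Moments over double sectors: forms for the results (helper922)
-/

set_option autoImplicit false

open Filter Topology Set MeasureTheory

namespace Pool.Agent.U922.NS

open Pool.Agent.U922.OL

/-- The integral of `|ζ(1/2 + it)|^(2k)` over the `t ∈ [a, b]` with `ζ(1/2 + it) ∈ Sec u N α`. -/
noncomputable def S (k : ℕ) (u : ℂ) (N : ℕ) (α a b : ℝ) : ℝ :=
  ∫ t in a..b, (Sec u N α).indicator (fun w => ‖w‖ ^ (2 * k)) (z t)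

lemma S_eq {k N : ℕ} (hk : 1 ≤ k) (hN : 1 ≤ N) {u : ℂ} (hu : u ≠ 0) (α a b : ℝ) :
    S k u N α a b = ∫ t in a..b, Pool.Agent.W188.QS.Zk k t * gA u N α t := by
  unfold S
  congr 1
  funext t
  exact ind_eq hk hN hu α t

lemma S_HH {k N : ℕ} (hk : 1 ≤ k) (hN : 1 ≤ N) {u : ℂ} (hu : u ≠ 0) (α : ℝ) {T : ℝ} (hT : 0 ≤ T) :
    S k u N α 0 T = HH k (gA u N α) T := by
  rw [S_eq hk hN hu, HH_int _ hT]

lemma M_HH {k : ℕ} {T : ℝ} (hT : 0 ≤ T) : M k T = T⁻¹ * HH k (fun _ => 1) T := by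
  rw [HH_int _ hT]
  simp only [mul_one]
  rfl

lemma two {k N : ℕ} (hk : 1 ≤ k) (hN : 1 ≤ N) (hkN : k ≤ N + 1) {α : ℝ} (h0 : 0 < α)
    (h1 : α < Real.pi / (2 * N)) {u : ℂ} (hu : u ≠ 0) (a : ℝ) :
    Tendsto (fun T : ℝ => M k T / Real.log T ^ (k ^ 2)) atTop (𝓝 a) ↔
      Tendsto (fun T : ℝ => T⁻¹ * S k u N α 0 T / Real.log T ^ (k ^ 2)) atTop (𝓝 (2 * N * α / Real.pi * a)) := by
  have h := equivS hk hN hkN h0 h1 hu a
  have e1 : (fun T : ℝ => M k T / Real.log T ^ (k ^ 2)) =ᶠ[atTop]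
      fun T => HH k (fun _ => 1) T / Nm (k ^ 2) T := by
    filter_upwards [eventually_ge_atTop 0] with T hT
    rw [M_HH hT]
    unfold Nm
    rw [div_mul_eq_div_div, div_eq_inv_mul (HH k (fun _ => 1) T) T]
  have e2 : (fun T : ℝ => T⁻¹ * S k u N α 0 T / Real.log T ^ (k ^ 2)) =ᶠ[atTop]
      fun T => HH k (gA u N α) T / Nm (k ^ 2) T := by
    filter_upwards [eventually_ge_atTop 0] with T hT
    rw [S_HH hk hN hu α hT]
    unfold Nm
    rw [div_mul_eq_div_div, div_eq_inv_mul (HH k (gA u N α) T) T]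
  rw [tendsto_congr' e1, tendsto_congr' e2]
  exact h

lemma norm_iff {F : ℝ → ℝ} {k : ℕ} {C : ℝ} (hC : C ≠ 0) :
    Tendsto (fun T : ℝ => F T / (C * Real.log T ^ (k ^ 2))) atTop (𝓝 1) ↔
      Tendsto (fun T : ℝ => F T / Real.log T ^ (k ^ 2)) atTop (𝓝 C) := by
  constructor
  · intro h
    have h2 := h.const_mul C
    rw [mul_one] at h2
    refine h2.congr fun T => ?_
    rw [div_mul_eq_div_div, ← mul_div_assoc, mul_div_cancel₀ _ hC]
  · intro h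
    have h2 := h.const_mul C⁻¹
    rw [inv_mul_cancel₀ hC] at h2
    refine h2.congr fun T => ?_
    rw [div_mul_eq_div_div, div_eq_inv_mul (F T) C]
    ring

lemma three {k N : ℕ} (hk : 1 ≤ k) (hN : 1 ≤ N) (hkN : k ≤ N + 1) {α : ℝ} (h0 : 0 < α)
    (h1 : α < Real.pi / (2 * N)) {u : ℂ} (hu : u ≠ 0) (C : ℝ) :
    Tendsto (fun T : ℝ => M k T / (C * Real.log T ^ (k ^ 2))) atTop (𝓝 1) ↔
      Tendsto (fun T : ℝ => T⁻¹ * S k u N α 0 T / (2 * N * α / Real.pi * C * Real.log T ^ (k ^ 2))) atTop (𝓝 1) := by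
  have hN0 : (1 : ℝ) ≤ N := by exact_mod_cast hN
  have hpi := Real.pi_pos
  have hl : 0 < 2 * N * α / Real.pi := by positivity
  by_cases hC : C = 0
  · rw [hC]
    simp only [mul_zero, zero_mul, div_zero]
  · rw [norm_iff hC, norm_iff (mul_ne_zero hl.ne' hC), two hk hN hkN h0 h1 hu C]

lemma Sec_sub (u : ℂ) {N : ℕ} (hN : 1 ≤ N) (α : ℝ) : Sec u 1 α ⊆ Sec u N α := by
  rintro w ⟨hw, j, hj⟩
  refine ⟨hw, N * j, ?_⟩
  have hN0 : (N : ℂ) ≠ 0 := by exact_mod_cast (by omega : N ≠ 0)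
  have e : (Real.pi : ℂ) * Complex.I * ((N * j : ℤ) : ℂ) / (N : ℂ) = Real.pi * Complex.I * j / ((1 : ℕ) : ℂ) := by
    push_cast
    field_simp
  rw [e]
  exact hj

lemma gA_sub {u : ℂ} {N k : ℕ} (hk : 1 ≤ k) (hN : 1 ≤ N) (hu : u ≠ 0) (α t : ℝ) :
    Pool.Agent.W188.QS.Zk k t * gA u 1 α t ≤ Pool.Agent.W188.QS.Zk k t * gA u N α t := by
  have e1 : Pool.Agent.W188.QS.Zk k t * gA u 1 α t =
      (Sec u 1 α).indicator (fun w => ‖w‖ ^ (2 * k)) (z t) := (ind_eq hk le_rfl hu α t).symm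
  have e2 : Pool.Agent.W188.QS.Zk k t * gA u N α t =
      (Sec u N α).indicator (fun w => ‖w‖ ^ (2 * k)) (z t) := (ind_eq hk hN hu α t).symm
  rw [e1, e2]
  exact indicator_le_indicator_of_subset (Sec_sub u hN α) (fun _ => by positivity) _


end Pool.Agent.U922.NS
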