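import Pool.Agent.U922.NS.Avg

/-!
# The sandwich (helper922)
-/

set_option autoImplicit false

open Complex MeasureTheory Set Filter Topology

namespace Pool.Agent.U922.NS

open Pool.Agent.W188.QS Pool.Agent.U922.OL

lemma ev_LL {k : ℕ} (_hk : 1 ≤ k) (y : ℝ) : ∀ᶠ T : ℝ in atTop, y ≤ LL k T := by
  filter_upwards [eventually_ge_atTop y, eventually_ge_atTop 1, ev_log_shift 1 1 one_pos] with T h1 h2 h3
  rw [one_mul] at h3
  unfold LL
  have h4 : 1 ≤ Real.log T ^ (k ^ 2) := one_le_pow₀ h3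
  nlinarith

lemma small {k : ℕ} (hk : 1 ≤ k) {ε θ B : ℝ} (h0 : 0 < ε) (h1 : ε ≤ 1 / 4) (ht1 : 1 ≤ θ) (ht2 : θ ≤ 2) (hB : 1 ≤ B)
    (hB2 : ((4 * k + 2 : ℕ) : ℝ) ≤ (ε * B / 2) ^ 2) {η : ℝ} (hη : 0 < η) : ∀ᶠ T : ℝ in atTop,
    Real.exp (-((ε * T / 2) / (T / (B * √(Real.log T)))) ^ 2) *
      ∫ t in ((T - ε * T / 2) / 2)..(3 * (θ * T + ε * T / 2) / 2), Zk k t * 1 ≤ η * LL k T := by
  filter_upwards [ev_LL hk (4 ^ (4 * k + 1) / η), eventually_ge_atTop 600, ev_log_shift 1 1 one_pos]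
    with T h2 h3 hl
  rw [one_mul] at hl
  have hT0 : 0 < T := by linarith
  have hs : 1 ≤ √(Real.log T) := by rw [Real.one_le_sqrt]; exact hl
  have e1 : ((ε * T / 2) / (T / (B * √(Real.log T)))) ^ 2 = (ε * B / 2) ^ 2 * Real.log T := by
    have : (ε * T / 2) / (T / (B * √(Real.log T))) = (ε * B / 2) * √(Real.log T) := by
      field_simp
    rw [this, mul_pow, Real.sq_sqrt (by linarith)]
  have h4 : Real.exp (-((ε * T / 2) / (T / (B * √(Real.log T)))) ^ 2) ≤ (T ^ (4 * k + 2))⁻¹ := by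
    rw [show -((ε * T / 2) / (T / (B * √(Real.log T)))) ^ 2 = -((ε * T / 2) / (T / (B * √(Real.log T)))) ^ 2 from rfl]
    have e2 : T ^ (4 * k + 2) = Real.exp (((4 * k + 2 : ℕ) : ℝ) * Real.log T) := by
      rw [mul_comm ((4 * k + 2 : ℕ) : ℝ) (Real.log T), Real.exp_mul, Real.exp_log hT0, Real.rpow_natCast]
    rw [e2, ← Real.exp_neg]
    apply Real.exp_le_exp.2
    rw [e1]
    have := mul_le_mul_of_nonneg_right hB2 (by linarith : 0 ≤ Real.log T)
    linarith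
  have hεT : ε * T ≤ T / 4 := by nlinarith
  have hεT0 : 0 < ε * T := by positivity
  have hθ1 : T ≤ θ * T := le_mul_of_one_le_left hT0.le ht1
  have hθ2 : θ * T ≤ 2 * T := mul_le_mul_of_nonneg_right ht2 hT0.le
  have h5 : ∫ t in ((T - ε * T / 2) / 2)..(3 * (θ * T + ε * T / 2) / 2), Zk k t * 1 ≤
      4 ^ (4 * k + 1) * T ^ (4 * k + 1) := by
    simp only [mul_one]
    have h6 : ∫ t in ((T - ε * T / 2) / 2)..(3 * (θ * T + ε * T / 2) / 2), Zk k t ≤
        ∫ t in (100 : ℝ)..(4 * T), Zk k t := by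
      apply intervalIntegral.integral_mono_interval (by linarith) (by linarith) (by linarith)
      · exact Eventually.of_forall fun t => Zk_nonneg k t
      · exact (Zk_cont k).intervalIntegrable _ _
    have h7 := grow k (T := 4 * T) (by linarith)
    rw [Real.rpow_natCast, mul_pow] at h7
    exact h6.trans h7
  have h8 : 0 ≤ (T ^ (4 * k + 2))⁻¹ := by positivity
  have h9 : 0 ≤ ∫ t in ((T - ε * T / 2) / 2)..(3 * (θ * T + ε * T / 2) / 2), Zk k t * 1 :=
    intervalIntegral.integral_nonneg (by linarith) fun t _ => by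
      rw [mul_one]; exact Zk_nonneg k t
  calc _ ≤ (T ^ (4 * k + 2))⁻¹ * (4 ^ (4 * k + 1) * T ^ (4 * k + 1)) :=
        mul_le_mul h4 h5 h9 h8
    _ = 4 ^ (4 * k + 1) / T := by
        rw [pow_succ T (4 * k + 1)]
        field_simp
    _ ≤ 4 ^ (4 * k + 1) := div_le_self (by positivity) (by linarith)
    _ ≤ η * LL k T := by
        rw [div_le_iff₀ hη] at h2
        linarith

lemma low' {k : ℕ} (hk : 1 ≤ k) : ∃ c : ℝ, 0 < c ∧ ∀ᶠ T : ℝ in atTop,
    c * LL k T ≤ ∫ t in T..(2 * T), Zk k t := by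
  obtain ⟨c, hc, h⟩ := low hk
  refine ⟨c, hc, ?_⟩
  filter_upwards [h] with T hT
  have e : Real.log T ^ ((k : ℝ) ^ 2) = Real.log T ^ (k ^ 2) := by
    rw [← Real.rpow_natCast (Real.log T) (k ^ 2)]
    push_cast
    rfl
  rw [e] at hT
  exact hT

lemma fV_meas {f : ℂ → ℝ} (hf : Measurable f) (c : ℂ) : Measurable fun t => f (c * V t) :=
  hf.comp (V_meas.const_mul c)

/-- comparison of multipliers -/
lemma mul_cmp {k : ℕ} (hk : 1 ≤ k) {f g : ℂ → ℝ} (h : ∀ v, ‖v‖ = 1 → f v ≤ g v) {c : ℂ} (hc : ‖c‖ = 1) (t : ℝ) :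
    Zk k t * f (c * V t) ≤ Zk k t * g (c * V t) := by
  by_cases hz : z t = 0
  · have : Zk k t = 0 := by
      show ‖z t‖ ^ (2 * k) = 0
      rw [hz, norm_zero, zero_pow (by omega)]
    rw [this]
    simp
  · apply mul_le_mul_of_nonneg_left _ (Zk_nonneg k t)
    apply h
    rw [norm_mul, hc, one_mul]
    exact V_norm hz

/-- the lower bound -/
theorem sand_low {k n : ℕ} (hk : 1 ≤ k) (hn1 : 1 ≤ n) (hn : k ≤ n + 1) {κ₀ : ℝ} {K : ℂ → ℝ} (hK : IsTP n κ₀ K)
    (hκ : 0 ≤ κ₀) {f : ℂ → ℝ} (hf : Measurable f) (hf0 : ∀ v, 0 ≤ f v) (hf1 : ∀ v, f v ≤ 1)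
    (hKf : ∀ v, ‖v‖ = 1 → K v ≤ f v) {ε θ η : ℝ} (h0 : 0 < ε) (h1 : ε ≤ 1 / 4) (ht1 : 1 ≤ θ) (ht2 : θ ≤ 2)
    (hη : 0 < η) : ∀ᶠ T : ℝ in atTop, ∀ c : ℂ, ‖c‖ = 1 →
      κ₀ * ∫ t in T..(θ * T), Zk k t ≤
        (∫ t in ((1 - ε) * T)..((θ + ε) * T), Zk k t * f (c * V t)) + η * LL k T := by
  obtain ⟨B, hB1, hB2, havg⟩ := avg hk hn1 hn hK h0 h1 ht1 ht2
  obtain ⟨Cb, hCb, hbd⟩ := hK.bdd
  filter_upwards [havg (η / 2) (by positivity),
    small hk h0 h1 ht1 ht2 hB1 hB2 (η := η / (2 * (κ₀ + 1))) (by positivity),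
    eventually_ge_atTop 600, ev_log_shift 1 1 one_pos] with T h2 h3 h5 hl
  intro c hc
  rw [one_mul] at hl
  have h2 := h2 c hc
  have hT0 : 0 < T := by linarith
  have hs : 1 ≤ √(Real.log T) := by rw [Real.one_le_sqrt]; exact hl
  set Δ : ℝ := T / (B * √(Real.log T)) with hΔ
  have hΔ0 : 0 < Δ := by positivity
  set u : ℝ := T - ε * T / 2 with hu
  set v : ℝ := θ * T + ε * T / 2 with hv
  have hεT : ε * T ≤ T / 4 := by nlinarith
  have hεT0 : 0 < ε * T := by positivity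
  have hθ1 : T ≤ θ * T := le_mul_of_one_le_left hT0.le ht1
  have hθ2 : θ * T ≤ 2 * T := mul_le_mul_of_nonneg_right ht2 hT0.le
  have hu200 : 200 ≤ u := by rw [hu]; linarith
  have huv : u ≤ v := by rw [hu, hv]; linarith
  have hv3 : v ≤ 3 * u := by rw [hu, hv]; linarith
  have hu0 : 0 < u := by linarith
  have hfm := fV_meas hf c
  have hfb : ∀ t, |f (c * V t)| ≤ 1 := fun t => by
    rw [abs_of_nonneg (hf0 _)]; exact hf1 _
  have hKm : Measurable fun t => K (c * V t) := fV_meas hK.cont.measurable c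
  have hKb : ∀ t, |K (c * V t)| ≤ Cb := fun t => hbd _ (by
    rw [norm_mul, hc, one_mul]; exact V_le t)
  have a1 := PCup (k := k) (r := ε * T / 2) hfm hfb (fun t => hf0 _) hu200 huv hv3 hΔ0 (by positivity) (by linarith)
  have a2 := PClow (k := k) (g := fun _ => 1) (M := 1) (r := ε * T / 2) measurable_const (fun _ => by norm_num)
    (fun _ => zero_le_one) hu200 huv hv3 hΔ0 (by positivity) (by linarith) (by linarith)
  have e1 : u + ε * T / 2 = T := by rw [hu]; ring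
  have e2 : v - ε * T / 2 = θ * T := by rw [hv]; ring
  have e3 : u - ε * T / 2 = (1 - ε) * T := by rw [hu]; ring
  have e4 : v + ε * T / 2 = (θ + ε) * T := by rw [hv]; ring
  rw [e1, e2] at a2
  rw [e3, e4] at a1
  set e : ℝ := Real.exp (-((ε * T / 2) / Δ) ^ 2) with he
  have he0 : 0 < e := Real.exp_pos _
  set G : ℝ := ∫ t in (u / 2)..(3 * v / 2), Zk k t * 1 with hG
  -- compare f with K
  have a3 : ∫ t in (u / 2)..(3 * v / 2), Zk k t * K (c * V t) * PC u v Δ t ≤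
      ∫ t in (u / 2)..(3 * v / 2), Zk k t * f (c * V t) * PC u v Δ t := by
    apply intervalIntegral.integral_mono_on (by linarith)
      (hintP hKm hKb hu0 huv hv3 hΔ0 (by linarith) (by linarith))
      (hintP hfm hfb hu0 huv hv3 hΔ0 (by linarith) (by linarith))
    intro t _
    exact mul_le_mul_of_nonneg_right (mul_cmp hk hKf hc t) (PC_bd hu0 huv hv3 hΔ0 t).1
  have a4 : ∫ t in (u / 2)..(3 * v / 2), Zk k t * f (c * V t) ≤ G := by
    apply intervalIntegral.integral_mono_on (by linarith) (hint hfm hfb _ _)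
      (hint (g := fun _ => 1) (M := 1) measurable_const (fun _ => by norm_num) _ _)
    intro t _
    exact mul_le_mul_of_nonneg_left (hf1 _) (Zk_nonneg k t)
  set P2 := ∫ t in (u / 2)..(3 * v / 2), Zk k t * 1 * PC u v Δ t with hP2
  have e5 : ∫ t in T..(θ * T), Zk k t * 1 = ∫ t in T..(θ * T), Zk k t := by
    simp only [mul_one]
  rw [e5] at a2
  set P1 := ∫ t in (u / 2)..(3 * v / 2), Zk k t * K (c * V t) * PC u v Δ t with hP1
  set J := ∫ t in T..(θ * T), Zk k t with hJ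
  set X := ∫ t in ((1 - ε) * T)..((θ + ε) * T), Zk k t * f (c * V t) with hX
  have a5 : e * (∫ t in (u / 2)..(3 * v / 2), Zk k t * f (c * V t)) ≤ e * G :=
    mul_le_mul_of_nonneg_left a4 he0.le
  have a6 := (abs_le.1 h2).1
  have a7 : κ₀ * J ≤ κ₀ * (P2 + e * G) := mul_le_mul_of_nonneg_left a2 hκ
  have a8 : (κ₀ + 1) * (e * G) ≤ η / 2 * LL k T := by
    have := mul_le_mul_of_nonneg_left h3 (by positivity : 0 ≤ κ₀ + 1)
    refine this.trans (le_of_eq ?_)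
    field_simp
  nlinarith

/-- the upper bound -/
theorem sand_up {k n : ℕ} (hk : 1 ≤ k) (hn1 : 1 ≤ n) (hn : k ≤ n + 1) {κ₀ : ℝ} {K : ℂ → ℝ} (hK : IsTP n κ₀ K)
    (hκ : 0 ≤ κ₀) {f : ℂ → ℝ} (hf : Measurable f) (hf0 : ∀ v, 0 ≤ f v) (hf1 : ∀ v, f v ≤ 1)
    (hKf : ∀ v, ‖v‖ = 1 → f v ≤ K v) {ε θ η : ℝ} (h0 : 0 < ε) (h1 : ε ≤ 1 / 4) (ht1 : 1 ≤ θ) (ht2 : θ ≤ 2)
    (hη : 0 < η) : ∀ᶠ T : ℝ in atTop, ∀ c : ℂ, ‖c‖ = 1 →
      ∫ t in T..(θ * T), Zk k t * f (c * V t) ≤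
        κ₀ * (∫ t in ((1 - ε) * T)..((θ + ε) * T), Zk k t) + η * LL k T := by
  obtain ⟨B, hB1, hB2, havg⟩ := avg hk hn1 hn hK h0 h1 ht1 ht2
  obtain ⟨Cb, hCb, hbd⟩ := hK.bdd
  filter_upwards [havg (η / 2) (by positivity),
    small hk h0 h1 ht1 ht2 hB1 hB2 (η := η / (2 * (κ₀ + 1))) (by positivity),
    eventually_ge_atTop 600, ev_log_shift 1 1 one_pos] with T h2 h3 h5 hl
  intro c hc
  rw [one_mul] at hl
  have h2 := h2 c hc
  have hT0 : 0 < T := by linarith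
  have hs : 1 ≤ √(Real.log T) := by rw [Real.one_le_sqrt]; exact hl
  set Δ : ℝ := T / (B * √(Real.log T)) with hΔ
  have hΔ0 : 0 < Δ := by positivity
  set u : ℝ := T - ε * T / 2 with hu
  set v : ℝ := θ * T + ε * T / 2 with hv
  have hεT : ε * T ≤ T / 4 := by nlinarith
  have hεT0 : 0 < ε * T := by positivity
  have hθ1 : T ≤ θ * T := le_mul_of_one_le_left hT0.le ht1
  have hθ2 : θ * T ≤ 2 * T := mul_le_mul_of_nonneg_right ht2 hT0.le
  have hu200 : 200 ≤ u := by rw [hu]; linarith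
  have huv : u ≤ v := by rw [hu, hv]; linarith
  have hv3 : v ≤ 3 * u := by rw [hu, hv]; linarith
  have hu0 : 0 < u := by linarith
  have hfm := fV_meas hf c
  have hfb : ∀ t, |f (c * V t)| ≤ 1 := fun t => by
    rw [abs_of_nonneg (hf0 _)]; exact hf1 _
  have hKm : Measurable fun t => K (c * V t) := fV_meas hK.cont.measurable c
  have hKb : ∀ t, |K (c * V t)| ≤ Cb := fun t => hbd _ (by
    rw [norm_mul, hc, one_mul]; exact V_le t)
  have a1 := PCup (k := k) (g := fun _ => 1) (M := 1) (r := ε * T / 2) measurable_const (fun _ => by norm_num)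
    (fun _ => zero_le_one) hu200 huv hv3 hΔ0 (by positivity) (by linarith)
  have a2 := PClow (k := k) (r := ε * T / 2) hfm hfb (fun t => hf0 _) hu200 huv hv3 hΔ0 (by positivity)
    (by linarith) (by linarith)
  have e1 : u + ε * T / 2 = T := by rw [hu]; ring
  have e2 : v - ε * T / 2 = θ * T := by rw [hv]; ring
  have e3 : u - ε * T / 2 = (1 - ε) * T := by rw [hu]; ring
  have e4 : v + ε * T / 2 = (θ + ε) * T := by rw [hv]; ring
  rw [e1, e2] at a2
  rw [e3, e4] at a1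
  set e : ℝ := Real.exp (-((ε * T / 2) / Δ) ^ 2) with he
  have he0 : 0 < e := Real.exp_pos _
  set G : ℝ := ∫ t in (u / 2)..(3 * v / 2), Zk k t * 1 with hG
  -- compare f with K
  have a3 : ∫ t in (u / 2)..(3 * v / 2), Zk k t * f (c * V t) * PC u v Δ t ≤
      ∫ t in (u / 2)..(3 * v / 2), Zk k t * K (c * V t) * PC u v Δ t := by
    apply intervalIntegral.integral_mono_on (by linarith)
      (hintP hfm hfb hu0 huv hv3 hΔ0 (by linarith) (by linarith))
      (hintP hKm hKb hu0 huv hv3 hΔ0 (by linarith) (by linarith))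
    intro t _
    exact mul_le_mul_of_nonneg_right (mul_cmp hk hKf hc t) (PC_bd hu0 huv hv3 hΔ0 t).1
  have a4 : ∫ t in (u / 2)..(3 * v / 2), Zk k t * f (c * V t) ≤ G := by
    apply intervalIntegral.integral_mono_on (by linarith) (hint hfm hfb _ _)
      (hint (g := fun _ => 1) (M := 1) measurable_const (fun _ => by norm_num) _ _)
    intro t _
    exact mul_le_mul_of_nonneg_left (hf1 _) (Zk_nonneg k t)
  set P2 := ∫ t in (u / 2)..(3 * v / 2), Zk k t * 1 * PC u v Δ t with hP2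
  set P1 := ∫ t in (u / 2)..(3 * v / 2), Zk k t * K (c * V t) * PC u v Δ t with hP1
  set Q := ∫ t in ((1 - ε) * T)..((θ + ε) * T), Zk k t with hQ
  have e7 : ∫ t in ((1 - ε) * T)..((θ + ε) * T), Zk k t * 1 = Q := by
    rw [hQ]; simp only [mul_one]
  rw [e7] at a1
  set X := ∫ t in T..(θ * T), Zk k t * f (c * V t) with hX
  have a5 : e * (∫ t in (u / 2)..(3 * v / 2), Zk k t * f (c * V t)) ≤ e * G :=
    mul_le_mul_of_nonneg_left a4 he0.le
  have a6 := (abs_le.1 h2).2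
  have a7 : κ₀ * P2 ≤ κ₀ * (Q + e * G) := mul_le_mul_of_nonneg_left a1 hκ
  have a8 : (κ₀ + 1) * (e * G) ≤ η / 2 * LL k T := by
    have := mul_le_mul_of_nonneg_left h3 (by positivity : 0 ≤ κ₀ + 1)
    refine this.trans (le_of_eq ?_)
    field_simp
  nlinarith

end Pool.Agent.U922.NS
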