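import Pool.Agent.U922.NS.Up
import Pool.Agent.U922.NS.Sand
import Pool.Agent.U922.OL.Pts

/-!
# Double sectors (helper922)
-/

set_option autoImplicit false

open Complex MeasureTheory Set Filter Topology

namespace Pool.Agent.U922.NS

open Pool.Agent.W188.QS Pool.Agent.U922.OL

/-- The union of the `N` double sectors with half-opening `α` around the lines `u e^{πij/N} ℝ`, without the point `0`: the
complex numbers `w ≠ 0` such that the angle between `w` and one of these lines is at most `α`. -/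
def Sec (u : ℂ) (N : ℕ) (α : ℝ) : Set ℂ :=
  {w | w ≠ 0 ∧ ∃ j : ℤ, |((starRingEnd ℂ) (u * Complex.exp (Real.pi * Complex.I * j / N)) * w).im| ≤
    Real.sin α * (‖u‖ * ‖w‖)}

/-- the corresponding set of squares -/
def Arc (N : ℕ) (α : ℝ) : Set ℂ :=
  {v | ∃ j ∈ Finset.range N, ‖v * Complex.exp (2 * Real.pi * I / (N : ℂ)) ^ j - 1‖ ≤ 2 * Real.sin α}

lemma Arc_meas (N : ℕ) (α : ℝ) : MeasurableSet (Arc N α) := by
  have : Arc N α = ⋃ j ∈ Finset.range N,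
      {v | ‖v * Complex.exp (2 * Real.pi * I / (N : ℂ)) ^ j - 1‖ ≤ 2 * Real.sin α} := by
    ext v
    simp [Arc]
  rw [this]
  refine Finset.measurableSet_biUnion _ fun j _ => ?_
  apply IsClosed.measurableSet
  exact isClosed_le (by fun_prop) continuous_const

lemma sq_dist {y : ℂ} (hy : y ≠ 0) : ‖y ^ 2 / ((‖y‖ ^ 2 : ℝ) : ℂ) - 1‖ = 2 * |y.im| / ‖y‖ := by
  have h0 : ‖y‖ ≠ 0 := norm_ne_zero_iff.2 hy
  have h1 : ((‖y‖ ^ 2 : ℝ) : ℂ) = y * (starRingEnd ℂ) y := by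
    rw [Complex.mul_conj, Complex.normSq_eq_norm_sq]
  have hc : (starRingEnd ℂ) y ≠ 0 := by rwa [Ne, map_eq_zero]
  have h2 : y ^ 2 / ((‖y‖ ^ 2 : ℝ) : ℂ) - 1 = (y - (starRingEnd ℂ) y) / (starRingEnd ℂ) y := by
    rw [h1]
    field_simp
  rw [h2, norm_div, RCLike.norm_conj, Complex.sub_conj, norm_mul, Complex.norm_I, mul_one, Complex.norm_real,
    Real.norm_eq_abs, abs_mul, abs_two]

lemma sec_iff {u w : ℂ} {N : ℕ} (hN : 1 ≤ N) (hu : u ≠ 0) (hw : w ≠ 0) (α : ℝ) :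
    w ∈ Sec u N α ↔ cc u 1 * (w ^ 2 / ((‖w‖ ^ 2 : ℝ) : ℂ)) ∈ Arc N α := by
  have hN0 : (N : ℂ) ≠ 0 := by exact_mod_cast (by omega : N ≠ 0)
  have hun : ‖u‖ ≠ 0 := norm_ne_zero_iff.2 hu
  have hwn : ‖w‖ ≠ 0 := norm_ne_zero_iff.2 hw
  set ω : ℂ := Complex.exp (2 * Real.pi * I / (N : ℂ)) with hω
  have hp : IsPrimitiveRoot ω N := Complex.isPrimitiveRoot_exp N (by omega)
  have hω0 : ω ≠ 0 := Complex.exp_ne_zero _
  have red : ∀ j : ℤ, ∃ m ∈ Finset.range N, ω ^ m = ω ^ j := by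
    intro j
    have hnz : (N : ℤ) ≠ 0 := by omega
    have a1 := Int.emod_nonneg j hnz
    have a2 := Int.emod_lt_of_pos j (by omega : (0 : ℤ) < N)
    refine ⟨(j % N).toNat, Finset.mem_range.2 (by omega), ?_⟩
    have e1 : ω ^ j = ω ^ (j % N) * (ω ^ (N : ℤ)) ^ (j / N) := by
      rw [← zpow_mul, ← zpow_add₀ hω0, Int.emod_add_mul_ediv]
    rw [e1, zpow_natCast, hp.pow_eq_one, one_zpow, mul_one, ← zpow_natCast, Int.toNat_of_nonneg a1]
  -- one line
  have key : ∀ j : ℤ, (|((starRingEnd ℂ) (u * Complex.exp (Real.pi * Complex.I * j / N)) * w).im| ≤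
      Real.sin α * (‖u‖ * ‖w‖)) ↔ ‖cc u 1 * (w ^ 2 / ((‖w‖ ^ 2 : ℝ) : ℂ)) * ω ^ (-j) - 1‖ ≤ 2 * Real.sin α := by
    intro j
    set x : ℝ := Real.pi * j / N with hx
    have hex : Complex.exp (Real.pi * Complex.I * j / N) = Complex.exp (x * I) := by
      rw [hx]
      congr 1
      push_cast
      ring
    set y : ℂ := (starRingEnd ℂ) (u * Complex.exp (Real.pi * Complex.I * j / N)) * w with hy
    have hyn : ‖y‖ = ‖u‖ * ‖w‖ := by
      rw [hy, norm_mul, RCLike.norm_conj, norm_mul, hex, Complex.norm_exp_ofReal_mul_I, mul_one]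
    have hy0 : y ≠ 0 := by
      rw [← norm_ne_zero_iff, hyn]
      exact mul_ne_zero hun hwn
    have e1 : cc u 1 * (w ^ 2 / ((‖w‖ ^ 2 : ℝ) : ℂ)) * ω ^ (-j) = y ^ 2 / ((‖y‖ ^ 2 : ℝ) : ℂ) := by
      have c1 : ω ^ (-j) = ((starRingEnd ℂ) (Complex.exp (x * I))) ^ 2 := by
        rw [← Complex.exp_conj, ← Complex.exp_nat_mul, hω, ← Complex.exp_int_mul]
        congr 1
        simp only [map_mul, Complex.conj_ofReal, Complex.conj_I, hx]
        push_cast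
        field_simp
      have c2 : cc u 1 = (starRingEnd ℂ) u ^ 2 / ((‖u‖ ^ 2 : ℝ) : ℂ) := by
        unfold cc
        have h1 : ((‖u‖ : ℝ) : ℂ) ≠ 0 := by exact_mod_cast hun
        have h3 : (u / (‖u‖ : ℂ))⁻¹ = (starRingEnd ℂ) u / ((‖u‖ : ℝ) : ℂ) := by
          have h2 : (((‖u‖ : ℝ) : ℂ)) ^ 2 = u * (starRingEnd ℂ) u := by
            rw [Complex.mul_conj, Complex.normSq_eq_norm_sq]
            push_cast
            rfl
          rw [inv_div, div_eq_div_iff hu h1, ← sq, h2, mul_comm]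
        rw [h3, mul_one, div_pow]
        push_cast
        rfl
      rw [c1, c2, hyn, hy, hex, map_mul]
      have h1 : ((‖u‖ : ℝ) : ℂ) ≠ 0 := by exact_mod_cast hun
      have h2 : ((‖w‖ : ℝ) : ℂ) ≠ 0 := by exact_mod_cast hwn
      push_cast
      field_simp
    rw [e1, sq_dist hy0, hyn, div_le_iff₀ (by positivity)]
    constructor <;> intro h <;> linarith
  constructor
  · rintro ⟨-, j, hj⟩
    obtain ⟨m, hm1, hm2⟩ := red (-j)
    refine ⟨m, hm1, ?_⟩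
    rw [← hω, hm2]
    exact (key j).1 hj
  · rintro ⟨m, hm1, hm2⟩
    refine ⟨hw, -(m : ℤ), ?_⟩
    rw [key]
    rw [neg_neg, zpow_natCast]
    exact hm2

/-- the indicator function of `Arc` -/
noncomputable def fA (N : ℕ) (α : ℝ) : ℂ → ℝ := (Arc N α).indicator 1

lemma fA_meas (N : ℕ) (α : ℝ) : Measurable (fA N α) := measurable_one.indicator (Arc_meas N α)

lemma fA_nonneg (N : ℕ) (α : ℝ) (v : ℂ) : 0 ≤ fA N α v := indicator_nonneg (fun _ _ => zero_le_one) v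

lemma fA_le (N : ℕ) (α : ℝ) (v : ℂ) : fA N α v ≤ 1 := by
  unfold fA indicator
  split_ifs
  · exact le_rfl
  · exact zero_le_one

/-- the integrand -/
lemma ind_eq {k N : ℕ} (hk : 1 ≤ k) {u : ℂ} (hN : 1 ≤ N) (hu : u ≠ 0) (α t : ℝ) :
    (Sec u N α).indicator (fun w => ‖w‖ ^ (2 * k)) (z t) = Zk k t * fA N α (cc u 1 * V t) := by
  by_cases hz : z t = 0
  · have h1 : Zk k t = 0 := by
      show ‖z t‖ ^ (2 * k) = 0
      rw [hz, norm_zero, zero_pow (by omega)]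
    rw [h1, zero_mul, indicator_of_notMem]
    intro h
    exact h.1 hz
  · have hiff : z t ∈ Sec u N α ↔ cc u 1 * V t ∈ Arc N α := sec_iff hN hu hz α
    unfold fA
    by_cases h : z t ∈ Sec u N α
    · rw [indicator_of_mem h, indicator_of_mem (hiff.1 h)]
      show ‖z t‖ ^ (2 * k) = ‖z t‖ ^ (2 * k) * 1
      rw [mul_one]
    · rw [indicator_of_notMem h, indicator_of_notMem (fun h2 => h (hiff.2 h2)), mul_zero]

/-- from `TP` to `IsTP` -/
lemma TP.isTP {n : ℕ} {κ₀ : ℝ} {K : ℂ → ℝ} (h : TP n κ₀ K) : IsTP n κ₀ K := by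
  obtain ⟨P, p1, p2⟩ := h
  refine ⟨P.natDegree + 1, fun m => P.coeff m, p1, fun v => ?_⟩
  rw [p2, Polynomial.eval_eq_sum_range]

end Pool.Agent.U922.NS
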