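import Mathlib

/-!
# Trigonometric polynomials without low frequencies which majorize or minorize arcs (helper922)
-/

set_option autoImplicit false

open Complex Polynomial Finset Filter Topology

namespace Pool.Agent.U922.NS

/-- `K` is a trigonometric polynomial with mean value `κ₀` without frequencies `1, …, n - 1` -/
def TP (n : ℕ) (κ₀ : ℝ) (K : ℂ → ℝ) : Prop :=
  ∃ P : ℂ[X], (∀ m, m < n → P.coeff m = 0) ∧ ∀ v, K v = κ₀ + (P.eval v).re

lemma TP.add {n : ℕ} {a b : ℝ} {F G : ℂ → ℝ} (h1 : TP n a F) (h2 : TP n b G) :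
    TP n (a + b) (fun v => F v + G v) := by
  obtain ⟨P, p1, p2⟩ := h1
  obtain ⟨Q, q1, q2⟩ := h2
  refine ⟨P + Q, fun m hm => by rw [coeff_add, p1 m hm, q1 m hm, add_zero], fun v => ?_⟩
  show F v + G v = _
  rw [p2, q2, eval_add, Complex.add_re]
  ring

lemma TP.mul {n : ℕ} {a : ℝ} {F : ℂ → ℝ} (h1 : TP n a F) (c : ℝ) :
    TP n (c * a) (fun v => c * F v) := by
  obtain ⟨P, p1, p2⟩ := h1
  refine ⟨Polynomial.C (c : ℂ) * P, fun m hm => by rw [coeff_C_mul, p1 m hm, mul_zero], fun v => ?_⟩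
  show c * F v = _
  rw [p2, eval_mul, eval_C, Complex.re_ofReal_mul]
  ring

lemma TP.const {n : ℕ} (a : ℝ) : TP n a (fun _ => a) :=
  ⟨0, fun m _ => coeff_zero m, fun v => by simp⟩

lemma TP.rot {n : ℕ} {a : ℝ} {F : ℂ → ℝ} (h1 : TP n a F) (ω : ℂ) : TP n a (fun v => F (v * ω)) := by
  obtain ⟨P, p1, p2⟩ := h1
  refine ⟨P.comp (Polynomial.C ω * X), fun m hm => by rw [comp_C_mul_X_coeff, p1 m hm, zero_mul], fun v => ?_⟩
  show F (v * ω) = _
  rw [p2, eval_comp, eval_mul, eval_C, eval_X, mul_comm v ω]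

lemma TP.sum {n : ℕ} {a : ℝ} {F : ℕ → ℂ → ℝ} (J : Finset ℕ) (h : ∀ j ∈ J, TP n a (F j)) :
    TP n ((J.card : ℝ) * a) (fun v => ∑ j ∈ J, F j v) := by
  classical
  induction J using Finset.induction_on with
  | empty =>
    simp only [Finset.card_empty, Nat.cast_zero, zero_mul, Finset.sum_empty]
    exact TP.const 0
  | insert j J hj ih =>
    have h1 := h j (Finset.mem_insert_self _ _)
    have h2 := ih fun i hi => h i (Finset.mem_insert_of_mem hi)
    have h3 := h1.add h2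
    simp only [Finset.sum_insert hj]
    rw [Finset.card_insert_of_notMem hj]
    have e : ((J.card + 1 : ℕ) : ℝ) * a = a + (J.card : ℝ) * a := by push_cast; ring
    rw [e]
    exact h3

lemma geo {N m : ℕ} {ω : ℂ} (hω : IsPrimitiveRoot ω N) (h : ¬ N ∣ m) :
    ∑ j ∈ range N, (ω ^ j) ^ m = 0 := by
  have h1 : ω ^ m ≠ 1 := fun h2 => h ((hω.pow_eq_one_iff_dvd m).1 h2)
  have h2 : ∀ j, (ω ^ j) ^ m = (ω ^ m) ^ j := fun j => by rw [← pow_mul, ← pow_mul, mul_comm]
  simp only [h2]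
  rw [geom_sum_eq h1, ← pow_mul, mul_comm m N, pow_mul, hω.pow_eq_one, one_pow, sub_self, zero_div]

/-- the polynomial of the sum over all rotations by roots of unity -/
noncomputable def symm (P : ℂ[X]) (ω : ℂ) (N : ℕ) : ℂ[X] := ∑ j ∈ range N, P.comp (Polynomial.C (ω ^ j) * X)

lemma symm_coeff (P : ℂ[X]) (ω : ℂ) (N m : ℕ) :
    (symm P ω N).coeff m = P.coeff m * ∑ j ∈ range N, (ω ^ j) ^ m := by
  unfold symm
  rw [finsetSum_coeff, Finset.mul_sum]
  exact Finset.sum_congr rfl fun j _ => by rw [comp_C_mul_X_coeff]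

lemma symm_eval (P : ℂ[X]) (ω : ℂ) (N : ℕ) (v : ℂ) :
    (symm P ω N).eval v = ∑ j ∈ range N, P.eval (v * ω ^ j) := by
  unfold symm
  rw [eval_finsetSum]
  exact Finset.sum_congr rfl fun j _ => by rw [eval_comp, eval_mul, eval_C, eval_X, mul_comm v]

/-- symmetrization -/
lemma TP.symm {a : ℝ} {F : ℂ → ℝ} (h1 : TP 1 a F) {n : ℕ} {ω : ℂ} (hω : IsPrimitiveRoot ω n) :
    TP n (n * a) (fun v => ∑ j ∈ range n, F (v * ω ^ j)) := by
  obtain ⟨P, p1, p2⟩ := h1
  refine ⟨NS.symm P ω n, fun m hm => ?_, fun v => ?_⟩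
  · rw [symm_coeff]
    rcases Nat.eq_zero_or_pos m with h0 | h0
    · rw [h0, p1 0 zero_lt_one, zero_mul]
    · rw [geo hω (fun h => absurd (Nat.le_of_dvd h0 h) (by omega)), mul_zero]
  · rw [symm_eval, Complex.re_sum]
    simp only [p2]
    rw [Finset.sum_add_distrib, Finset.sum_const, Finset.card_range, nsmul_eq_mul]

/-- the mean value over the roots of unity -/
lemma mean {N : ℕ} {ω : ℂ} (hω : IsPrimitiveRoot ω N) {P : ℂ[X]} (h0 : P.coeff 0 = 0)
    (hd : ∀ m, N ≤ m → P.coeff m = 0) (v : ℂ) : ∑ j ∈ range N, P.eval (v * ω ^ j) = 0 := by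
  rw [← symm_eval]
  have : symm P ω N = 0 := by
    ext m
    rw [symm_coeff, coeff_zero]
    by_cases h : N ∣ m
    · rcases Nat.eq_zero_or_pos m with h1 | h1
      · rw [h1, h0, zero_mul]
      · rw [hd m (Nat.le_of_dvd h1 h), zero_mul]
    · rw [geo hω h, mul_zero]
  rw [this, eval_zero]

/-- powers of `cos² (θ / 2)` -/
lemma base (L : ℕ) : ∃ (κ₀ : ℝ) (P : ℂ[X]), P.coeff 0 = 0 ∧ (∀ m, L < m → P.coeff m = 0) ∧
    ∀ v : ℂ, ‖v‖ = 1 → ((1 + v.re) / 2) ^ L = κ₀ + (P.eval v).re := by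
  induction L with
  | zero => exact ⟨1, 0, coeff_zero 0, fun m _ => coeff_zero m, fun v _ => by simp⟩
  | succ L ih =>
    obtain ⟨κ, P, h0, hd, h⟩ := ih
    refine ⟨κ / 2 + (P.coeff 1).re / 4, Polynomial.C (1 / 2 : ℂ) * P + Polynomial.C (κ / 2 : ℂ) * X +
      Polynomial.C (1 / 4 : ℂ) * (X * P + X * divX (divX P)), ?_, ?_, ?_⟩
    · simp [h0]
    · intro m hm
      obtain ⟨m, rfl⟩ : ∃ m', m = m' + 1 := ⟨m - 1, by omega⟩
      simp only [coeff_add, coeff_C_mul, coeff_X_mul, coeff_divX]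
      rw [hd (m + 1) (by omega), hd m (by omega), hd (m + 1 + 1) (by omega), coeff_X,
        if_neg (by omega)]
      ring
    · intro v hv
      have h1 : P.eval v = v * (divX P).eval v := by
        conv_lhs => rw [← divX_mul_X_add P]
        rw [h0]
        simp [mul_comm]
      have h2 : (divX P).eval v = v * (divX (divX P)).eval v + P.coeff 1 := by
        conv_lhs => rw [← divX_mul_X_add (divX P)]
        rw [coeff_divX]
        simp [mul_comm]
      have hvv : v * (starRingEnd ℂ) v = 1 := by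
        rw [Complex.mul_conj, Complex.normSq_eq_norm_sq, hv]
        norm_num
      have h3 : (P.eval v).re * v.re = ((P.eval v * v).re + ((divX P).eval v).re) / 2 := by
        have e1 : P.eval v * (starRingEnd ℂ) v = (divX P).eval v := by
          rw [h1]
          linear_combination ((divX P).eval v) * hvv
        rw [← e1]
        simp only [Complex.mul_re, Complex.conj_re, Complex.conj_im]
        ring
      rw [pow_succ, h v hv]
      have h4 : ((divX P).eval v).re = (v * (divX (divX P)).eval v).re + (P.coeff 1).re := by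
        rw [h2, Complex.add_re]
      have e2 : (eval v (Polynomial.C (1 / 2 : ℂ) * P + Polynomial.C (κ / 2 : ℂ) * X +
          Polynomial.C (1 / 4 : ℂ) * (X * P + X * divX (divX P)))).re =
          (P.eval v).re / 2 + κ / 2 * v.re + ((P.eval v * v).re + (v * (divX (divX P)).eval v).re) / 4 := by
        rw [eval_add, eval_add, eval_mul, eval_mul, eval_mul, eval_add, eval_mul, eval_mul, eval_C, eval_C,
          eval_C, eval_X, Complex.add_re, Complex.add_re]
        have c1 : (1 / 2 : ℂ) = ((1 / 2 : ℝ) : ℂ) := by push_cast; rfl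
        have c2 : ((κ : ℂ) / 2) = ((κ / 2 : ℝ) : ℂ) := by push_cast; rfl
        have c3 : (1 / 4 : ℂ) = ((1 / 4 : ℝ) : ℂ) := by push_cast; rfl
        rw [c1, c2, c3, Complex.re_ofReal_mul, Complex.re_ofReal_mul, Complex.re_ofReal_mul, Complex.add_re,
          mul_comm v (P.eval v)]
        ring
      rw [e2]
      linarith

lemma re_dist {v : ℂ} (hv : ‖v‖ = 1) : ‖v - 1‖ ^ 2 = 2 - 2 * v.re := by
  have h1 : v.re ^ 2 + v.im ^ 2 = 1 := by
    have := Complex.sq_norm v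
    rw [hv, Complex.normSq_apply] at this
    nlinarith
  rw [Complex.sq_norm, Complex.normSq_apply]
  simp only [Complex.sub_re, Complex.sub_im, Complex.one_re, Complex.one_im]
  nlinarith

lemma re_le {v : ℂ} (hv : ‖v‖ = 1) : -1 ≤ v.re ∧ v.re ≤ 1 := by
  have h := Complex.abs_re_le_norm v
  rw [hv, abs_le] at h
  exact h

/-- the base kernel -/
theorem base_ker (L : ℕ) : ∃ (κ₀ : ℝ) (K : ℂ → ℝ), 1 ≤ κ₀ * (L + 1) ∧ TP 1 κ₀ K ∧
    (∀ v, ‖v‖ = 1 → K v = ((1 + v.re) / 2) ^ L) ∧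
    ∀ ω : ℂ, IsPrimitiveRoot ω (L + 1) → ∀ v, ∑ j ∈ range (L + 1), K (v * ω ^ j) = κ₀ * (L + 1) := by
  obtain ⟨κ, P, h0, hd, h⟩ := base L
  have hs : ∀ ω : ℂ, IsPrimitiveRoot ω (L + 1) → ∀ v, ∑ j ∈ range (L + 1), (κ + (P.eval (v * ω ^ j)).re) =
      κ * (L + 1) := by
    intro ω hω v
    rw [Finset.sum_add_distrib, Finset.sum_const, Finset.card_range, nsmul_eq_mul, ← Complex.re_sum,
      mean hω h0 (fun m hm => hd m (by omega)) v]
    push_cast
    simp [mul_comm]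
  refine ⟨κ, fun v => κ + (P.eval v).re, ?_, ⟨P, fun m hm => by
    have : m = 0 := by omega
    rw [this, h0], fun v => rfl⟩, fun v hv => (h v hv).symm, hs⟩
  set ω := Complex.exp (2 * Real.pi * I / ((L + 1 : ℕ) : ℂ)) with hω
  have hp : IsPrimitiveRoot ω (L + 1) := Complex.isPrimitiveRoot_exp (L + 1) (by omega)
  rw [← hs ω hp 1]
  have hn : ∀ j, ‖(1 : ℂ) * ω ^ j‖ = 1 := fun j => by
    rw [one_mul, norm_pow, hp.norm'_eq_one (by omega), one_pow]
  have h1 : ∀ j, κ + (P.eval (1 * ω ^ j)).re = ((1 + (1 * ω ^ j).re) / 2) ^ L := fun j =>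
    (h _ (hn j)).symm
  simp only [h1]
  have h2 : ∀ j ∈ range (L + 1), 0 ≤ ((1 + ((1 : ℂ) * ω ^ j).re) / 2) ^ L := fun j _ => by
    have := (re_le (hn j)).1
    apply pow_nonneg
    linarith
  refine le_trans ?_ (Finset.single_le_sum h2 (Finset.mem_range.2 (Nat.succ_pos L)))
  simp

lemma ker_off {v : ℂ} (hv : ‖v‖ = 1) {d : ℝ} (hd : 0 ≤ d) (h : d ≤ ‖v - 1‖) (L : ℕ) :
    ((1 + v.re) / 2) ^ L ≤ (1 - d ^ 2 / 4) ^ L := by
  apply pow_le_pow_left₀
  · linarith [(re_le hv).1]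
  · have := re_dist hv
    have h2 : d ^ 2 ≤ ‖v - 1‖ ^ 2 := pow_le_pow_left₀ hd h 2
    linarith

/-- kernels without frequencies `1, …, n - 1` -/
theorem ker_ind (n : ℕ) : ∀ d : ℝ, 0 < d → d ≤ 2 → ∃ A q : ℝ, 0 < A ∧ 0 ≤ q ∧ q < 1 ∧ ∀ L : ℕ,
    ∃ (κ₀ : ℝ) (K : ℂ → ℝ), 1 ≤ κ₀ * (L + 1) ∧ TP (n + 1) κ₀ K ∧
      ∀ v, ‖v‖ = 1 → |K v| ≤ A ∧ (d ≤ ‖v - 1‖ → |K v| ≤ A * q ^ L) := by
  induction n with
  | zero =>
    intro d hd hd2
    refine ⟨1, 1 - d ^ 2 / 4, one_pos, by nlinarith, by nlinarith [sq_nonneg d, mul_pos hd hd], fun L => ?_⟩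
    obtain ⟨κ, K, h1, h2, h3, -⟩ := base_ker L
    refine ⟨κ, K, h1, h2, fun v hv => ?_⟩
    have h4 := re_le hv
    have h5 : 0 ≤ ((1 + v.re) / 2) ^ L := pow_nonneg (by linarith) _
    rw [h3 v hv, abs_of_nonneg h5]
    refine ⟨pow_le_one₀ (by linarith) (by linarith), fun h => ?_⟩
    rw [one_mul]
    exact ker_off hv hd.le h L
  | succ n ih =>
    intro d hd hd2
    obtain ⟨A, q, hA, hq0, hq1, h⟩ := ih (d / 2) (by linarith) (by linarith)
    set α : ℝ := min (d / 2) (1 / (n + 1)) with hα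
    have hα0 : 0 < α := lt_min (by linarith) (by positivity)
    have hα1 : ((n + 1 : ℕ) : ℝ) * α ≤ 1 := by
      have : α ≤ 1 / (n + 1) := min_le_right _ _
      calc ((n + 1 : ℕ) : ℝ) * α ≤ ((n + 1 : ℕ) : ℝ) * (1 / (n + 1)) := by gcongr
        _ = 1 := by push_cast; field_simp
    set c : ℝ := Real.cos (((n + 1 : ℕ) : ℝ) * α) with hc
    have hc1 : c < 1 := by
      rw [hc, ← Real.cos_zero]
      apply Real.cos_lt_cos_of_nonneg_of_le_pi le_rfl
      · linarith [Real.pi_gt_three]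
      · positivity
    have hcm : -1 ≤ c := Real.neg_one_le_cos _
    set ω : ℂ := Complex.exp (I * α) with hω
    have hωn : ‖ω‖ = 1 := by
      rw [hω, mul_comm, Complex.norm_exp_ofReal_mul_I]
    have hω1 : ‖ω - 1‖ ≤ d / 2 := by
      have := Real.norm_exp_I_mul_ofReal_sub_one_le (x := α)
      rw [Real.norm_of_nonneg hα0.le] at this
      exact this.trans (min_le_left _ _)
    have hωc : ‖(starRingEnd ℂ) ω - 1‖ ≤ d / 2 := by
      have e : (starRingEnd ℂ) ω - 1 = (starRingEnd ℂ) (ω - 1) := by simp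
      rw [e, RCLike.norm_conj]
      exact hω1
    have hωcn : ‖(starRingEnd ℂ) ω‖ = 1 := by rw [RCLike.norm_conj, hωn]
    have hsum : ω ^ (n + 1) + ((starRingEnd ℂ) ω) ^ (n + 1) = 2 * (c : ℂ) := by
      have e1 : ω ^ (n + 1) = Complex.exp ((((n + 1 : ℕ) : ℝ) * α : ℝ) * I) := by
        rw [hω, ← Complex.exp_nat_mul]
        congr 1
        push_cast
        ring
      have e2 : ((starRingEnd ℂ) ω) ^ (n + 1) = (starRingEnd ℂ) (ω ^ (n + 1)) := by rw [map_pow]
      rw [e2, Complex.add_conj, e1, Complex.exp_ofReal_mul_I_re, hc]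
      push_cast
      ring
    have h1c : 0 < 1 - c := by linarith
    refine ⟨2 * A / (1 - c), q, by positivity, hq0, hq1, fun L => ?_⟩
    obtain ⟨κ, K, h1, ⟨P, p1, p2⟩, h3⟩ := h L
    refine ⟨κ, fun v => (K (v * ω) + K (v * (starRingEnd ℂ) ω) - 2 * c * K v) / (2 * (1 - c)), h1, ?_, ?_⟩
    · refine ⟨Polynomial.C (1 / (2 * (1 - c)) : ℂ) * (P.comp (Polynomial.C ω * X) +
        P.comp (Polynomial.C ((starRingEnd ℂ) ω) * X) - Polynomial.C (2 * c : ℂ) * P), ?_, ?_⟩
      · intro m hm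
        rw [coeff_C_mul, coeff_sub, coeff_add, comp_C_mul_X_coeff, comp_C_mul_X_coeff, coeff_C_mul]
        rcases Nat.lt_succ_iff_lt_or_eq.1 hm with h | h
        · rw [p1 m h]
          ring
        · rw [h]
          have : P.coeff (n + 1) * ω ^ (n + 1) + P.coeff (n + 1) * ((starRingEnd ℂ) ω) ^ (n + 1) -
              2 * (c : ℂ) * P.coeff (n + 1) = 0 := by
            linear_combination P.coeff (n + 1) * hsum
          rw [this, mul_zero]
      · intro v
        rw [eval_mul, eval_sub, eval_add, eval_comp, eval_comp, eval_mul, eval_mul, eval_mul, eval_C, eval_C,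
          eval_C, eval_C, eval_X]
        simp only []
        rw [p2, p2, p2]
        have e1 : (1 / (2 * (1 - c)) : ℂ) = ((1 / (2 * (1 - c)) : ℝ) : ℂ) := by push_cast; rfl
        have e2 : (2 * c : ℂ) = ((2 * c : ℝ) : ℂ) := by push_cast; rfl
        rw [e1, e2, Complex.re_ofReal_mul, Complex.sub_re, Complex.add_re, Complex.re_ofReal_mul,
          mul_comm v ω, mul_comm v ((starRingEnd ℂ) ω)]
        field_simp
        ring
    · intro v hv
      have n1 : ‖v * ω‖ = 1 := by rw [norm_mul, hv, hωn, one_mul]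
      have n2 : ‖v * (starRingEnd ℂ) ω‖ = 1 := by rw [norm_mul, hv, hωcn, one_mul]
      have key : ∀ x : ℝ, 0 ≤ x → |K (v * ω)| ≤ x → |K (v * (starRingEnd ℂ) ω)| ≤ x → |K v| ≤ x →
          |(K (v * ω) + K (v * (starRingEnd ℂ) ω) - 2 * c * K v) / (2 * (1 - c))| ≤ 2 * x / (1 - c) := by
        intro x hx k1 k2 k3
        rw [abs_div, abs_of_pos (by linarith : 0 < 2 * (1 - c)), div_le_div_iff₀ (by linarith) h1c]
        have k4 : |2 * c * K v| ≤ 2 * x := by
          rw [abs_mul, abs_mul, abs_of_pos (two_pos)]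
          have : |c| ≤ 1 := abs_le.2 ⟨hcm, hc1.le⟩
          nlinarith [abs_nonneg (K v), abs_nonneg c]
        have k5 : |K (v * ω) + K (v * (starRingEnd ℂ) ω) - 2 * c * K v| ≤ 4 * x := by
          have a1 := abs_sub (K (v * ω) + K (v * (starRingEnd ℂ) ω)) (2 * c * K v)
          have a2 := abs_add_le (K (v * ω)) (K (v * (starRingEnd ℂ) ω))
          linarith
        nlinarith
      have m1 := h3 _ n1
      have m2 := h3 _ n2
      have m3 := h3 _ hv
      refine ⟨?_, fun hd' => ?_⟩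
      · exact key A hA.le m1.1 m2.1 m3.1
      · have far : ∀ w : ℂ, ‖w - 1‖ ≤ d / 2 → d / 2 ≤ ‖v * w - 1‖ := by
          intro w hw
          have e : v - 1 = (v * w - 1) - v * (w - 1) := by ring
          have b1 : ‖v - 1‖ ≤ ‖v * w - 1‖ + ‖v * (w - 1)‖ := by
            rw [e]; exact norm_sub_le _ _
          rw [norm_mul, hv, one_mul] at b1
          linarith
        have := key (A * q ^ L) (by positivity) (m1.2 (far _ hω1)) (m2.2 (far _ hωc)) (m3.2 (by linarith))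
        refine this.trans (le_of_eq ?_)
        ring

lemma ev_small {q η : ℝ} (hq0 : 0 ≤ q) (hq1 : q < 1) (hη : 0 < η) :
    ∀ᶠ L : ℕ in atTop, ((L : ℝ) + 1) * q ^ L < η := by
  have h1 := tendsto_self_mul_const_pow_of_lt_one hq0 hq1
  have h2 := tendsto_pow_atTop_nhds_zero_of_lt_one hq0 hq1
  have h3 := h1.add h2
  rw [add_zero] at h3
  filter_upwards [(tendsto_order.1 h3).2 η hη] with L hL
  have : ((L : ℝ) + 1) * q ^ L = L * q ^ L + q ^ L := by ring
  rw [this]
  exact hL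

/-- minorants of small arcs -/
theorem ker_low (n : ℕ) {d : ℝ} (hd : 0 < d) (hd2 : d ≤ 2) : ∃ (κ₀ : ℝ) (K : ℂ → ℝ), 0 < κ₀ ∧
    TP (n + 1) κ₀ K ∧ ∀ v, ‖v‖ = 1 → K v ≤ 1 ∧ (d ≤ ‖v - 1‖ → K v ≤ 0) := by
  obtain ⟨A, q, hA, hq0, hq1, h⟩ := ker_ind n d hd hd2
  obtain ⟨L, hL⟩ := (ev_small hq0 hq1 (η := 1 / A) (by positivity)).exists
  obtain ⟨κ, K, h1, h2, h3⟩ := h L
  refine ⟨1 / A * (κ + -(A * q ^ L)), fun v => 1 / A * (K v + -(A * q ^ L)), ?_,
    (h2.add (TP.const _)).mul _, fun v hv => ?_⟩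
  · have hL1 : (0 : ℝ) < (L : ℝ) + 1 := by positivity
    have h4 : A * q ^ L < κ := by
      rw [lt_div_iff₀ hA] at hL
      have : A * q ^ L * (L + 1) < κ * (L + 1) := by linarith
      exact lt_of_mul_lt_mul_right this hL1.le
    have : 0 < 1 / A := by positivity
    exact mul_pos this (by linarith)
  · obtain ⟨k1, k2⟩ := h3 v hv
    have hq : 0 ≤ A * q ^ L := by positivity
    constructor
    · have := (abs_le.1 k1).2
      calc 1 / A * (K v + -(A * q ^ L)) ≤ 1 / A * A := by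
            apply mul_le_mul_of_nonneg_left _ (by positivity)
            linarith
        _ = 1 := by field_simp
    · intro hv'
      have := (abs_le.1 (k2 hv')).2
      apply mul_nonpos_of_nonneg_of_nonpos (by positivity)
      linarith

end Pool.Agent.U922.NS
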