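import Pool.Agent.W188.QS.Asm3
import Pool.Agent.W188.QS.All5
import Pool.Agent.W885.QS.Qs
import Pool.Agent.W571.QS.Fold

/-!
# Twisted moments `∫ |ζ|^(2k) (ζ/ζ̄)^N` with Gaussian weights (helper922)

The contour argument is that of the starting library (`W885.QS.qs_qs`), applied to the first term of the geometric series.
-/

set_option autoImplicit false

open Complex MeasureTheory Set Filter Topology

namespace Pool.Agent.U922.NS

open Pool.Agent.W188.QS Pool.Agent.W885.QS Pool.Agent.W571.QS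

theorem a_basic : StBasic := Pool.Agent.W22.QS.qs_basic
theorem a_i3 : StI3 := Pool.Agent.W253.QS.qs_i3
theorem a_edge : StEdge := Pool.Agent.W723.QS.qs_edge a_line

/-- `F G XX^{-N}` -/
noncomputable def LF (k N : ℕ) (T Δ : ℝ) (s : ℂ) : ℂ := FF k s * GG T Δ s * ww 1 N s

lemma ww_one_norm (N : ℕ) (s : ℂ) : ‖ww 1 N s‖ = ‖XX s‖⁻¹ ^ N := by
  unfold ww
  rw [norm_mul, norm_one, one_mul, norm_pow, norm_inv]

lemma LF_diff (k N : ℕ) (T Δ : ℝ) {s : ℂ} (hs : 1 ≤ s.im) : DifferentiableAt ℂ (LF k N T Δ) s :=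
  (PF_diff a_basic k T Δ hs).mul (ww_diff a_basic 1 N hs)

/-- the integral on the line `Re s = 4` -/
theorem line4 (k N : ℕ) (hk : 1 ≤ k) (hkN : k ≤ N + 1) : ∃ B C T₀ : ℝ, 1 ≤ B ∧ 0 < C ∧
    ∀ (T Δ : ℝ), T₀ ≤ T → Real.log T ≤ Δ → B * Δ * √(Real.log T) ≤ T →
    ‖∫ t in (T / 2)..(3 * T / 2), LF k N T Δ (fp t)‖ ≤
      C * (Δ + if N + 1 = k then T * Real.log T ^ (2 * k - 1) else 0) := by
  obtain ⟨-, -, -, -, -, -, hww, -, ⟨K, hK0, hK⟩, -⟩ := a_line
  obtain ⟨C3, hC3, hI3⟩ := a_i3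
  obtain ⟨BJ, CJ, TJ, hJ⟩ := a_jj k hk
  set E := Real.exp (49 / 4) with hE
  set M1 := 4 ^ k * E with hM1
  set M2 := 4 ^ k * |C3| * E * (384 * Real.exp 2) with hM2
  have hE0 : 0 < E := Real.exp_pos _
  have hM10 : 0 ≤ M1 := by positivity
  have hM20 : 0 ≤ M2 := by positivity
  refine ⟨max BJ 20, M1 * √Real.pi + M2 * (√Real.pi * 2) + |CJ| + 1,
    max TJ (max 8 (8 * Real.exp K + 8)), ?_, by positivity, ?_⟩
  · exact (by norm_num : (1 : ℝ) ≤ 20).trans (le_max_right _ _)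
  intro T Δ hT hlog hB
  have hTJ : TJ ≤ T := (le_max_left _ _).trans hT
  have hT8 : 8 ≤ T := (le_max_left _ _).trans ((le_max_right _ _).trans hT)
  have hTK : 8 * Real.exp K + 8 ≤ T := (le_max_right _ _).trans ((le_max_right _ _).trans hT)
  have hlog1 : 1 ≤ Real.log T := by
    rw [Real.le_log_iff_exp_le (by linarith)]
    have := Real.exp_one_lt_d9
    linarith
  have hΔ : 1 ≤ Δ := by linarith
  have hΔ0 : 0 < Δ := by linarith
  set a := T / 2 with ha
  set b := 3 * T / 2 with hb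
  have hab : a ≤ b := by rw [ha, hb]; linarith
  have hpi : 0 < √Real.pi := Real.sqrt_pos.mpr Real.pi_pos
  -- facts on `[a, b]`
  have hpt : ∀ t ∈ Icc a b, 2 ≤ ‖XX (fp t)‖ ∧ 1 ≤ t := by
    intro t ht
    have h1 : 2 * Real.exp K + 1 ≤ t := by
      have := Real.exp_pos K
      linarith [ht.1]
    have hexpK : 0 < Real.exp K := Real.exp_pos K
    have h2 : 1 ≤ t := by linarith
    have h4 := (hK (fp t) (by rw [fp_re]; norm_num) (by rw [fp_re]) (by rw [fp_im]; exact h2)).1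
    rw [fp_re, fp_im] at h4
    refine ⟨le_trans ?_ h4, h2⟩
    have h5 : t ≤ t ^ ((4 : ℝ) - 1 / 2) := by
      calc t = t ^ (1 : ℝ) := (Real.rpow_one t).symm
        _ ≤ _ := Real.rpow_le_rpow_of_exponent_le h2 (by norm_num)
    have h6 : Real.exp (-K) * (2 * Real.exp K) = 2 := by
      rw [Real.exp_neg]
      field_simp
    calc (2 : ℝ) = Real.exp (-K) * (2 * Real.exp K) := h6.symm
      _ ≤ Real.exp (-K) * t ^ ((4 : ℝ) - 1 / 2) := by
          apply mul_le_mul_of_nonneg_left _ (Real.exp_pos _).le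
          linarith
  have hFF : ∀ t, ‖FF k (fp t)‖ ≤ 4 ^ k * ‖XX (fp t)‖ ^ k := by
    intro t
    unfold FF
    rw [norm_mul, norm_pow, norm_pow]
    apply mul_le_mul_of_nonneg_right _ (by positivity)
    calc ‖riemannZeta (fp t)‖ ^ (2 * k) ≤ 2 ^ (2 * k) :=
          pow_le_pow_left₀ (norm_nonneg _) (zeta_bd t) _
      _ = 4 ^ k := by rw [pow_mul]; norm_num
  have hL0 : 0 ≤ T * Real.log T ^ (2 * k - 1) := by positivity
  by_cases hcase : N + 1 = k
  · -- `k = N + 1`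
    rw [if_pos hcase]
    set f : ℝ → ℂ := fun t => riemannZeta (fp t) ^ (2 * k) * XX (fp t) * GG T Δ (fp t) with hf
    have hX0 : ∀ t ∈ Icc a b, XX (fp t) ≠ 0 := by
      intro t ht h0
      have := (hpt t ht).1
      rw [h0, norm_zero] at this
      norm_num at this
    have hdec : ∀ t ∈ Icc a b, LF k N T Δ (fp t) = f t := by
      intro t ht
      simp only [hf]
      unfold LF FF ww
      rw [← hcase, pow_succ (XX (fp t)) N]
      have h2 : XX (fp t) ^ N * (XX (fp t))⁻¹ ^ N = 1 := by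
        rw [← mul_pow, mul_inv_cancel₀ (hX0 t ht), one_pow]
      calc riemannZeta (fp t) ^ (2 * (N + 1)) * (XX (fp t) ^ N * XX (fp t)) * GG T Δ (fp t) *
          (1 * (XX (fp t))⁻¹ ^ N) = riemannZeta (fp t) ^ (2 * (N + 1)) * XX (fp t) * GG T Δ (fp t) *
            (XX (fp t) ^ N * (XX (fp t))⁻¹ ^ N) := by ring
        _ = _ := by rw [h2, mul_one]
    have hlogT : BJ * Δ * √(Real.log T) ≤ T := by
      exact (mul_le_mul_of_nonneg_right (mul_le_mul_of_nonneg_right (le_max_left BJ 20) hΔ0.le)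
        (Real.sqrt_nonneg _)).trans hB
    have hΔT : Δ ≤ T := by
      have hs1 : 1 ≤ √(Real.log T) := by
        rw [Real.one_le_sqrt]; exact hlog1
      have h20 : (20 : ℝ) ≤ max BJ 20 := le_max_right _ _
      have h1 : Δ * 1 ≤ (max BJ 20 * Δ) * √(Real.log T) := by
        apply mul_le_mul _ hs1 zero_le_one (by positivity)
        nlinarith
      linarith
    have hfi : Integrable f := by
      have h1 := (hI3 T Δ hΔ hΔT 1 le_rfl).1
      have h2 : (fun t : ℝ => ((1 : ℕ) : ℂ) ^ (-fp t) * XX (fp t) * GG T Δ (fp t)) =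
          fun t => XX (fp t) * GG T Δ (fp t) := by
        funext t
        simp
      rw [h2] at h1
      have h4 := h1.bdd_mul (c := 2 ^ (2 * k)) (f := fun t => riemannZeta (fp t) ^ (2 * k))
        ((zeta_cont.pow _).aestronglyMeasurable) (Eventually.of_forall fun t => by
          rw [norm_pow]
          exact pow_le_pow_left₀ (norm_nonneg _) (zeta_bd t) _)
      refine h4.congr (Eventually.of_forall fun t => ?_)
      simp only [hf]
      ring
    have hint : ∫ t in a..b, LF k N T Δ (fp t) = ∫ t in a..b, f t := by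
      apply intervalIntegral.integral_congr
      intro t ht
      rw [uIcc_of_le hab] at ht
      exact hdec t ht
    have hfb : ‖∫ t in a..b, f t‖ ≤ |CJ| * (T * Real.log T ^ (2 * k - 1)) +
        M2 * (√Real.pi * (2 * Δ)) := by
      have h1 := integral_add_compl (μ := volume) (s := Ioc a b) measurableSet_Ioc hfi
      rw [← intervalIntegral.integral_of_le hab] at h1
      have h2 : ∫ t in a..b, f t = (∫ t, f t) - ∫ t in (Ioc a b)ᶜ, f t := by
        rw [← h1]; ring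
      rw [h2]
      refine (norm_sub_le _ _).trans (add_le_add ?_ ?_)
      · refine (hJ T Δ hTJ hlog hlogT).trans ?_
        rw [mul_assoc]
        apply mul_le_mul_of_nonneg_right (le_abs_self _)
        positivity
      · apply bound_compl f a b T (2 * Δ) M2 (by positivity) hM20
        intro t ht
        have h4 : T / 4 ≤ |t - T| := by
          rw [mem_Ioc, not_and, not_le] at ht
          by_cases hta : a < t
          · have := ht hta
            rw [abs_of_nonneg (by linarith)]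
            linarith
          · rw [abs_of_nonpos (by linarith)]
            linarith
        have h5 := tail_pt (le_max_right BJ 20) hlog1 (by linarith) hΔ hB h4
        simp only [hf]
        rw [norm_mul, norm_mul, norm_pow]
        have h6 : ‖riemannZeta (fp t)‖ ^ (2 * k) ≤ 4 ^ k := by
          calc ‖riemannZeta (fp t)‖ ^ (2 * k) ≤ 2 ^ (2 * k) :=
                pow_le_pow_left₀ (norm_nonneg _) (zeta_bd t) _
            _ = 4 ^ k := by rw [pow_mul]; norm_num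
        have h7 : ‖XX (fp t)‖ ≤ |C3| * (1 + |t|) ^ 4 :=
          (hC3 t).trans (mul_le_mul_of_nonneg_right (le_abs_self _) (by positivity))
        have h8 := GG_norm T Δ t hΔ
        calc ‖riemannZeta (fp t)‖ ^ (2 * k) * ‖XX (fp t)‖ * ‖GG T Δ (fp t)‖
            ≤ 4 ^ k * (|C3| * (1 + |t|) ^ 4) * (E * gg T Δ t) := by
              apply mul_le_mul _ h8 (norm_nonneg _) (by positivity)
              exact mul_le_mul h6 h7 (norm_nonneg _) (by positivity)
          _ = 4 ^ k * |C3| * E * ((1 + |t|) ^ 4 * gg T Δ t) := by ring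
          _ ≤ 4 ^ k * |C3| * E * (384 * Real.exp 2 * gg T (2 * Δ) t) :=
              mul_le_mul_of_nonneg_left h5 (by positivity)
          _ = M2 * gg T (2 * Δ) t := by rw [hM2]; ring
    rw [hint]
    refine hfb.trans ?_
    have h1 : 0 ≤ M1 * √Real.pi := by positivity
    have h2 : 0 ≤ M2 * (√Real.pi * 2) := by positivity
    have h4 := abs_nonneg CJ
    nlinarith [mul_nonneg h1 hL0, mul_nonneg h2 hL0, mul_nonneg h4 hΔ0.le, mul_nonneg h1 hΔ0.le]
  · -- `k ≤ N`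
    rw [if_neg hcase, add_zero]
    have hkN' : k ≤ N := by omega
    have h1 := bound_int (fun t => LF k N T Δ (fp t)) a b T Δ M1 hab hΔ0 hM10 (by
      intro t ht
      show ‖FF k (fp t) * GG T Δ (fp t) * ww 1 N (fp t)‖ ≤ _
      rw [norm_mul, norm_mul, ww_one_norm]
      have h1 := GG_norm T Δ t hΔ
      have h2 := hFF t
      have hX : 1 ≤ ‖XX (fp t)‖ := by linarith [(hpt t ht).1]
      have h5 : ‖XX (fp t)‖ ^ k * ‖XX (fp t)‖⁻¹ ^ N ≤ 1 := pw hX hkN'
      have hg := gg_pos T Δ t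
      calc ‖FF k (fp t)‖ * ‖GG T Δ (fp t)‖ * ‖XX (fp t)‖⁻¹ ^ N
          ≤ (4 ^ k * ‖XX (fp t)‖ ^ k) * (E * gg T Δ t) * ‖XX (fp t)‖⁻¹ ^ N := by
            apply mul_le_mul_of_nonneg_right _ (by positivity)
            exact mul_le_mul h2 h1 (norm_nonneg _) (by positivity)
        _ = 4 ^ k * E * gg T Δ t * (‖XX (fp t)‖ ^ k * ‖XX (fp t)‖⁻¹ ^ N) := by ring
        _ ≤ 4 ^ k * E * gg T Δ t * 1 := by
            apply mul_le_mul_of_nonneg_left h5 (by positivity)
        _ = M1 * gg T Δ t := by rw [hM1]; ring)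
    refine h1.trans ?_
    have h2 : 0 ≤ M2 * (√Real.pi * 2) := by positivity
    have h3 : 0 ≤ M1 * √Real.pi := by positivity
    have h4 := abs_nonneg CJ
    nlinarith [mul_nonneg h2 hΔ0.le, mul_nonneg h4 hΔ0.le]

/-- Cauchy's theorem -/
theorem cauchyL (k N : ℕ) (T Δ a b : ℝ) (ha : 100 ≤ a) (hab : a < b) :
    (∫ x in (1 / 2 : ℝ)..4, LF k N T Δ (⟨x, a⟩ : ℂ)) - (∫ x in (1 / 2 : ℝ)..4, LF k N T Δ (⟨x, b⟩ : ℂ))
      + I * (∫ y in a..b, LF k N T Δ (⟨4, y⟩ : ℂ)) - I * (∫ y in a..b, LF k N T Δ (⟨1 / 2, y⟩ : ℂ))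
      = 0 := by
  have h2 := Complex.integral_boundary_rect_eq_zero_of_differentiableOn (LF k N T Δ)
    (⟨1 / 2, a⟩ : ℂ) (⟨4, b⟩ : ℂ) (by
      intro s hs
      refine (LF_diff k N T Δ ?_).differentiableWithinAt
      have h3 := hs.2
      simp only [Set.mem_preimage] at h3
      rw [Set.uIcc_of_le hab.le] at h3
      linarith [h3.1])
  simp only [smul_eq_mul] at h2
  have h3 : ∀ x y : ℝ, (x : ℂ) + (y : ℂ) * I = (⟨x, y⟩ : ℂ) := fun x y =>
    (Complex.mk_eq_add_mul_I x y).symm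
  simp only [h3] at h2
  exact h2

lemma hor_edge {k N : ℕ} {T Δ a : ℝ} (ha : 100 ≤ a)
    (hM : ∀ σ : ℝ, 1 / 2 ≤ σ → σ ≤ 4 → ‖FF k (⟨σ, a⟩ : ℂ) * GG T Δ (⟨σ, a⟩ : ℂ)‖ ≤ 1) :
    ‖∫ x in (1 / 2 : ℝ)..4, LF k N T Δ (⟨x, a⟩ : ℂ)‖ ≤ 4 := by
  obtain ⟨-, hX1, -, -, -, hX, -⟩ := a_line
  have h2 : ∀ x ∈ Set.uIoc (1 / 2 : ℝ) 4, ‖LF k N T Δ (⟨x, a⟩ : ℂ)‖ ≤ 1 := by
    intro x hx
    rw [Set.uIoc_of_le (by norm_num)] at hx
    unfold LF
    rw [norm_mul, ww_one_norm]
    have h3 := hM x hx.1.le hx.2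
    have h4 : 1 < ‖XX (⟨x, a⟩ : ℂ)‖ := hX _ hx.1 hx.2 (by show (50 : ℝ) ≤ a; linarith)
    have h5 : ‖XX (⟨x, a⟩ : ℂ)‖⁻¹ ^ N ≤ 1 := pow_le_one₀ (by positivity) (inv_le_one_of_one_le₀ h4.le)
    calc _ ≤ 1 * (1 : ℝ) := mul_le_mul h3 h5 (by positivity) zero_le_one
      _ = 1 := by norm_num
  have h3 := intervalIntegral.norm_integral_le_of_norm_le_const h2
  have h4 : |(4 : ℝ) - 1 / 2| ≤ 4 := by norm_num [abs_le]
  linarith

/-- **The twisted moment with a Gaussian weight.** -/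
theorem twist (k N : ℕ) (hk : 1 ≤ k) (hkN : k ≤ N + 1) : ∃ B C T₀ : ℝ, 1 ≤ B ∧ 0 < C ∧
    ∀ (T Δ : ℝ), T₀ ≤ T → Real.log T ≤ Δ → B * Δ * √(Real.log T) ≤ T →
    ‖∫ t in (T / 2)..(3 * T / 2), ((Zk k t * gg T Δ t : ℝ) : ℂ) * ww 1 N (cp t)‖ ≤
      C * (Δ + if N + 1 = k then T * Real.log T ^ (2 * k - 1) else 0) := by
  obtain ⟨B1, C1, T1, hB1, hC1, h1⟩ := line4 k N hk hkN
  obtain ⟨B2, T2, hB2, hT2, h2⟩ := a_edge k 3
  obtain ⟨-, -, -, hF, hG, -⟩ := a_line
  refine ⟨max B1 B2, C1 + 8, max (max T1 T2) 300, hB1.trans (le_max_left _ _), by positivity,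
    fun T Δ hT hlog hB => ?_⟩
  have hTT1 : T1 ≤ T := ((le_max_left _ _).trans (le_max_left _ _)).trans hT
  have hTT2 : T2 ≤ T := ((le_max_right _ _).trans (le_max_left _ _)).trans hT
  have hT300 : 300 ≤ T := (le_max_right _ _).trans hT
  have hlog1 : 1 ≤ Real.log T := by
    rw [Real.le_log_iff_exp_le (by linarith)]
    have := Real.exp_one_lt_d9
    linarith
  have hΔ : 1 ≤ Δ := by linarith
  have hs0 : 0 ≤ √(Real.log T) := Real.sqrt_nonneg _
  have hb1 : B1 * Δ * √(Real.log T) ≤ T := le_trans (by gcongr; exact le_max_left _ _) hB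
  have hb2 : B2 * Δ * √(Real.log T) ≤ T := le_trans (by gcongr; exact le_max_right _ _) hB
  have hc := cauchyL k N T Δ (T / 2) (3 * T / 2) (by linarith) (by linarith)
  have hT3 : T ^ (-(3 : ℝ)) ≤ 1 := Real.rpow_le_one_of_one_le_of_nonpos (by linarith) (by norm_num)
  have e1 := hor_edge (k := k) (N := N) (T := T) (Δ := Δ) (a := T / 2) (by linarith) (fun σ h3 h4 =>
    (h2 T Δ hTT2 hΔ hb2 (T / 2) (Or.inl (by simp)) σ h3 h4).trans hT3)
  have e2 := hor_edge (k := k) (N := N) (T := T) (Δ := Δ) (a := 3 * T / 2) (by linarith) (fun σ h3 h4 =>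
    (h2 T Δ hTT2 hΔ hb2 (3 * T / 2) (Or.inr (by simp)) σ h3 h4).trans hT3)
  have e3 : ∫ y in (T / 2)..(3 * T / 2), LF k N T Δ (⟨1 / 2, y⟩ : ℂ) =
      ∫ t in (T / 2)..(3 * T / 2), ((Zk k t * gg T Δ t : ℝ) : ℂ) * ww 1 N (cp t) := by
    apply intervalIntegral.integral_congr
    intro t ht
    rw [uIcc_of_le (by linarith)] at ht
    simp only []
    rw [← cp_eq t]
    unfold LF
    rw [hF t (by linarith [ht.1]) k, hG]
    push_cast
    rfl
  have e4 : ∫ y in (T / 2)..(3 * T / 2), LF k N T Δ (⟨4, y⟩ : ℂ) =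
      ∫ t in (T / 2)..(3 * T / 2), LF k N T Δ (fp t) := by
    apply intervalIntegral.integral_congr
    intro t ht
    simp only []
    rw [fp_eq]
  rw [e3, e4] at hc
  have h5 := h1 T Δ hTT1 hlog hb1
  set A1 := ∫ x in (1 / 2 : ℝ)..4, LF k N T Δ (⟨x, T / 2⟩ : ℂ)
  set A2 := ∫ x in (1 / 2 : ℝ)..4, LF k N T Δ (⟨x, 3 * T / 2⟩ : ℂ)
  set A3 := ∫ t in (T / 2)..(3 * T / 2), LF k N T Δ (fp t)
  set A4 := ∫ t in (T / 2)..(3 * T / 2), ((Zk k t * gg T Δ t : ℝ) : ℂ) * ww 1 N (cp t)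
  have h6 : I * A4 = A1 - A2 + I * A3 := by
    linear_combination (-1 : ℂ) * hc
  have h7 : ‖A4‖ ≤ 4 + 4 + ‖A3‖ := by
    have h8 : ‖I * A4‖ = ‖A4‖ := by rw [norm_mul, Complex.norm_I, one_mul]
    rw [← h8, h6]
    refine (norm_add_le _ _).trans ?_
    rw [norm_mul, Complex.norm_I, one_mul]
    have := norm_sub_le A1 A2
    linarith
  have hL0 : 0 ≤ (if N + 1 = k then T * Real.log T ^ (2 * k - 1) else 0 : ℝ) := by
    split_ifs
    · positivity
    · exact le_rfl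
  nlinarith [norm_nonneg A3]

end Pool.Agent.U922.NS
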