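import Pool.Agent.U922.NS.TP

/-!
# Majorants of arcs with nearly optimal mean value (helper922)
-/

set_option autoImplicit false

open Complex Finset Filter Topology

namespace Pool.Agent.U922.NS

/-- the number of `N`-th roots of unity in an arc -/
lemma count {a : ℝ} (ha0 : 0 ≤ a) (ha : a ≤ Real.pi / 2) {N : ℕ} (hN : 1 ≤ N) :
    (((range N).filter fun j => ‖Complex.exp (2 * Real.pi * I / N) ^ j - 1‖ < 2 * Real.sin a).card : ℝ) ≤
      N * (2 / Real.pi * a) + 2 := by
  classical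
  have hpi := Real.pi_pos
  have hN0 : (0 : ℝ) < N := by exact_mod_cast hN
  set x : ℝ := N * a / Real.pi with hx
  have hx0 : 0 ≤ x := by positivity
  -- the norm
  have hnorm : ∀ j : ℕ, j < N → ‖Complex.exp (2 * Real.pi * I / N) ^ j - 1‖ = 2 * Real.sin (Real.pi * j / N) := by
    intro j hj
    have e1 : Complex.exp (2 * Real.pi * I / N) ^ j = Complex.exp (I * ((2 * Real.pi * j / N : ℝ) : ℂ)) := by
      rw [← Complex.exp_nat_mul]
      congr 1
      push_cast
      ring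
    rw [e1, Complex.norm_exp_I_mul_ofReal_sub_one, Real.norm_of_nonneg]
    · congr 2
      ring
    · have : (j : ℝ) ≤ N := by exact_mod_cast hj.le
      have h2 : 2 * Real.pi * j / N / 2 = Real.pi * (j / N) := by ring
      rw [h2]
      apply mul_nonneg two_pos.le
      apply Real.sin_nonneg_of_nonneg_of_le_pi (by positivity)
      have : (j : ℝ) / N ≤ 1 := by rw [div_le_one hN0]; exact this
      nlinarith
  have hsub : ((range N).filter fun j => ‖Complex.exp (2 * Real.pi * I / N) ^ j - 1‖ < 2 * Real.sin a) ⊆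
      range ⌈x⌉₊ ∪ (range ⌈x⌉₊).image (fun j => N - j) := by
    intro j hj
    rw [mem_filter, mem_range] at hj
    obtain ⟨hjN, hj⟩ := hj
    rw [hnorm j hjN] at hj
    have hj' : Real.sin (Real.pi * j / N) < Real.sin a := by linarith
    have hjN' : (j : ℝ) < N := by exact_mod_cast hjN
    rw [mem_union, mem_image]
    simp only [mem_range, Nat.lt_ceil]
    by_contra hcon
    push Not at hcon
    obtain ⟨h1, h2⟩ := hcon
    have h3 : x ≤ j := h1
    have h4 : x ≤ (N - j : ℕ) := by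
      by_contra h5
      exact h2 (N - j) (lt_of_not_ge h5) (by omega)
    rw [Nat.cast_sub hjN.le] at h4
    have h5 : a ≤ Real.pi * j / N := by
      rw [hx, div_le_iff₀ hpi] at h3
      rw [le_div_iff₀ hN0]
      linarith
    have h6 : Real.pi * j / N ≤ Real.pi - a := by
      rw [hx, div_le_iff₀ hpi] at h4
      rw [div_le_iff₀ hN0]
      nlinarith
    have h7 : Real.sin a ≤ Real.sin (Real.pi * j / N) := by
      rcases le_total (Real.pi * j / N) (Real.pi / 2) with h | h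
      · exact Real.sin_le_sin_of_le_of_le_pi_div_two (by linarith) h h5
      · rw [← Real.sin_pi_sub (Real.pi * j / N)]
        exact Real.sin_le_sin_of_le_of_le_pi_div_two (by linarith) (by linarith) (by linarith)
    linarith
  have hcard := Finset.card_le_card hsub
  have h1 : (range ⌈x⌉₊ ∪ (range ⌈x⌉₊).image (fun j => N - j)).card ≤ ⌈x⌉₊ + ⌈x⌉₊ := by
    refine (Finset.card_union_le _ _).trans ?_
    have := Finset.card_image_le (s := range ⌈x⌉₊) (f := fun j => N - j)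
    rw [card_range] at this ⊢
    omega
  have h2 : (⌈x⌉₊ : ℝ) < x + 1 := Nat.ceil_lt_add_one hx0
  have h3 : (((range N).filter fun j => ‖Complex.exp (2 * Real.pi * I / N) ^ j - 1‖ < 2 * Real.sin a).card : ℝ) ≤
      ⌈x⌉₊ + ⌈x⌉₊ := by exact_mod_cast hcard.trans h1
  have h4 : x + x = N * (2 / Real.pi * a) := by rw [hx]; ring
  linarith

/-- majorants of arcs, all frequencies -/
theorem ker_up1 {δ η : ℝ} (h0 : 0 ≤ δ) (h1 : δ < 1) (hη : 0 < η) : ∃ (κ₀ : ℝ) (K : ℂ → ℝ), 0 ≤ κ₀ ∧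
    κ₀ ≤ 2 / Real.pi * Real.arcsin δ + η ∧ TP 1 κ₀ K ∧
      ∀ v, ‖v‖ = 1 → 0 ≤ K v ∧ (‖v - 1‖ ≤ 2 * δ → 1 ≤ K v) := by
  classical
  have hpi := Real.pi_pos
  -- a slightly larger arc
  obtain ⟨δ', hδ1, hδ2, hδ3⟩ : ∃ δ' : ℝ, δ < δ' ∧ δ' ≤ 1 ∧
      2 / Real.pi * Real.arcsin δ' ≤ 2 / Real.pi * Real.arcsin δ + η / 3 := by
    have hc : Tendsto (fun x => 2 / Real.pi * Real.arcsin x) (𝓝[>] δ) (𝓝 (2 / Real.pi * Real.arcsin δ)) :=
      ((Real.continuous_arcsin.tendsto δ).const_mul _).mono_left nhdsWithin_le_nhds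
    have h2 : ∀ᶠ x in 𝓝[>] δ, 2 / Real.pi * Real.arcsin x < 2 / Real.pi * Real.arcsin δ + η / 3 :=
      (tendsto_order.1 hc).2 _ (by linarith)
    have h3 : ∀ᶠ x in 𝓝[>] δ, x ∈ Set.Ioo δ 1 := Ioo_mem_nhdsGT h1
    obtain ⟨x, hx1, hx2⟩ := (h2.and h3).exists
    exact ⟨x, hx2.1, hx2.2.le, hx1.le⟩
  have hδ'0 : 0 < δ' := by linarith
  set a := Real.arcsin δ' with ha
  have ha0 : 0 ≤ a := Real.arcsin_nonneg.2 hδ'0.le
  have ha1 : a ≤ Real.pi / 2 := Real.arcsin_le_pi_div_two _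
  have hsin : Real.sin a = δ' := Real.sin_arcsin (by linarith) hδ2
  set e : ℝ := 2 * (δ' - δ) with he
  have he0 : 0 < e := by rw [he]; linarith
  have he2 : e ≤ 2 := by rw [he]; linarith
  set q : ℝ := 1 - e ^ 2 / 4 with hq
  have hq0 : 0 ≤ q := by rw [hq]; nlinarith
  have hq1 : q < 1 := by rw [hq]; nlinarith [mul_pos he0 he0]
  obtain ⟨L, hL1, hL2⟩ := ((ev_small hq0 hq1 (η := η / 3) (by positivity)).and
    (tendsto_natCast_atTop_atTop.eventually_ge_atTop (6 / η))).exists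
  obtain ⟨κ, B, b1, b2, b3, b4⟩ := base_ker L
  have hLp : (0 : ℝ) < (L : ℝ) + 1 := by positivity
  have hκ0 : 0 < κ := by
    by_contra h
    have : κ * (L + 1) ≤ 0 := mul_nonpos_of_nonpos_of_nonneg (not_lt.1 h) hLp.le
    linarith
  set ω : ℂ := Complex.exp (2 * Real.pi * I / ((L + 1 : ℕ) : ℂ)) with hω
  have hp : IsPrimitiveRoot ω (L + 1) := Complex.isPrimitiveRoot_exp (L + 1) (by omega)
  have hωn : ∀ j, ‖ω ^ j‖ = 1 := fun j => by rw [norm_pow, hp.norm'_eq_one (by omega), one_pow]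
  set J := (range (L + 1)).filter fun j => ‖ω ^ j - 1‖ < 2 * Real.sin a with hJ
  have hJc : (J.card : ℝ) ≤ ((L + 1 : ℕ) : ℝ) * (2 / Real.pi * a) + 2 := count ha0 ha1 (by omega)
  have hB0 : ∀ v, ‖v‖ = 1 → 0 ≤ B v := fun v hv => by
    rw [b3 v hv]
    have := (re_le hv).1
    apply pow_nonneg
    linarith
  set c : ℝ := 1 / (κ * (L + 1)) with hc
  have hc0 : 0 < c := by positivity
  have hc1 : c ≤ 1 := by
    rw [hc, div_le_one (by linarith)]
    exact b1
  refine ⟨c * (J.card * κ) + (L + 1) * q ^ L, fun v => c * (∑ j ∈ J, B (v * ω ^ j)) + (L + 1) * q ^ L,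
    by positivity, ?_, ?_, ?_⟩
  · have e1 : c * (J.card * κ) = J.card / (L + 1) := by
      rw [hc]; field_simp
    rw [e1]
    have h2 : (J.card : ℝ) / (L + 1) ≤ 2 / Real.pi * a + η / 3 := by
      rw [div_le_iff₀ hLp]
      push_cast at hJc
      have h3 : 2 ≤ η / 3 * (L + 1) := by
        rw [div_le_iff₀ hη] at hL2
        linarith
      nlinarith
    linarith
  · exact ((TP.sum J fun j _ => b2.rot (ω ^ j)).mul c).add (TP.const _)
  · intro v hv
    have hvj : ∀ j, ‖v * ω ^ j‖ = 1 := fun j => by rw [norm_mul, hv, hωn, one_mul]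
    constructor
    · have : 0 ≤ ∑ j ∈ J, B (v * ω ^ j) := Finset.sum_nonneg fun j _ => hB0 _ (hvj j)
      positivity
    · intro hd
      have h2 := b4 ω hp v
      rw [← Finset.sum_filter_add_sum_filter_not (range (L + 1)) (fun j => ‖ω ^ j - 1‖ < 2 * Real.sin a)] at h2
      have h3 : ∑ j ∈ (range (L + 1)).filter (fun j => ¬ ‖ω ^ j - 1‖ < 2 * Real.sin a), B (v * ω ^ j) ≤
          (L + 1) * q ^ L := by
        calc _ ≤ ∑ j ∈ (range (L + 1)).filter (fun j => ¬ ‖ω ^ j - 1‖ < 2 * Real.sin a), q ^ L := by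
              apply Finset.sum_le_sum
              intro j hj
              rw [mem_filter, not_lt, hsin] at hj
              rw [b3 _ (hvj j)]
              apply ker_off (hvj j) he0.le
              have e1 : ω ^ j - 1 = (v * ω ^ j - 1) - (v - 1) * ω ^ j := by ring
              have e2 : ‖ω ^ j - 1‖ ≤ ‖v * ω ^ j - 1‖ + ‖(v - 1) * ω ^ j‖ := by
                rw [e1]; exact norm_sub_le _ _
              rw [norm_mul, hωn, mul_one] at e2
              rw [he]
              linarith [hj.2]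
          _ ≤ ∑ j ∈ range (L + 1), q ^ L :=
              Finset.sum_le_sum_of_subset_of_nonneg (filter_subset _ _) fun _ _ _ => by positivity
          _ = (L + 1) * q ^ L := by
              rw [Finset.sum_const, card_range, nsmul_eq_mul]
              push_cast
              ring
      have h4 : κ * (L + 1) - (L + 1) * q ^ L ≤ ∑ j ∈ J, B (v * ω ^ j) := by
        rw [hJ]
        linarith
      have h5 : c * (κ * (L + 1)) = 1 := by
        rw [hc]; field_simp
      have h6 : 0 ≤ ((L : ℝ) + 1) * q ^ L := by positivity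
      have h7 : c * (κ * (L + 1) - (L + 1) * q ^ L) ≤ c * ∑ j ∈ J, B (v * ω ^ j) :=
        mul_le_mul_of_nonneg_left h4 hc0.le
      have h8 : c * ((L + 1) * q ^ L) ≤ 1 * ((L + 1) * q ^ L) := mul_le_mul_of_nonneg_right hc1 h6
      rw [mul_sub, h5] at h7
      linarith

/-- majorants of `n` equally spaced arcs, without the frequencies `1, …, n - 1` -/
theorem ker_up {n : ℕ} (hn : 1 ≤ n) {δ η : ℝ} (h0 : 0 ≤ δ) (h1 : δ < 1) (hη : 0 < η) :
    ∃ (κ₀ : ℝ) (K : ℂ → ℝ), 0 ≤ κ₀ ∧ κ₀ ≤ n * (2 / Real.pi * Real.arcsin δ) + η ∧ TP n κ₀ K ∧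
      ∀ v, ‖v‖ = 1 → 0 ≤ K v ∧
        ((∃ j ∈ range n, ‖v * Complex.exp (2 * Real.pi * I / (n : ℂ)) ^ j - 1‖ ≤ 2 * δ) → 1 ≤ K v) := by
  have hn0 : (0 : ℝ) < n := by exact_mod_cast hn
  obtain ⟨κ, K, k1, k2, k3, k4⟩ := ker_up1 h0 h1 (η := η / n) (by positivity)
  set ω : ℂ := Complex.exp (2 * Real.pi * I / (n : ℂ)) with hω
  have hp : IsPrimitiveRoot ω n := Complex.isPrimitiveRoot_exp n (by omega)
  have hωn : ∀ j, ‖ω ^ j‖ = 1 := fun j => by rw [norm_pow, hp.norm'_eq_one (by omega), one_pow]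
  refine ⟨n * κ, fun v => ∑ j ∈ range n, K (v * ω ^ j), by positivity, ?_, k3.symm hp, fun v hv => ?_⟩
  · calc n * κ ≤ n * (2 / Real.pi * Real.arcsin δ + η / n) := mul_le_mul_of_nonneg_left k2 hn0.le
      _ = _ := by field_simp
  · have hvj : ∀ j, ‖v * ω ^ j‖ = 1 := fun j => by rw [norm_mul, hv, hωn, one_mul]
    have h2 : ∀ j ∈ range n, 0 ≤ K (v * ω ^ j) := fun j _ => (k4 _ (hvj j)).1
    refine ⟨Finset.sum_nonneg h2, ?_⟩
    rintro ⟨j, hj, hd⟩
    have h3 := Finset.single_le_sum h2 hj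
    exact ((k4 _ (hvj j)).2 hd).trans h3

/-- the gaps between the arcs -/
theorem gaps {n : ℕ} (hn : 1 ≤ n) {α : ℝ} (h0 : 0 < α) (h1 : α < Real.pi / (2 * n)) {v : ℂ} (hv : ‖v‖ = 1)
    (h : ¬ ∃ j ∈ range n, ‖v * Complex.exp (2 * Real.pi * I / (n : ℂ)) ^ j - 1‖ ≤ 2 * Real.sin α) :
    ∃ j ∈ range n, ‖v * Complex.exp (-(Real.pi / n : ℝ) * I) * Complex.exp (2 * Real.pi * I / (n : ℂ)) ^ j - 1‖ ≤
      2 * Real.sin (Real.pi / (2 * n) - α) := by
  have hn0 : (0 : ℝ) < n := by exact_mod_cast hn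
  have hnC : (n : ℂ) ≠ 0 := by exact_mod_cast hn0.ne'
  have hpi := Real.pi_pos
  set ω : ℂ := Complex.exp (2 * Real.pi * I / (n : ℂ)) with hω
  have hp : IsPrimitiveRoot ω n := Complex.isPrimitiveRoot_exp n (by omega)
  have hω0 : ω ≠ 0 := Complex.exp_ne_zero _
  -- reduction of integral exponents
  have red : ∀ j : ℤ, ∃ m ∈ range n, ω ^ m = ω ^ j := by
    intro j
    have hnz : (n : ℤ) ≠ 0 := by omega
    have a1 := Int.emod_nonneg j hnz
    have a2 := Int.emod_lt_of_pos j (by omega : (0 : ℤ) < n)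
    refine ⟨(j % n).toNat, mem_range.2 (by omega), ?_⟩
    have e1 : ω ^ j = ω ^ (j % n) * (ω ^ (n : ℤ)) ^ (j / n) := by
      rw [← zpow_mul, ← zpow_add₀ hω0, Int.emod_add_mul_ediv]
    rw [e1, zpow_natCast, hp.pow_eq_one, one_zpow, mul_one, ← zpow_natCast, Int.toNat_of_nonneg a1]
  have hωz : ∀ j : ℤ, ω ^ j = Complex.exp ((2 * Real.pi * j / n : ℝ) * I) := by
    intro j
    rw [hω, ← Complex.exp_int_mul]
    congr 1
    push_cast
    ring
  set θ : ℝ := Complex.arg v with hθ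
  have hvθ : v = Complex.exp (θ * I) := by
    have := Complex.norm_mul_exp_arg_mul_I v
    rw [hv, Complex.ofReal_one, one_mul] at this
    exact this.symm
  set j : ℤ := round (-(θ * n / (2 * Real.pi))) with hj
  set ψ : ℝ := θ + 2 * Real.pi * j / n with hψ
  have hψ1 : |ψ| ≤ Real.pi / n := by
    have h2 := abs_sub_round (-(θ * n / (2 * Real.pi)))
    rw [← hj] at h2
    have e1 : ψ = -(2 * Real.pi / n) * (-(θ * n / (2 * Real.pi)) - j) := by
      rw [hψ]; field_simp; ring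
    rw [e1, abs_mul, abs_neg, abs_of_pos (by positivity)]
    calc 2 * Real.pi / n * |-(θ * n / (2 * Real.pi)) - j| ≤ 2 * Real.pi / n * (1 / 2) := by gcongr
      _ = Real.pi / n := by ring
  have hvj : ∀ x : ℝ, ‖Complex.exp (x * I) - 1‖ = 2 * |Real.sin (x / 2)| := by
    intro x
    rw [mul_comm (x : ℂ) I, Complex.norm_exp_I_mul_ofReal_sub_one, Real.norm_eq_abs, abs_mul, abs_two]
  have hψv : v * ω ^ j = Complex.exp (ψ * I) := by
    rw [hωz j]
    nth_rw 1 [hvθ]
    rw [← Complex.exp_add, hψ]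
    congr 1
    push_cast
    ring
  have hn2 : Real.pi / n / 2 = Real.pi / (2 * n) := by field_simp
  have hle2 : Real.pi / (2 * n) ≤ Real.pi / 2 := by
    apply div_le_div_of_nonneg_left hpi.le (by norm_num)
    have : (1 : ℝ) ≤ n := by exact_mod_cast hn
    linarith
  -- the angle is larger than `2 α`
  have h2 : 2 * α < |ψ| := by
    by_contra hcon
    push Not at hcon
    apply h
    obtain ⟨m, hm1, hm2⟩ := red j
    refine ⟨m, hm1, ?_⟩
    rw [hm2, hψv, hvj]
    have h3 : |Real.sin (ψ / 2)| ≤ Real.sin α := by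
      rw [abs_le] at hcon ⊢
      constructor
      · rw [← Real.sin_neg]
        apply Real.sin_le_sin_of_le_of_le_pi_div_two <;> linarith [hcon.1, hcon.2]
      · apply Real.sin_le_sin_of_le_of_le_pi_div_two <;> linarith [hcon.1, hcon.2]
    linarith
  have fin : ∀ y : ℝ, |y| ≤ Real.pi / n - 2 * α → ‖Complex.exp (y * I) - 1‖ ≤ 2 * Real.sin (Real.pi / (2 * n) - α) := by
    intro y hy
    rw [hvj]
    have h3 : |Real.sin (y / 2)| ≤ Real.sin (Real.pi / (2 * n) - α) := by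
      rw [abs_le] at hy ⊢
      constructor
      · rw [← Real.sin_neg]
        apply Real.sin_le_sin_of_le_of_le_pi_div_two <;> linarith [hy.1, hy.2]
      · apply Real.sin_le_sin_of_le_of_le_pi_div_two <;> linarith [hy.1, hy.2]
    linarith
  rcases le_total 0 ψ with hs | hs
  · rw [abs_of_nonneg hs] at h2 hψ1
    obtain ⟨m, hm1, hm2⟩ := red j
    refine ⟨m, hm1, ?_⟩
    have e1 : v * Complex.exp (-(Real.pi / n : ℝ) * I) * ω ^ m = Complex.exp ((ψ - Real.pi / n : ℝ) * I) := by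
      rw [hm2, mul_right_comm, hψv, ← Complex.exp_add]
      congr 1
      push_cast
      ring
    rw [e1]
    apply fin
    rw [abs_le]
    constructor <;> linarith
  · rw [abs_of_nonpos hs] at h2 hψ1
    obtain ⟨m, hm1, hm2⟩ := red (j + 1)
    refine ⟨m, hm1, ?_⟩
    have e1 : v * Complex.exp (-(Real.pi / n : ℝ) * I) * ω ^ m = Complex.exp ((ψ + Real.pi / n : ℝ) * I) := by
      rw [hm2, zpow_add₀ hω0, zpow_one, ← mul_assoc, mul_right_comm v, hψv, hω, ← Complex.exp_add,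
        ← Complex.exp_add]
      congr 1
      push_cast
      field_simp
      ring
    rw [e1]
    apply fin
    rw [abs_le]
    constructor <;> linarith

end Pool.Agent.U922.NS
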